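import Pool.Agent.H858.RU.Spec

/-!
# Irreducibility of the adjoint representation: `S_AD`
-/

set_option autoImplicit false

namespace Pool.Agent.H858.RU

namespace AD

open Module

section lin

variable {k : Type} [Field k]

/-- A matrix is scalar if and only if three numbers vanish. -/
lemma isSc_iff (X : Mat k) : IsSc X ↔ X 0 1 = 0 ∧ X 1 0 = 0 ∧ X 0 0 = X 1 1 := by
  constructor
  · rintro ⟨c, rfl⟩
    simp
  · rintro ⟨h1, h2, h3⟩
    refine ⟨X 0 0, ?_⟩
    ext i j
    fin_cases i <;> fin_cases j <;> simp [h1, h2, h3]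

/-- What commutes with a matrix which is not scalar is a polynomial in this matrix. -/
lemma of_comm {X Z : Mat k} (hX : ¬ IsSc X) (h : X * Z = Z * X) :
    ∃ a b : k, Z = a • (1 : Mat k) + b • X := by
  have e00 := congrFun (congrFun h 0) 0
  have e01 := congrFun (congrFun h 0) 1
  have e10 := congrFun (congrFun h 1) 0
  simp only [Matrix.mul_apply, Fin.sum_univ_two] at e00 e01 e10
  rw [isSc_iff] at hX
  by_cases h1 : X 0 1 = 0
  · by_cases h2 : X 1 0 = 0
    · have h3 : X 0 0 - X 1 1 ≠ 0 := fun h3 => hX ⟨h1, h2, sub_eq_zero.1 h3⟩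
      have z01 : Z 0 1 = 0 := by
        have : (X 0 0 - X 1 1) * Z 0 1 = 0 := by rw [h1] at e01; linear_combination e01
        exact (mul_eq_zero.1 this).resolve_left h3
      have z10 : Z 1 0 = 0 := by
        have : (X 0 0 - X 1 1) * Z 1 0 = 0 := by rw [h2] at e10; linear_combination -e10
        exact (mul_eq_zero.1 this).resolve_left h3
      refine ⟨Z 0 0 - (Z 0 0 - Z 1 1) / (X 0 0 - X 1 1) * X 0 0,
        (Z 0 0 - Z 1 1) / (X 0 0 - X 1 1), ?_⟩
      ext i j
      fin_cases i <;> fin_cases j
      · simp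
      · simp [h1, z01]
      · simp [h2, z10]
      · simp only [Fin.mk_one, Fin.isValue, Matrix.add_apply, Matrix.smul_apply, Matrix.one_apply_eq,
          smul_eq_mul, mul_one]
        field_simp
        ring
    · refine ⟨Z 0 0 - Z 1 0 / X 1 0 * X 0 0, Z 1 0 / X 1 0, ?_⟩
      ext i j
      fin_cases i <;> fin_cases j
      · simp
      · simp only [Fin.zero_eta, Fin.mk_one, Fin.isValue, Matrix.add_apply, Matrix.smul_apply,
          smul_eq_mul, ne_eq, zero_ne_one, not_false_eq_true, Matrix.one_apply_ne, mul_zero, zero_add]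
        field_simp
        linear_combination -e00
      · simp only [Fin.zero_eta, Fin.mk_one, Fin.isValue, Matrix.add_apply, Matrix.smul_apply,
          smul_eq_mul, ne_eq, one_ne_zero, not_false_eq_true, Matrix.one_apply_ne, mul_zero, zero_add]
        field_simp
      · simp only [Fin.mk_one, Fin.isValue, Matrix.add_apply, Matrix.smul_apply, Matrix.one_apply_eq,
          smul_eq_mul, mul_one]
        field_simp
        linear_combination -e10
  · refine ⟨Z 0 0 - Z 0 1 / X 0 1 * X 0 0, Z 0 1 / X 0 1, ?_⟩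
    ext i j
    fin_cases i <;> fin_cases j
    · simp
    · simp only [Fin.zero_eta, Fin.mk_one, Fin.isValue, Matrix.add_apply, Matrix.smul_apply,
          smul_eq_mul, ne_eq, zero_ne_one, not_false_eq_true, Matrix.one_apply_ne, mul_zero, zero_add]
      field_simp
    · simp only [Fin.zero_eta, Fin.mk_one, Fin.isValue, Matrix.add_apply, Matrix.smul_apply,
          smul_eq_mul, ne_eq, one_ne_zero, not_false_eq_true, Matrix.one_apply_ne, mul_zero, zero_add]
      field_simp
      linear_combination e00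
    · simp only [Fin.mk_one, Fin.isValue, Matrix.add_apply, Matrix.smul_apply, Matrix.one_apply_eq,
          smul_eq_mul, mul_one]
      field_simp
      linear_combination e01

/-- `1`, `X`, `X'` are linearly independent if `X` and `X'` do not commute. -/
lemma indep {X X' : Mat k} (h : X * X' ≠ X' * X) : LinearIndependent k ![1, X, X'] := by
  rw [Fintype.linearIndependent_iff]
  intro g hg
  simp only [Fin.sum_univ_three, Matrix.cons_val_zero, Matrix.cons_val_one,
    Matrix.cons_val] at hg
  have h2 : g 2 = 0 := by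
    have h1 : g 2 • (X * X' - X' * X) = 0 := by
      have e : X * (g 0 • (1 : Mat k) + g 1 • X + g 2 • X') -
          (g 0 • (1 : Mat k) + g 1 • X + g 2 • X') * X = g 2 • (X * X' - X' * X) := by
        simp only [mul_add, add_mul, Matrix.mul_smul, Matrix.smul_mul, mul_one, one_mul, smul_sub]
        abel
      rw [← e, hg, mul_zero, zero_mul, sub_zero]
    exact (smul_eq_zero.1 h1).resolve_right (sub_ne_zero.2 h)
  rw [h2, zero_smul, add_zero] at hg
  have h1 : g 1 = 0 := by
    by_contra h1
    apply h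
    have hX : X = (-(g 0) / g 1) • (1 : Mat k) := by
      have e : g 1 • X = (-(g 0)) • (1 : Mat k) := by
        rw [neg_smul]
        exact eq_neg_of_add_eq_zero_right hg
      rw [div_eq_inv_mul, mul_smul, ← e, smul_smul, inv_mul_cancel₀ h1, one_smul]
    rw [hX]
    simp
  rw [h1, zero_smul, add_zero] at hg
  have h0 : g 0 = 0 := (smul_eq_zero.1 hg).resolve_right one_ne_zero
  intro i
  fin_cases i
  · exact h0
  · exact h1
  · exact h2

/-- Two matrices of a proper subspace which do not commute span it, with `1`. -/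
lemma spans {X X' : Mat k} (h : X * X' ≠ X' * X) {W : Submodule k (Mat k)} (hX : X ∈ W)
    (hX' : X' ∈ W) (hne : W ⊔ Submodule.span k {(1 : Mat k)} ≠ ⊤) {Z : Mat k} (hZ : Z ∈ W) :
    ∃ a b c : k, Z = a • (1 : Mat k) + b • X + c • X' := by
  by_cases hs : Z ∈ Submodule.span k (Set.range ![1, X, X'])
  · rw [Submodule.mem_span_range_iff_exists_fun] at hs
    obtain ⟨c, hc⟩ := hs
    refine ⟨c 0, c 1, c 2, ?_⟩
    rw [← hc, Fin.sum_univ_three]
    rfl
  · exfalso
    apply hne
    have hli : LinearIndependent k (Fin.cons Z ![1, X, X'] : Fin 4 → Mat k) :=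
      linearIndependent_finCons.2 ⟨indep h, hs⟩
    have hf : Fintype.card (Fin 4) = finrank k (Mat k) := by
      rw [Module.finrank_matrix, Module.finrank_self]
      simp
    have ht := hli.span_eq_top_of_card_eq_finrank' hf
    rw [eq_top_iff, ← ht, Submodule.span_le]
    rintro _ ⟨i, rfl⟩
    have h1 : (1 : Mat k) ∈ W ⊔ Submodule.span k {(1 : Mat k)} :=
      Submodule.mem_sup_right (Submodule.mem_span_singleton_self _)
    fin_cases i
    · exact Submodule.mem_sup_left hZ
    · exact h1
    · exact Submodule.mem_sup_left hX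
    · exact Submodule.mem_sup_left hX'

/-- A stable line of matrices of trace zero. -/
lemma line (h2 : (2 : k) ≠ 0) {ι : Type} (m m' : ι → Mat k) (hm : ∀ g, m' g * m g = 1)
    (W : Submodule k (Mat k)) (hW : ∀ g, ∀ X ∈ W, m g * X * m' g ∈ W)
    (hX : ∃ X ∈ W, ¬ IsSc X) (hne : W ⊔ Submodule.span k {(1 : Mat k)} ≠ ⊤) :
    ∃ Y : Mat k, Y ≠ 0 ∧ Y.trace = 0 ∧ ∀ g, ∃ c : k, m g * Y = c • (Y * m g) := by
  obtain ⟨X, hXW, hXn⟩ := hX
  by_cases hc : ∀ Z ∈ W, X * Z = Z * X
  · refine ⟨X - (X.trace / 2) • (1 : Mat k), ?_, ?_, ?_⟩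
    · intro h
      exact hXn ⟨_, sub_eq_zero.1 h⟩
    · rw [Matrix.trace_sub, Matrix.trace_smul, Matrix.trace_one, Fintype.card_fin, smul_eq_mul]
      push_cast
      field_simp
      ring
    · intro g
      obtain ⟨a, b, hab⟩ := of_comm hXn (hc _ (hW g X hXW))
      refine ⟨b, ?_⟩
      have htr : a * 2 + b * X.trace = X.trace := by
        have h1 := congrArg Matrix.trace hab
        rw [Matrix.trace_mul_cycle, hm, one_mul, Matrix.trace_add, Matrix.trace_smul,
          Matrix.trace_smul, Matrix.trace_one, Fintype.card_fin, smul_eq_mul, smul_eq_mul] at h1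
        push_cast at h1
        exact h1.symm
      have e1 : m g * X = (a • (1 : Mat k) + b • X) * m g := by
        rw [← hab, mul_assoc, hm, mul_one]
      rw [mul_sub, e1, sub_mul, add_mul, Matrix.smul_mul, Matrix.smul_mul, one_mul,
        Matrix.mul_smul, mul_one, Matrix.smul_mul, one_mul, smul_sub, smul_smul]
      have e2 : a = X.trace / 2 - b * (X.trace / 2) := by
        field_simp
        linear_combination htr
      rw [e2]
      module
  · push Not at hc
    obtain ⟨X', hXW', hXX⟩ := hc
    refine ⟨X * X' - X' * X, sub_ne_zero.2 hXX, ?_, ?_⟩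
    · rw [Matrix.trace_sub, Matrix.trace_mul_comm, sub_self]
    · intro g
      obtain ⟨a, b, c, h1⟩ := spans hXX hXW hXW' hne (hW g X hXW)
      obtain ⟨a', b', c', h1'⟩ := spans hXX hXW hXW' hne (hW g X' hXW')
      refine ⟨b * c' - c * b', ?_⟩
      have e1 : m g * X = (a • (1 : Mat k) + b • X + c • X') * m g := by
        rw [← h1, mul_assoc, hm, mul_one]
      have e1' : m g * X' = (a' • (1 : Mat k) + b' • X + c' • X') * m g := by
        rw [← h1', mul_assoc, hm, mul_one]
      rw [mul_sub, ← mul_assoc, ← mul_assoc, e1, e1', mul_assoc, mul_assoc, e1, e1', ← mul_assoc,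
        ← mul_assoc, ← sub_mul, ← Matrix.smul_mul]
      congr 1
      simp only [mul_add, add_mul, Matrix.mul_smul, Matrix.smul_mul, mul_one, one_mul, smul_sub]
      module

/-- If `Y * A * Y = 0` for all `A` then `Y = 0`. -/
lemma sandwich {Y : Mat k} (h : ∀ A : Mat k, Y * A * Y = 0) : Y = 0 := by
  ext i j
  have h1 := congrFun (congrFun (h (Matrix.single j i 1)) i) j
  rw [Matrix.mul_apply] at h1
  rw [Finset.sum_eq_single i] at h1
  · simp at h1
    exact h1
  · intro b _ hb
    rw [Matrix.mul_single_apply_of_ne _ _ _ _ _ hb]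
    rw [zero_mul]
  · intro h
    exact absurd (Finset.mem_univ _) h

/-- A matrix of trace zero which commutes with all matrices is zero. -/
lemma central (h2 : (2 : k) ≠ 0) {Y : Mat k} (ht : Y.trace = 0)
    (h : ∀ A : Mat k, A * Y = Y * A) : Y = 0 := by
  have e1 := h !![0, 1; 0, 0]
  have e2 := h !![0, 0; 1, 0]
  have a1 := congrFun (congrFun e1 0) 0
  have a2 := congrFun (congrFun e1 0) 1
  have a3 := congrFun (congrFun e2 0) 0
  simp [Matrix.mul_apply, Fin.sum_univ_two] at a1 a2 a3
  rw [Matrix.trace_fin_two] at ht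
  have h00 : Y 0 0 = 0 := by
    have : 2 * Y 0 0 = 0 := by rw [a2] at ht; linear_combination ht
    exact (mul_eq_zero.1 this).resolve_left h2
  have h11 : Y 1 1 = 0 := by rw [h00, zero_add] at ht; exact ht
  ext i j
  fin_cases i <;> fin_cases j
  · exact h00
  · simpa using a3.symm
  · simpa using a1
  · exact h11

end lin

section padic

variable {p : ℕ} [Fact p.Prime] {G : Type} [Group G]

lemma mt_mul (ρ : G →* GL (Fin 2) ℤ_[p]) (g h : G) : mt ρ (g * h) = mt ρ g * mt ρ h := by
  unfold mt
  rw [map_mul, Units.val_mul, Matrix.map_mul]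

lemma mt_one (ρ : G →* GL (Fin 2) ℤ_[p]) : mt ρ 1 = 1 := by
  unfold mt
  rw [map_one, Units.val_one, Matrix.map_one _ (map_zero _) (map_one _)]

lemma mt_inv_mul (ρ : G →* GL (Fin 2) ℤ_[p]) (g : G) : mt ρ g⁻¹ * mt ρ g = 1 := by
  rw [← mt_mul, inv_mul_cancel, mt_one]

lemma mt_mul_inv (ρ : G →* GL (Fin 2) ℤ_[p]) (g : G) : mt ρ g * mt ρ g⁻¹ = 1 := by
  rw [← mt_mul, mul_inv_cancel, mt_one]

lemma continuous_mt [TopologicalSpace G] {ρ : G →* GL (Fin 2) ℤ_[p]}
    (hc : Continuous fun g => (ρ g : Matrix (Fin 2) (Fin 2) ℤ_[p])) :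
    Continuous fun g => mt ρ g :=
  Continuous.matrix_map hc continuous_subtype_val

/-- The subgroup of the elements which commute with `Y`. -/
def cent (ρ : G →* GL (Fin 2) ℤ_[p]) (Y : Mat ℚ_[p]) : Subgroup G where
  carrier := {g | mt ρ g * Y = Y * mt ρ g}
  mul_mem' := by
    intro a b ha hb
    simp only [Set.mem_ofPred_eq] at ha hb ⊢
    rw [mt_mul, mul_assoc, hb, ← mul_assoc, ha, mul_assoc]
  one_mem' := by
    simp only [Set.mem_ofPred_eq]
    rw [mt_one, one_mul, mul_one]
  inv_mem' := by
    intro a ha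
    simp only [Set.mem_ofPred_eq] at ha ⊢
    calc mt ρ a⁻¹ * Y = mt ρ a⁻¹ * (Y * mt ρ a) * mt ρ a⁻¹ := by
          rw [mul_assoc, mul_assoc, mt_mul_inv, mul_one]
      _ = Y * mt ρ a⁻¹ := by rw [← ha, ← mul_assoc, mt_inv_mul, one_mul]

/-- There is no stable line of matrices of trace zero. -/
lemma no_line [TopologicalSpace G] {ρ : G →* GL (Fin 2) ℤ_[p]}
    (hc : Continuous fun g => (ρ g : Matrix (Fin 2) (Fin 2) ℤ_[p])) (hs : StrongIrr ρ)
    {Y : Mat ℚ_[p]} (hY0 : Y ≠ 0) (hYt : Y.trace = 0)
    (hY : ∀ g, ∃ c : ℚ_[p], mt ρ g * Y = c • (Y * mt ρ g)) : False := by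
  by_cases hd : Y.det = 0
  · apply hY0
    apply sandwich
    have hYY : Y * Y = 0 := by
      rw [Matrix.det_fin_two] at hd
      rw [Matrix.trace_fin_two] at hYt
      ext i j
      fin_cases i <;> fin_cases j <;> simp [Matrix.mul_apply, Fin.sum_univ_two]
      · linear_combination Y 0 0 * hYt - hd
      · linear_combination Y 0 1 * hYt
      · linear_combination Y 1 0 * hYt
      · linear_combination Y 1 1 * hYt - hd
    intro A
    have hA : A ∈ Submodule.span ℚ_[p] {A : Mat ℚ_[p] | ∃ g ∈ (⊤ : Subgroup G), A = mt ρ g} := by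
      rw [hs ⊤ (by simp)]
      trivial
    induction hA using Submodule.span_induction with
    | mem x hx =>
      obtain ⟨g, -, rfl⟩ := hx
      obtain ⟨c, hg⟩ := hY g
      rw [mul_assoc, hg, Matrix.mul_smul, ← mul_assoc, hYY, zero_mul, smul_zero]
    | zero => simp
    | add x y _ _ hx hy => rw [mul_add, add_mul, hx, hy, add_zero]
    | smul a x _ hx => rw [Matrix.mul_smul, Matrix.smul_mul, hx, smul_zero]
  · have hpm : ∀ g, mt ρ g * Y = Y * mt ρ g ∨ mt ρ g * Y = -(Y * mt ρ g) := by
      intro g
      obtain ⟨c, hg⟩ := hY g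
      have h1 := congrArg Matrix.det hg
      rw [Matrix.det_mul, Matrix.det_smul, Matrix.det_mul, Fintype.card_fin] at h1
      have hdg : (mt ρ g).det ≠ 0 := by
        intro h0
        have := congrArg Matrix.det (mt_inv_mul ρ g)
        rw [Matrix.det_mul, h0, mul_zero, Matrix.det_one] at this
        exact zero_ne_one this
      have h2 : c ^ 2 = 1 := by
        have h3 : (c ^ 2 - 1) * (Y.det * (mt ρ g).det) = 0 := by linear_combination -h1
        exact sub_eq_zero.1 ((mul_eq_zero.1 h3).resolve_right (mul_ne_zero hd hdg))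
      rcases sq_eq_one_iff.1 h2 with h | h
      · left; rw [hg, h, one_smul]
      · right; rw [hg, h, neg_smul, one_smul]
    have hopen : IsOpen (cent ρ Y : Set G) := by
      have e : (cent ρ Y : Set G) = {g | mt ρ g * Y = -(Y * mt ρ g)}ᶜ := by
        ext g
        simp only [Set.mem_compl_iff, Set.mem_ofPred_eq]
        constructor
        · intro h1 h2
          have h1' : mt ρ g * Y = Y * mt ρ g := h1
          apply hY0
          have h3 : Y * mt ρ g = -(Y * mt ρ g) := h1'.symm.trans h2
          have h4 : Y * mt ρ g = 0 := by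
            have h5 : (2 : ℚ_[p]) • (Y * mt ρ g) = 0 := by
              rw [two_smul]
              nth_rewrite 2 [h3]
              exact add_neg_cancel _
            exact (smul_eq_zero.1 h5).resolve_left two_ne_zero
          rw [← mul_one Y, ← mt_mul_inv ρ g, ← mul_assoc, h4, zero_mul]
        · intro h
          exact (hpm g).resolve_right h
      rw [e, isOpen_compl_iff]
      have hm := continuous_mt hc
      exact isClosed_eq (hm.mul continuous_const) (continuous_const.mul hm).neg
    apply hY0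
    apply central two_ne_zero hYt
    intro A
    have hA : A ∈ Submodule.span ℚ_[p] {A : Mat ℚ_[p] | ∃ g ∈ cent ρ Y, A = mt ρ g} := by
      rw [hs _ hopen]
      trivial
    induction hA using Submodule.span_induction with
    | mem x hx =>
      obtain ⟨g, hg, rfl⟩ := hx
      exact hg
    | zero => simp
    | add x y _ _ hx hy => rw [mul_add, add_mul, hx, hy]
    | smul a x _ hx => rw [Matrix.mul_smul, Matrix.smul_mul, hx]

end padic

end AD

/-- **S_AD** -/
theorem ad : S_AD := by
  intro p _ G _ _ _ ρ hc hs W hW hX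
  by_contra hne
  obtain ⟨Y, hY0, hYt, hY⟩ := AD.line (two_ne_zero) (fun g => mt ρ g) (fun g => mt ρ g⁻¹)
    (AD.mt_inv_mul ρ) W hW hX hne
  exact AD.no_line hc hs hY0 hYt hY

end Pool.Agent.H858.RU
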