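import Pool.Agent.H858.RU.Spec

/-!
# Two-dimensional representations which are not strongly irreducible
-/

set_option autoImplicit false

namespace Pool.Agent.H858.RU

open Module Pool.Agent.R390.SF

namespace B1

section alg

variable {k : Type} [Field k]

omit [Field k] in
theorem ext2 {A B : Mat k} (h0 : A 0 0 = B 0 0) (h1 : A 0 1 = B 0 1) (h2 : A 1 0 = B 1 0)
    (h3 : A 1 1 = B 1 1) : A = B := by
  ext i j
  fin_cases i <;> fin_cases j <;> assumption

/-- the matrix with eigenvalues `1`, `-1` on a basis -/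
theorem exists_Y (h2 : (2 : k) ≠ 0) (v w : Fin 2 → k) (hD : v 0 * w 1 - v 1 * w 0 ≠ 0) :
    ∃ Y : Mat k, Y.trace = 0 ∧ Y.det ≠ 0 ∧ ∀ (A : Mat k) (a d : k),
      A.mulVec v = a • v → A.mulVec w = d • w → ∃ x y : k, A = x • 1 + y • Y := by
  obtain ⟨D, hDe⟩ : ∃ D, D = v 0 * w 1 - v 1 * w 0 := ⟨_, rfl⟩
  rw [← hDe] at hD
  refine ⟨!![(v 0 * w 1 + w 0 * v 1) / D, -(2 * v 0 * w 0) / D; (2 * v 1 * w 1) / D,
    -((v 0 * w 1 + w 0 * v 1) / D)], ?_, ?_, ?_⟩
  · rw [Matrix.trace_fin_two]
    simp
  · rw [Matrix.det_fin_two_of]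
    have h : (v 0 * w 1 + w 0 * v 1) / D * -((v 0 * w 1 + w 0 * v 1) / D) -
        -(2 * v 0 * w 0) / D * ((2 * v 1 * w 1) / D) = -1 := by
      field_simp
      rw [hDe]
      ring
    rw [h]
    exact neg_ne_zero.mpr one_ne_zero
  · intro A a d h1 h3
    have e0 := congrFun h1 0
    have e1 := congrFun h1 1
    have f0 := congrFun h3 0
    have f1 := congrFun h3 1
    simp only [Matrix.mulVec, dotProduct, Fin.sum_univ_two, Pi.smul_apply, smul_eq_mul] at e0 e1 f0 f1
    refine ⟨(a + d) / 2, (a - d) / 2, ?_⟩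
    apply ext2
    · simp
      field_simp
      linear_combination (2 * A 0 0 - (a + d)) * hDe + 2 * w 1 * e0 - 2 * v 1 * f0
    · simp
      field_simp
      linear_combination A 0 1 * hDe - w 0 * e0 + v 0 * f0
    · simp
      field_simp
      linear_combination A 1 0 * hDe + w 1 * e1 - v 1 * f1
    · simp
      field_simp
      linear_combination (2 * A 1 1 - (a + d)) * hDe - 2 * w 0 * e1 + 2 * v 0 * f1

/-- parallel vectors -/
theorem par (v u : Fin 2 → k) (hv : v ≠ 0) (hD : v 0 * u 1 - v 1 * u 0 = 0) :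
    ∃ c : k, c • v = u := by
  by_cases h0 : v 0 = 0
  · have h1 : v 1 ≠ 0 := by
      intro h1
      apply hv
      funext i
      fin_cases i
      · exact h0
      · exact h1
    refine ⟨u 1 / v 1, ?_⟩
    funext i
    fin_cases i
    · simp
      field_simp
      linear_combination hD
    · simp
      field_simp
  · refine ⟨u 0 / v 0, ?_⟩
    funext i
    fin_cases i
    · simp
      field_simp
    · simp
      field_simp
      linear_combination -hD

/-- the kernel of a matrix which is not zero -/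
theorem ker_par (Y : Mat k) (hY : Y ≠ 0) (v u : Fin 2 → k) (hv : v ≠ 0) (h1 : Y.mulVec v = 0)
    (h2 : Y.mulVec u = 0) : ∃ c : k, u = c • v := by
  have e0 := congrFun h1 0
  have e1 := congrFun h1 1
  have f0 := congrFun h2 0
  have f1 := congrFun h2 1
  simp only [Matrix.mulVec, dotProduct, Fin.sum_univ_two, Pi.zero_apply] at e0 e1 f0 f1
  by_cases hD : v 0 * u 1 - v 1 * u 0 = 0
  · obtain ⟨c, hc⟩ := par v u hv hD
    exact ⟨c, hc.symm⟩
  · exfalso
    apply hY
    have g : ∀ x : k, x * (v 0 * u 1 - v 1 * u 0) = 0 → x = 0 :=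
      fun x hx => (mul_eq_zero.mp hx).resolve_right hD
    apply ext2
    · exact g _ (by linear_combination u 1 * e0 - v 1 * f0)
    · exact g _ (by linear_combination v 0 * f0 - u 0 * e0)
    · exact g _ (by linear_combination u 1 * e1 - v 1 * f1)
    · exact g _ (by linear_combination v 0 * f1 - u 0 * e1)

theorem tr0 {Y : Mat k} (h : Y.trace = 0) : Y 1 1 = - Y 0 0 := by
  rw [Matrix.trace_fin_two] at h
  linear_combination h

/-- a nilpotent matrix -/
theorem exists_ker (Y : Mat k) (hY : Y ≠ 0) (ht : Y.trace = 0) (hd : Y.det = 0) :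
    ∃ v : Fin 2 → k, v ≠ 0 ∧ Y.mulVec v = 0 := by
  have hy := tr0 ht
  rw [Matrix.det_fin_two, hy] at hd
  have h1 : ∀ j, Y.mulVec (fun i => Y i j) = 0 := by
    intro j
    funext i
    fin_cases i <;> fin_cases j <;>
      simp only [Matrix.mulVec, dotProduct, Fin.sum_univ_two, Pi.zero_apply, Fin.zero_eta,
        Fin.mk_one, hy]
    · linear_combination -hd
    · ring
    · ring
    · linear_combination -hd
  by_contra hcon
  push Not at hcon
  apply hY
  have h2 : ∀ j, (fun i => Y i j) = 0 := by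
    intro j
    by_contra h
    exact hcon _ h (h1 j)
  ext i j
  exact congrFun (h2 j) i

/-- the matrices which commute with `Y` -/
theorem comm_mem (h2 : (2 : k) ≠ 0) (Y : Mat k) (ht : Y.trace = 0) (hd : Y.det ≠ 0) (A : Mat k)
    (h : A * Y = Y * A) : ∃ a b : k, A = a • 1 + b • Y := by
  have hy := tr0 ht
  have e00 := congrFun (congrFun h 0) 0
  have e01 := congrFun (congrFun h 0) 1
  have e10 := congrFun (congrFun h 1) 0
  simp only [Matrix.mul_apply, Fin.sum_univ_two] at e00 e01 e10
  rw [Matrix.det_fin_two] at hd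
  rw [hy] at hd e01 e10
  obtain ⟨Δ, hΔ⟩ : ∃ Δ, Δ = Y 0 0 * -Y 0 0 - Y 0 1 * Y 1 0 := ⟨_, rfl⟩
  rw [← hΔ] at hd
  refine ⟨(A 0 0 + A 1 1) / 2,
    -((A 0 0 - A 1 1) * Y 0 0 + A 0 1 * Y 1 0 + A 1 0 * Y 0 1) / (2 * Δ), ?_⟩
  apply ext2
  · simp
    field_simp
    linear_combination (A 0 0 - A 1 1) * hΔ + Y 0 1 * e10 + Y 0 0 * e00
  · simp
    field_simp
    linear_combination 2 * A 0 1 * hΔ + Y 0 0 * e01 - Y 0 1 * e00
  · simp
    field_simp
    linear_combination 2 * A 1 0 * hΔ - Y 0 0 * e10 + Y 1 0 * e00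
  · simp
    rw [hy]
    field_simp
    linear_combination (A 1 1 - A 0 0) * hΔ - Y 0 1 * e10 - Y 0 0 * e00

/-- anticommuting with `Y` -/
theorem tr_anti (h2 : (2 : k) ≠ 0) (Y : Mat k) (hd : Y.det ≠ 0) (A : Mat k)
    (h : A * Y = -(Y * A)) : A.trace = 0 := by
  have hu : IsUnit Y.det := isUnit_iff_ne_zero.mpr hd
  have h1 : A = -(Y * A * Y⁻¹) := by
    calc A = A * Y * Y⁻¹ := by rw [Matrix.mul_assoc, Matrix.mul_nonsing_inv _ hu, Matrix.mul_one]
      _ = -(Y * A * Y⁻¹) := by rw [h, Matrix.neg_mul]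
  have h3 : A.trace = -A.trace := by
    calc A.trace = (-(Y * A * Y⁻¹)).trace := by rw [← h1]
      _ = -(Y⁻¹ * (Y * A)).trace := by rw [Matrix.trace_neg, Matrix.trace_mul_comm]
      _ = -A.trace := by rw [← Matrix.mul_assoc, Matrix.nonsing_inv_mul _ hu, Matrix.one_mul]
  have h4 : 2 * A.trace = 0 := by linear_combination h3
  exact (mul_eq_zero.mp h4).resolve_left h2

/-- traceless matrices which commute are dependent -/
theorem dep (h2 : (2 : k) ≠ 0) (X Z : Mat k) (hX : X.trace = 0) (hZ : Z.trace = 0) (h0 : X ≠ 0)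
    (h : X * Z - Z * X = 0) : ∃ c : k, Z = c • X := by
  have hx := tr0 hX
  have hz := tr0 hZ
  have e00 := congrFun (congrFun h 0) 0
  have e01 := congrFun (congrFun h 0) 1
  have e10 := congrFun (congrFun h 1) 0
  simp only [Matrix.sub_apply, Matrix.mul_apply, Fin.sum_univ_two, Matrix.zero_apply] at e00 e01 e10
  rw [hx, hz] at e01 e10
  have g01 : X 0 0 * Z 0 1 - X 0 1 * Z 0 0 = 0 := by
    have : 2 * (X 0 0 * Z 0 1 - X 0 1 * Z 0 0) = 0 := by linear_combination e01
    exact (mul_eq_zero.mp this).resolve_left h2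
  have g10 : X 0 0 * Z 1 0 - X 1 0 * Z 0 0 = 0 := by
    have : 2 * (X 0 0 * Z 1 0 - X 1 0 * Z 0 0) = 0 := by linear_combination -e10
    exact (mul_eq_zero.mp this).resolve_left h2
  by_cases h00 : X 0 0 = 0
  · by_cases h01 : X 0 1 = 0
    · by_cases h10 : X 1 0 = 0
      · exfalso
        apply h0
        apply ext2
        · exact h00
        · exact h01
        · exact h10
        · rw [hx, h00]
          simp
      · refine ⟨Z 1 0 / X 1 0, ?_⟩
        apply ext2
        · simp
          field_simp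
          linear_combination -g10
        · simp
          field_simp
          linear_combination -e00
        · simp
          field_simp
        · simp
          rw [hx, hz]
          field_simp
          linear_combination g10
    · refine ⟨Z 0 1 / X 0 1, ?_⟩
      apply ext2
      · simp
        field_simp
        linear_combination -g01
      · simp
        field_simp
      · simp
        field_simp
        linear_combination e00
      · simp
        rw [hx, hz]
        field_simp
        linear_combination g01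
  · refine ⟨Z 0 0 / X 0 0, ?_⟩
    apply ext2
    · simp
      field_simp
    · simp
      field_simp
      linear_combination g01
    · simp
      field_simp
      linear_combination g10
    · simp
      rw [hx, hz]
      field_simp

/-- a proper submodule which is stable and contains a matrix which is not scalar gives a line -/
theorem exists_line (h2 : (2 : k) ≠ 0) (R : Submodule k (Mat k)) (h1 : (1 : Mat k) ∈ R)
    (hR : R ≠ ⊤) (hns : ∃ X ∈ R, ¬ IsSc X) : ∃ Y : Mat k, Y ≠ 0 ∧ Y.trace = 0 ∧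
      ∀ m m' : Mat k, m' * m = 1 → (∀ X ∈ R, m * X * m' ∈ R) → ∃ c : k, m * Y * m' = c • Y := by
  obtain ⟨X, hX, hXs⟩ := hns
  have ht1 : (1 : Mat k).trace = 2 := by
    rw [Matrix.trace_one]
    simp
  obtain ⟨X₁, hX₁e⟩ : ∃ X₁ : Mat k, X₁ = X - (X.trace / 2) • 1 := ⟨_, rfl⟩
  have hX₁ : X₁ ∈ R := by
    rw [hX₁e]
    exact R.sub_mem hX (R.smul_mem _ h1)
  have ht : X₁.trace = 0 := by
    rw [hX₁e, Matrix.trace_sub, Matrix.trace_smul, ht1, smul_eq_mul]
    field_simp
    ring
  have h0 : X₁ ≠ 0 := by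
    intro h
    apply hXs
    refine ⟨X.trace / 2, ?_⟩
    rw [hX₁e] at h
    exact sub_eq_zero.mp h
  have htc : ∀ m m' Z : Mat k, m' * m = 1 → (m * Z * m').trace = Z.trace := by
    intro m m' Z hm
    rw [Matrix.trace_mul_comm, ← Matrix.mul_assoc, hm, Matrix.one_mul]
  by_cases hc : ∀ Z ∈ R, Z.trace = 0 → ∃ c : k, Z = c • X₁
  · refine ⟨X₁, h0, ht, ?_⟩
    intro m m' hm hs
    exact hc _ (hs _ hX₁) (by rw [htc _ _ _ hm, ht])
  · push Not at hc
    obtain ⟨X₂, hX₂, ht₂, hn⟩ := hc
    have hli : LinearIndependent k ![X₁, X₂] := by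
      rw [LinearIndependent.pair_iff' h0]
      intro a ha
      exact hn a ha.symm
    obtain ⟨W, hWe⟩ : ∃ W : Submodule k (Mat k),
      W = R ⊓ LinearMap.ker (Matrix.traceLinearMap (Fin 2) k k) := ⟨_, rfl⟩
    have hW : ∀ Z, Z ∈ W ↔ Z ∈ R ∧ Z.trace = 0 := by
      intro Z
      rw [hWe, Submodule.mem_inf, LinearMap.mem_ker]
      rfl
    have hlt : W < R := by
      refine lt_of_le_of_ne (by rw [hWe]; exact inf_le_left) ?_
      intro h
      have : (1 : Mat k) ∈ W := by rw [h]; exact h1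
      have h3 := ((hW _).mp this).2
      rw [ht1] at h3
      exact h2 h3
    have hf1 : finrank k W < finrank k R := Submodule.finrank_lt_finrank_of_lt hlt
    have hf2 : finrank k R < finrank k (Mat k) := Submodule.finrank_lt hR
    have hf3 : finrank k (Mat k) = 4 := by
      rw [Module.finrank_matrix]
      simp
    have hsp : Submodule.span k {X₁, X₂} = W := by
      apply Submodule.eq_of_le_of_finrank_le
      · rw [Submodule.span_le]
        intro Z hZ
        rcases hZ with rfl | hZ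
        · exact (hW _).mpr ⟨hX₁, ht⟩
        · rw [Set.mem_singleton_iff] at hZ
          rw [hZ]
          exact (hW _).mpr ⟨hX₂, ht₂⟩
      · have h3 : finrank k (Submodule.span k (Set.range ![X₁, X₂])) = 2 := by
          rw [finrank_span_eq_card hli]
          simp
        have h4 : Set.range ![X₁, X₂] = {X₁, X₂} := by
          simp [Matrix.range_cons, Matrix.range_empty, Set.pair_comm]
        rw [h4] at h3
        rw [h3]
        omega
    refine ⟨X₁ * X₂ - X₂ * X₁, ?_, ?_, ?_⟩
    · intro h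
      obtain ⟨c, hc⟩ := dep h2 X₁ X₂ ht ht₂ h0 h
      exact hn c hc
    · rw [Matrix.trace_sub, Matrix.trace_mul_comm, sub_self]
    · intro m m' hm hs
      have m1 : m * X₁ * m' ∈ Submodule.span k {X₁, X₂} := by
        rw [hsp]
        exact (hW _).mpr ⟨hs _ hX₁, by rw [htc _ _ _ hm, ht]⟩
      have m2 : m * X₂ * m' ∈ Submodule.span k {X₁, X₂} := by
        rw [hsp]
        exact (hW _).mpr ⟨hs _ hX₂, by rw [htc _ _ _ hm, ht₂]⟩
      obtain ⟨a, b, hab⟩ := Submodule.mem_span_pair.mp m1
      obtain ⟨c, d, hcd⟩ := Submodule.mem_span_pair.mp m2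
      refine ⟨a * d - b * c, ?_⟩
      have e1 : m * (X₁ * X₂ - X₂ * X₁) * m' =
          (m * X₁ * m') * (m * X₂ * m') - (m * X₂ * m') * (m * X₁ * m') := by
        have f : ∀ P Q : Mat k, (m * P * m') * (m * Q * m') = m * (P * Q) * m' := by
          intro P Q
          calc (m * P * m') * (m * Q * m') = m * P * (m' * m) * Q * m' := by noncomm_ring
            _ = m * (P * Q) * m' := by rw [hm]; noncomm_ring
        rw [f, f]
        noncomm_ring
      rw [e1, ← hab, ← hcd]
      simp only [add_mul, mul_add, smul_mul_assoc, mul_smul_comm, smul_sub]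
      module

end alg

section padic

variable {p : ℕ} [Fact p.Prime] {G : Type} [Group G]

theorem mt_mul (ρ : G →* GL (Fin 2) ℤ_[p]) (g h : G) : mt ρ (g * h) = mt ρ g * mt ρ h := by
  simp [mt, Matrix.map_mul]

theorem mt_one (ρ : G →* GL (Fin 2) ℤ_[p]) : mt ρ 1 = 1 := by
  simp [mt]

theorem mt_inv (ρ : G →* GL (Fin 2) ℤ_[p]) (g : G) : mt ρ g⁻¹ * mt ρ g = 1 := by
  rw [← mt_mul, inv_mul_cancel, mt_one]

theorem mt_inv' (ρ : G →* GL (Fin 2) ℤ_[p]) (g : G) : mt ρ g * mt ρ g⁻¹ = 1 := by
  rw [← mt_mul, mul_inv_cancel, mt_one]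

theorem cont_mt [TopologicalSpace G] (ρ : G →* GL (Fin 2) ℤ_[p])
    (h : Continuous fun g => (ρ g : Matrix (Fin 2) (Fin 2) ℤ_[p])) : Continuous (mt ρ) := by
  apply continuous_matrix
  intro i j
  have h1 : Continuous fun g => (ρ g : Matrix (Fin 2) (Fin 2) ℤ_[p]) i j := h.matrix_elem i j
  exact continuous_subtype_val.comp h1

theorem coe_map (ρ : G →* GL (Fin 2) ℤ_[p]) (g : G) :
    (((Matrix.GeneralLinearGroup.map (algebraMap ℤ_[p] ℚ_[p])).comp ρ g : GL (Fin 2) ℚ_[p]) :
      Matrix (Fin 2) (Fin 2) ℚ_[p]) = mt ρ g := rfl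

end padic

end B1

open B1

theorem b1 : S_B1 := by
  intro p _ G _ _ _ _ ρ hρ hS hss
  have h2 : (2 : ℚ_[p]) ≠ 0 := two_ne_zero
  have hc := cont_mt ρ hρ
  by_cases hA : ∃ v : Fin 2 → ℚ_[p], v ≠ 0 ∧ ∀ g, ∃ a : ℚ_[p], (mt ρ g).mulVec v = a • v
  · right
    obtain ⟨v, hv, ha⟩ := hA
    obtain ⟨U', hU', hco⟩ := hss (Submodule.span ℚ_[p] {v}) (by
      intro g u hu
      rw [coe_map]
      obtain ⟨c, rfl⟩ := Submodule.mem_span_singleton.mp hu
      obtain ⟨a, hag⟩ := ha g
      rw [Matrix.mulVec_smul, hag]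
      exact Submodule.smul_mem _ _ (Submodule.smul_mem _ _ (Submodule.mem_span_singleton_self v)))
    have hf := Submodule.finrank_add_eq_of_isCompl hco
    have hf1 : finrank ℚ_[p] (Submodule.span ℚ_[p] {v}) = 1 := finrank_span_singleton hv
    have hf2 : finrank ℚ_[p] (Fin 2 → ℚ_[p]) = 2 := by simp
    have hf3 : finrank ℚ_[p] U' = 1 := by omega
    obtain ⟨w', hw', hw0⟩ := finrank_eq_one_iff'.mp hf3
    have hw1 : (w' : Fin 2 → ℚ_[p]) ≠ 0 := fun h => hw' (Subtype.ext h)
    have hD : v 0 * (w' : Fin 2 → ℚ_[p]) 1 - v 1 * (w' : Fin 2 → ℚ_[p]) 0 ≠ 0 := by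
      intro hD
      apply hw1
      have hdis := hco.disjoint
      rw [Submodule.disjoint_def] at hdis
      apply hdis _ _ w'.2
      rw [Submodule.mem_span_singleton]
      exact par v w' hv hD
    obtain ⟨Y, hY1, hY2, hY3⟩ := exists_Y h2 v w' hD
    refine ⟨⊤, Y, isOpen_univ, hY1, hY2, ?_, ?_⟩
    · intro g _
      obtain ⟨a, hag⟩ := ha g
      obtain ⟨d, hd⟩ := hw0 ⟨(mt ρ g).mulVec w', hU' g _ w'.2⟩
      exact hY3 (mt ρ g) a d hag (congrArg Subtype.val hd).symm
    · intro g hg
      exact absurd (Subgroup.mem_top g) hg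
  · have hA' : ∀ v : Fin 2 → ℚ_[p], (∀ g, ∃ a : ℚ_[p], (mt ρ g).mulVec v = a • v) → v = 0 := by
      intro v hv
      by_contra h
      exact hA ⟨v, h, hv⟩
    unfold StrongIrr at hS
    push Not at hS
    obtain ⟨U₀, hU₀, hne⟩ := hS
    have hfq : Finite (G ⧸ U₀) := Subgroup.quotient_finite_of_isOpen U₀ hU₀
    have hfi : U₀.FiniteIndex := Subgroup.finiteIndex_of_finite_quotient
    have hU₁ : IsOpen (U₀.normalCore : Set G) :=
      Subgroup.isOpen_of_isClosed_of_finiteIndex _
        (U₀.normalCore_isClosed (Subgroup.isClosed_of_isOpen _ hU₀))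
    obtain ⟨R, hRe⟩ : ∃ R : Submodule ℚ_[p] (Mat ℚ_[p]),
      R = Submodule.span ℚ_[p] {A : Mat ℚ_[p] | ∃ g ∈ U₀.normalCore, A = mt ρ g} := ⟨_, rfl⟩
    have hRmem : ∀ g ∈ U₀.normalCore, mt ρ g ∈ R := by
      intro g hg
      rw [hRe]
      exact Submodule.subset_span ⟨g, hg, rfl⟩
    have hRt : R ≠ ⊤ := by
      intro h
      apply hne
      rw [eq_top_iff, ← h, hRe]
      apply Submodule.span_mono
      rintro A ⟨g, hg, rfl⟩
      exact ⟨g, U₀.normalCore_le hg, rfl⟩
    have hRc : ∀ g : G, ∀ X ∈ R, mt ρ g * X * mt ρ g⁻¹ ∈ R := by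
      intro g X hX
      rw [hRe] at hX
      induction hX using Submodule.span_induction with
      | mem X hX =>
        obtain ⟨n, hn, rfl⟩ := hX
        rw [← mt_mul, ← mt_mul]
        exact hRmem _ (Subgroup.Normal.conj_mem inferInstance n hn g)
      | zero => simp
      | add X Z _ _ h3 h4 =>
        rw [mul_add, add_mul]
        exact R.add_mem h3 h4
      | smul c X _ h3 =>
        rw [mul_smul_comm, smul_mul_assoc]
        exact R.smul_mem c h3
    by_cases hns : ∃ X ∈ R, ¬ IsSc X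
    · right
      have h1R : (1 : Mat ℚ_[p]) ∈ R := by
        have := hRmem 1 (Subgroup.one_mem _)
        rwa [mt_one] at this
      obtain ⟨Y, hY0, hYt, hYc⟩ := exists_line h2 R h1R hRt hns
      have hYg : ∀ g : G, ∃ c : ℚ_[p], mt ρ g * Y = c • (Y * mt ρ g) := by
        intro g
        obtain ⟨c, hcg⟩ := hYc (mt ρ g) (mt ρ g⁻¹) (mt_inv ρ g) (hRc g)
        refine ⟨c, ?_⟩
        calc mt ρ g * Y = mt ρ g * Y * (mt ρ g⁻¹ * mt ρ g) := by rw [mt_inv, Matrix.mul_one]
          _ = (mt ρ g * Y * mt ρ g⁻¹) * mt ρ g := by noncomm_ring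
          _ = c • (Y * mt ρ g) := by rw [hcg, smul_mul_assoc]
      have hYd : Y.det ≠ 0 := by
        intro hd
        obtain ⟨v, hv, hv0⟩ := exists_ker Y hY0 hYt hd
        apply hv
        apply hA'
        intro g
        obtain ⟨c, hcg⟩ := hYg g
        have hc0 : c ≠ 0 := by
          rintro rfl
          rw [zero_smul] at hcg
          apply hY0
          calc Y = mt ρ g⁻¹ * (mt ρ g * Y) := by rw [← Matrix.mul_assoc, mt_inv, Matrix.one_mul]
            _ = 0 := by rw [hcg, Matrix.mul_zero]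
        have h3 : Y.mulVec ((mt ρ g).mulVec v) = 0 := by
          have h4 : c • (Y.mulVec ((mt ρ g).mulVec v)) = 0 := by
            rw [Matrix.mulVec_mulVec, ← Matrix.smul_mulVec, ← hcg, ← Matrix.mulVec_mulVec, hv0,
              Matrix.mulVec_zero]
          exact (smul_eq_zero.mp h4).resolve_left hc0
        exact ker_par Y hY0 v _ hv hv0 h3
      have hpm : ∀ g : G, mt ρ g * Y = Y * mt ρ g ∨ mt ρ g * Y = -(Y * mt ρ g) := by
        intro g
        obtain ⟨c, hcg⟩ := hYg g
        have hdg : (mt ρ g).det ≠ 0 := by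
          intro h
          have := congrArg Matrix.det (mt_inv ρ g)
          rw [Matrix.det_mul, h, mul_zero, Matrix.det_one] at this
          exact zero_ne_one this
        have h3 := congrArg Matrix.det hcg
        rw [Matrix.det_mul, Matrix.det_smul, Matrix.det_mul, Fintype.card_fin] at h3
        have h4 : (c ^ 2 - 1) * ((mt ρ g).det * Y.det) = 0 := by linear_combination -h3
        have h5 : c ^ 2 - 1 = 0 := (mul_eq_zero.mp h4).resolve_right (mul_ne_zero hdg hYd)
        have h6 : (c - 1) * (c + 1) = 0 := by linear_combination h5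
        rcases mul_eq_zero.mp h6 with h7 | h7
        · left
          rw [hcg, sub_eq_zero.mp h7, one_smul]
        · right
          rw [hcg, eq_neg_of_add_eq_zero_left h7, neg_one_smul]
      refine ⟨{ carrier := {g | mt ρ g * Y = Y * mt ρ g}
                mul_mem' := ?_
                one_mem' := ?_
                inv_mem' := ?_ }, Y, ?_, hYt, hYd, ?_, ?_⟩
      · intro a b ha hb
        simp only [Set.mem_ofPred_eq] at ha hb ⊢
        rw [mt_mul, Matrix.mul_assoc, hb, ← Matrix.mul_assoc, ha, Matrix.mul_assoc]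
      · simp only [Set.mem_ofPred_eq]
        rw [mt_one, Matrix.mul_one, Matrix.one_mul]
      · intro a ha
        simp only [Set.mem_ofPred_eq] at ha ⊢
        calc mt ρ a⁻¹ * Y = mt ρ a⁻¹ * (Y * mt ρ a) * mt ρ a⁻¹ := by
              rw [Matrix.mul_assoc, Matrix.mul_assoc, mt_inv', Matrix.mul_one]
          _ = (mt ρ a⁻¹ * mt ρ a) * Y * mt ρ a⁻¹ := by rw [← ha]; noncomm_ring
          _ = Y * mt ρ a⁻¹ := by rw [mt_inv, Matrix.one_mul]
      · have hcl : IsClosed {g : G | mt ρ g * Y = -(Y * mt ρ g)} :=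
          isClosed_eq (hc.mul continuous_const) (continuous_const.mul hc).neg
        have he : {g : G | mt ρ g * Y = Y * mt ρ g} = {g : G | mt ρ g * Y = -(Y * mt ρ g)}ᶜ := by
          ext g
          simp only [Set.mem_ofPred_eq, Set.mem_compl_iff]
          constructor
          · intro h3 h4
            rw [h3] at h4
            have h5 : (2 : ℚ_[p]) • (Y * mt ρ g) = 0 := by
              rw [two_smul]
              nth_rewrite 1 [h4]
              exact neg_add_cancel _
            have h6 : Y * mt ρ g = 0 := (smul_eq_zero.mp h5).resolve_left h2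
            apply hY0
            calc Y = Y * mt ρ g * mt ρ g⁻¹ := by rw [Matrix.mul_assoc, mt_inv', Matrix.mul_one]
              _ = 0 := by rw [h6, Matrix.zero_mul]
          · intro h3
            exact (hpm g).resolve_right h3
        have h7 : IsOpen {g : G | mt ρ g * Y = Y * mt ρ g} := by
          rw [he]
          exact hcl.isOpen_compl
        exact h7
      · intro g hg
        exact comm_mem h2 Y hYt hYd _ hg
      · intro g hg
        exact tr_anti h2 Y hYd _ ((hpm g).resolve_left hg)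
    · left
      push Not at hns
      refine ⟨U₀.normalCore, hU₁, ?_⟩
      intro g hg
      exact hns _ (hRmem g hg)

end Pool.Agent.H858.RU
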