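import Pool.Agent.H858.RU.Spec

/-!
# The potentially abelian case does not depend on the prime number
-/

set_option autoImplicit false

namespace Pool.Agent.H858.RU

open Module NumberField Polynomial Pool.Agent.Y800 Pool.Agent.R390.SF Pool.Agent.NH56.PA
open Pool.Agent.R390.SF.IntegralSystem
open Pool.Agent.Y126.SH (chi)

namespace B2

attribute [local instance] Subgroup.fintypeQuotientOfFiniteIndex

/-! ## Matrices -/

section mat

variable {k : Type} [Field k]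

theorem trace_lin (a b : k) (Y : Mat k) (hY : Y.trace = 0) :
    (a • (1 : Mat k) + b • Y).trace = 2 * a := by
  rw [Matrix.trace_add, Matrix.trace_smul, Matrix.trace_smul, hY, Matrix.trace_one,
    Fintype.card_fin, smul_zero, add_zero, smul_eq_mul]
  push_cast
  ring

theorem det_lin (a b : k) (Y : Mat k) (hY : Y.trace = 0) :
    (a • (1 : Mat k) + b • Y).det = a ^ 2 + b ^ 2 * Y.det := by
  have h1 : Y 1 1 = -Y 0 0 := by
    rw [Matrix.trace_fin_two] at hY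
    linear_combination hY
  rw [Matrix.det_fin_two, Matrix.det_fin_two]
  simp only [Matrix.add_apply, Matrix.smul_apply, Matrix.one_apply_eq, smul_eq_mul]
  rw [Matrix.one_apply_ne (by decide : (0 : Fin 2) ≠ 1),
    Matrix.one_apply_ne (by decide : (1 : Fin 2) ≠ 0), h1]
  ring

theorem sc_disc {A : Mat k} (hA : IsSc A) : A.trace ^ 2 = 4 * A.det := by
  obtain ⟨c, rfl⟩ := hA
  have h1 := trace_lin c 0 (0 : Mat k) (Matrix.trace_zero _ _)
  have h2 := det_lin c 0 (0 : Mat k) (Matrix.trace_zero _ _)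
  rw [smul_zero, add_zero] at h1 h2
  rw [h1, h2]
  ring

/-- powers of a scalar plus a matrix of square zero -/
theorem pow_lin (a : k) (N : Mat k) (hN : N * N = 0) (m : ℕ) :
    (a • (1 : Mat k) + N) ^ (m + 1) = a ^ (m + 1) • (1 : Mat k) + (((m : k) + 1) * a ^ m) • N := by
  induction m with
  | zero => simp
  | succ m ih =>
    rw [pow_succ, ih, add_mul, mul_add, mul_add]
    simp only [smul_mul_assoc, mul_smul_comm, one_mul, mul_one, hN, smul_zero, add_zero, smul_smul]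
    rw [add_assoc, ← add_smul]
    congr 1
    · ring_nf
    · congr 1
      push_cast
      ring

/-- `tr² = 4 det` and a power is scalar: the matrix is scalar -/
theorem sc_of_pow [CharZero k] (A : Mat k) (hd : A.det ≠ 0) (h4 : A.trace ^ 2 = 4 * A.det) (m : ℕ)
    (hm : IsSc (A ^ (m + 1))) : IsSc A := by
  have h2 : (2 : k) ≠ 0 := two_ne_zero
  obtain ⟨a, ha⟩ : ∃ a : k, A.trace = 2 * a := ⟨A.trace / 2, by field_simp⟩
  have hda : A.det = a ^ 2 := by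
    rw [ha] at h4
    have h5 : (4 : k) ≠ 0 := by norm_num
    apply mul_left_cancel₀ h5
    rw [← h4]
    ring
  have ha0 : a ≠ 0 := by
    rintro rfl
    apply hd
    rw [hda]
    ring
  have hN : (A - a • (1 : Mat k)) * (A - a • (1 : Mat k)) = 0 := by
    have h11 : A 1 1 = 2 * a - A 0 0 := by
      rw [Matrix.trace_fin_two] at ha
      linear_combination ha
    rw [Matrix.det_fin_two, h11] at hda
    ext i j
    fin_cases i <;> fin_cases j <;>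
      simp only [Matrix.mul_apply, Fin.sum_univ_two, Matrix.sub_apply, Matrix.smul_apply,
        Matrix.one_apply, Matrix.zero_apply, smul_eq_mul, Fin.mk_zero, Fin.mk_one,
        if_true, h11, Fin.isValue, zero_ne_one, one_ne_zero, if_false] <;>
      first
      | ring1
      | linear_combination (-1 : k) * hda
  obtain ⟨c, hc⟩ := hm
  have h6 : A = a • (1 : Mat k) + (A - a • (1 : Mat k)) := by abel
  rw [h6, pow_lin a _ hN] at hc
  have h7 : ((m : k) + 1) * a ^ m ≠ 0 := by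
    have : ((m : k) + 1) ≠ 0 := by exact_mod_cast Nat.succ_ne_zero m
    exact mul_ne_zero this (pow_ne_zero _ ha0)
  have h8 : (((m : k) + 1) * a ^ m) • (A - a • (1 : Mat k)) = (c - a ^ (m + 1)) • (1 : Mat k) := by
    rw [sub_smul, ← hc]
    abel
  refine ⟨a + (((m : k) + 1) * a ^ m)⁻¹ * (c - a ^ (m + 1)), ?_⟩
  rw [add_smul, mul_smul, ← h8, smul_smul, inv_mul_cancel₀ h7, one_smul]
  abel

end mat

/-! ## The representations -/

section rep

variable {p : ℕ} [Fact p.Prime] {G : Type} [Group G]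

theorem mt_mul (ρ : G →* GL (Fin 2) ℤ_[p]) (g h : G) : mt ρ (g * h) = mt ρ g * mt ρ h := by
  unfold mt
  rw [map_mul, Units.val_mul, Matrix.map_mul]

theorem mt_one (ρ : G →* GL (Fin 2) ℤ_[p]) : mt ρ 1 = 1 := by
  unfold mt
  rw [map_one, Units.val_one, Matrix.map_one _ (map_zero _) (map_one _)]

theorem mt_pow (ρ : G →* GL (Fin 2) ℤ_[p]) (g : G) (m : ℕ) : mt ρ (g ^ m) = mt ρ g ^ m := by
  induction m with
  | zero => rw [pow_zero, pow_zero, mt_one]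
  | succ m ih => rw [pow_succ, pow_succ, mt_mul, ih]

theorem mt_det_ne (ρ : G →* GL (Fin 2) ℤ_[p]) (g : G) : (mt ρ g).det ≠ 0 := by
  intro h
  have h1 : (mt ρ g).det * (mt ρ g⁻¹).det = 1 := by
    rw [← Matrix.det_mul, ← mt_mul, mul_inv_cancel, mt_one, Matrix.det_one]
  rw [h, zero_mul] at h1
  exact zero_ne_one h1

theorem comm_of_mt (ρ : G →* GL (Fin 2) ℤ_[p]) (g h : G)
    (hc : mt ρ g * mt ρ h = mt ρ h * mt ρ g) : ρ g * ρ h = ρ h * ρ g := by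
  apply Units.ext
  have hinj : Function.Injective (algebraMap ℤ_[p] ℚ_[p]) := FaithfulSMul.algebraMap_injective _ _
  apply Matrix.map_injective hinj
  rw [← map_mul, ← map_mul]
  show mt ρ (g * h) = mt ρ (h * g)
  rw [mt_mul, mt_mul, hc]

theorem comm_lin {k : Type} [Field k] {Y A B : Mat k} (hA : ∃ a b : k, A = a • 1 + b • Y)
    (hB : ∃ a b : k, B = a • 1 + b • Y) : A * B = B * A := by
  obtain ⟨a, b, rfl⟩ := hA
  obtain ⟨c, d, rfl⟩ := hB
  simp only [add_mul, mul_add, smul_mul_assoc, mul_smul_comm, one_mul, mul_one, smul_smul,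
    smul_add]
  rw [mul_comm c a, mul_comm c b, mul_comm d a, mul_comm d b]
  abel

theorem comm_sc {k : Type} [Field k] {A B : Mat k} (hA : IsSc A) (hB : IsSc B) :
    A * B = B * A := by
  obtain ⟨a, rfl⟩ := hA
  obtain ⟨c, rfl⟩ := hB
  simp only [smul_mul_assoc, mul_smul_comm, one_mul, smul_smul, mul_comm]

theorem continuous_mt [TopologicalSpace G] {ρ : G →* GL (Fin 2) ℤ_[p]}
    (hρ : Continuous fun g => (ρ g : Matrix (Fin 2) (Fin 2) ℤ_[p])) :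
    Continuous fun g => mt ρ g :=
  hρ.matrix_map continuous_subtype_val

end rep

/-! ## The transfer -/

section tra

variable {F : SubFld ℚ} [hF : FiniteDimensional ℚ F]

theorem frob_tr_det {S : Finset ℕ} {w : ℕ} {T : IntegralSystem F 2} (hT : T.GoodSystem S w)
    {p : ℕ} (hp : p.Prime) (hpS : p ∉ S) {ℓ : ℕ} [Fact ℓ.Prime] (hℓ : ℓ ≠ p) {P : Ideal ZBar}
    (hP : P.IsMaximal) (hpP : (p : ZBar) ∈ P) {σ : F.fixingSubgroup} (hσ : IsGeomFrob p P σ) :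
    (mt (T.rho ℓ) σ).trace = ((-(T.poly (P.under (𝓞 F))).coeff 1 : ℤ) : ℚ_[ℓ]) ∧
      (mt (T.rho ℓ) σ).det = (((T.poly (P.under (𝓞 F))).coeff 0 : ℤ) : ℚ_[ℓ]) := by
  have h1 : (mt (T.rho ℓ) σ).charpoly = (T.poly (P.under (𝓞 F))).map (Int.castRingHom ℚ_[ℓ]) :=
    charpoly_frob_rat hT hp hpS hℓ hP hpP hσ
  rw [Matrix.charpoly_fin_two] at h1
  constructor
  · have h2 := congrArg (fun f => f.coeff 1) h1
    simp only [coeff_map, coeff_add, coeff_sub, coeff_C_mul, coeff_X_one, coeff_X_pow,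
      coeff_C_succ, eq_intCast] at h2
    norm_num at h2
    rw [Int.cast_neg, ← h2, neg_neg]
  · have h2 := congrArg (fun f => f.coeff 0) h1
    simp only [coeff_map, coeff_add, coeff_sub, coeff_C_mul, coeff_X_zero, coeff_X_pow,
      coeff_C_zero, eq_intCast] at h2
    norm_num at h2
    exact h2

/-- the equation `tr² = c det` on an open set does not depend on the prime number -/
theorem transfer {S : Finset ℕ} {w : ℕ} {T : IntegralSystem F 2} (hT : T.GoodSystem S w)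
    (ℓ ℓ' : ℕ) [Fact ℓ.Prime] [Fact ℓ'.Prime] (V : Set F.fixingSubgroup) (hV : IsOpen V) (c : ℤ)
    (h : ∀ g ∈ V, (mt (T.rho ℓ) g).trace ^ 2 = c * (mt (T.rho ℓ) g).det) :
    ∀ g ∈ V, (mt (T.rho ℓ') g).trace ^ 2 = c * (mt (T.rho ℓ') g).det := by
  classical
  have hcont := continuous_mt (hT.continuous ℓ')
  have hC : IsClosed (Vᶜ ∪ {g : F.fixingSubgroup |
      (mt (T.rho ℓ') g).trace ^ 2 = c * (mt (T.rho ℓ') g).det}) := by
    refine IsClosed.union hV.isClosed_compl (isClosed_eq ?_ ?_)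
    · exact hcont.matrix_trace.pow 2
    · exact continuous_const.mul hcont.matrix_det
  intro g hg
  have h1 := closed_univ' _ hC (S ∪ {ℓ, ℓ'}) ?_ g
  · rcases h1 with h1 | h1
    · exact absurd hg h1
    · exact h1
  intro p hp hpS P hP hpP σ hσ
  have hpS' : p ∉ S := fun h => hpS (Finset.mem_union_left _ h)
  have h2 : ℓ ≠ p := by
    rintro rfl
    exact hpS (Finset.mem_union_right _ (Finset.mem_insert_self _ _))
  have h3 : ℓ' ≠ p := by
    rintro rfl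
    exact hpS (Finset.mem_union_right _ (Finset.mem_insert_of_mem (Finset.mem_singleton_self _)))
  by_cases hσV : σ ∈ V
  · right
    obtain ⟨h4, h5⟩ := frob_tr_det hT hp hpS' h2 hP hpP hσ
    obtain ⟨h6, h7⟩ := frob_tr_det hT hp hpS' h3 hP hpP hσ
    have h8 := h σ hσV
    rw [h4, h5] at h8
    show (mt (T.rho ℓ') σ).trace ^ 2 = c * (mt (T.rho ℓ') σ).det
    rw [h6, h7]
    have h9 : (-(T.poly (P.under (𝓞 F))).coeff 1) ^ 2 = c * (T.poly (P.under (𝓞 F))).coeff 0 := by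
      exact_mod_cast h8
    exact_mod_cast h9
  · left
    exact hσV

omit hF in
/-- an open subgroup has a power of every element -/
theorem exists_pow_mem (U : Subgroup F.fixingSubgroup) (hU : IsOpen (U : Set F.fixingSubgroup))
    (g : F.fixingSubgroup) : ∃ m : ℕ, g ^ (m + 1) ∈ U := by
  have hfin : U.FiniteIndex := by
    have : Finite (F.fixingSubgroup ⧸ U) := Subgroup.quotient_finite_of_isOpen U hU
    exact Subgroup.finiteIndex_of_finite_quotient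
  obtain ⟨m, hm, _, h⟩ := Subgroup.exists_pow_mem_of_index_ne_zero hfin.index_ne_zero g
  exact ⟨m - 1, by rwa [Nat.sub_add_cancel hm]⟩

/-- the first case -/
theorem sc_transfer {S : Finset ℕ} {w : ℕ} {T : IntegralSystem F 2} (hT : T.GoodSystem S w)
    (ℓ₁ ℓ : ℕ) [Fact ℓ₁.Prime] [Fact ℓ.Prime] (U : Subgroup F.fixingSubgroup)
    (hU : IsOpen (U : Set F.fixingSubgroup)) (h1 : ∀ g ∈ U, IsSc (mt (T.rho ℓ₁) g))
    (h2 : ∃ U' : Subgroup F.fixingSubgroup, IsOpen (U' : Set F.fixingSubgroup) ∧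
      ∀ g ∈ U', IsSc (mt (T.rho ℓ) g)) : ∀ g ∈ U, IsSc (mt (T.rho ℓ) g) := by
  intro g hg
  have h3 := transfer hT ℓ₁ ℓ (U : Set F.fixingSubgroup) hU 4
    (fun g hg => by
      have := sc_disc (h1 g hg)
      rw [this]
      push_cast
      ring) g hg
  obtain ⟨U', hU', h4⟩ := h2
  obtain ⟨m, hm⟩ := exists_pow_mem U' hU' g
  refine sc_of_pow _ (mt_det_ne _ _) ?_ m ?_
  · rw [h3]
    push_cast
    ring
  · rw [← mt_pow]
    exact h4 _ hm

theorem isOpen_inf {G : Type*} [Group G] [TopologicalSpace G] {U V : Subgroup G}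
    (hU : IsOpen (U : Set G)) (hV : IsOpen (V : Set G)) : IsOpen ((U ⊓ V : Subgroup G) : Set G) := by
  rw [Subgroup.coe_inf]
  exact hU.inter hV

/-- if the first case does not hold for `ℓ₁` then it does not hold for `ℓ` -/
theorem not_sc {S : Finset ℕ} {w : ℕ} {T : IntegralSystem F 2} (hT : T.GoodSystem S w)
    (ℓ₁ ℓ : ℕ) [Fact ℓ₁.Prime] [Fact ℓ.Prime]
    (h1 : ¬ ∃ U' : Subgroup F.fixingSubgroup, IsOpen (U' : Set F.fixingSubgroup) ∧
      ∀ g ∈ U', IsSc (mt (T.rho ℓ₁) g))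
    (U₁ : Subgroup F.fixingSubgroup) (Y₁ : Mat ℚ_[ℓ₁]) (hU₁ : IsOpen (U₁ : Set F.fixingSubgroup))
    (hY₁ : Y₁.trace = 0) (hY₁' : Y₁.det ≠ 0)
    (h2 : ∀ g ∈ U₁, ∃ a b : ℚ_[ℓ₁], mt (T.rho ℓ₁) g = a • 1 + b • Y₁) :
    ¬ ∃ U' : Subgroup F.fixingSubgroup, IsOpen (U' : Set F.fixingSubgroup) ∧
      ∀ g ∈ U', IsSc (mt (T.rho ℓ) g) := by
  rintro ⟨U, hU, h3⟩
  apply h1
  refine ⟨U ⊓ U₁, isOpen_inf hU hU₁, ?_⟩
  intro g hg
  have h4 := transfer hT ℓ ℓ₁ (U : Set F.fixingSubgroup) hU 4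
    (fun g hg => by
      have := sc_disc (h3 g hg)
      rw [this]
      push_cast
      ring) g (Subgroup.mem_inf.1 hg).1
  obtain ⟨a, b, hab⟩ := h2 g (Subgroup.mem_inf.1 hg).2
  rw [hab, trace_lin a b Y₁ hY₁, det_lin a b Y₁ hY₁] at h4
  push_cast at h4
  have h5 : (4 : ℚ_[ℓ₁]) * Y₁.det * (b * b) = 0 := by
    linear_combination (-1 : ℚ_[ℓ₁]) * h4
  have h6 : (4 : ℚ_[ℓ₁]) * Y₁.det ≠ 0 := mul_ne_zero (by norm_num) hY₁'
  have h7 : b = 0 := by
    rcases mul_eq_zero.1 h5 with h | h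
    · exact absurd h h6
    · exact mul_self_eq_zero.1 h
  refine ⟨a, ?_⟩
  rw [hab, h7, zero_smul, add_zero]

/-- the second case -/
theorem le_of_nsc {S : Finset ℕ} {w : ℕ} {T : IntegralSystem F 2} (hT : T.GoodSystem S w)
    (ℓ₁ ℓ : ℕ) [Fact ℓ₁.Prime] [Fact ℓ.Prime]
    (h1 : ¬ ∃ U' : Subgroup F.fixingSubgroup, IsOpen (U' : Set F.fixingSubgroup) ∧
      ∀ g ∈ U', IsSc (mt (T.rho ℓ₁) g))
    (U₁ : Subgroup F.fixingSubgroup) (Y₁ : Mat ℚ_[ℓ₁]) (hU₁ : IsOpen (U₁ : Set F.fixingSubgroup))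
    (hY₁ : Y₁.trace = 0) (hY₁' : Y₁.det ≠ 0)
    (h2 : ∀ g ∈ U₁, ∃ a b : ℚ_[ℓ₁], mt (T.rho ℓ₁) g = a • 1 + b • Y₁)
    (U₂ : Subgroup F.fixingSubgroup) (hU₂ : IsOpen (U₂ : Set F.fixingSubgroup))
    (h3 : ∀ g ∉ U₂, (mt (T.rho ℓ) g).trace = 0) : U₁ ≤ U₂ := by
  intro g₀ hg₁
  by_contra hg₂
  have hV : IsOpen ((U₁ : Set F.fixingSubgroup) ∩ (U₂ : Set F.fixingSubgroup)ᶜ) :=
    hU₁.inter (Subgroup.isClosed_of_isOpen _ hU₂).isOpen_compl
  have h4 := transfer hT ℓ ℓ₁ _ hV 0 (fun g hg => by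
    rw [h3 g hg.2]
    push_cast
    ring)
  -- the form of the elements of the difference
  have h5 : ∀ g, g ∈ U₁ → g ∉ U₂ → ∃ b : ℚ_[ℓ₁], mt (T.rho ℓ₁) g = b • Y₁ := by
    intro g hg hg'
    obtain ⟨a, b, hab⟩ := h2 g hg
    have h6 := h4 g ⟨hg, hg'⟩
    rw [hab, trace_lin a b Y₁ hY₁] at h6
    push_cast at h6
    have h7 : a = 0 := by
      have h8 : (4 : ℚ_[ℓ₁]) * (a * a) = 0 := by linear_combination h6
      rcases mul_eq_zero.1 h8 with h | h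
      · exact absurd h (by norm_num)
      · exact mul_self_eq_zero.1 h
    refine ⟨b, ?_⟩
    rw [hab, h7, zero_smul, zero_add]
  obtain ⟨b, hb⟩ := h5 g₀ hg₁ hg₂
  have hb0 : b ≠ 0 := by
    rintro rfl
    apply mt_det_ne (T.rho ℓ₁) g₀
    rw [hb, zero_smul, Matrix.det_zero]
  apply h1
  refine ⟨U₁ ⊓ U₂, isOpen_inf hU₁ hU₂, ?_⟩
  intro v hv
  obtain ⟨hv1, hv2⟩ := Subgroup.mem_inf.1 hv
  obtain ⟨c, hc⟩ := h5 (g₀ * v) (U₁.mul_mem hg₁ hv1) (fun h => hg₂ (by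
    have := U₂.mul_mem h (U₂.inv_mem hv2)
    rwa [mul_inv_cancel_right] at this))
  rw [mt_mul, hb, smul_mul_assoc] at hc
  have hu : IsUnit Y₁.det := isUnit_iff_ne_zero.2 hY₁'
  have h6 : b • mt (T.rho ℓ₁) v = c • (1 : Mat ℚ_[ℓ₁]) := by
    have h7 := congrArg (fun M => Y₁⁻¹ * M) hc
    simp only [mul_smul_comm] at h7
    rw [← mul_assoc, Matrix.nonsing_inv_mul _ hu, one_mul] at h7
    exact h7
  refine ⟨b⁻¹ * c, ?_⟩
  rw [mul_smul, ← h6, smul_smul, inv_mul_cancel₀ hb0, one_smul]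

end tra

end B2

open B2 in
theorem b2 : S_B2 := by
  intro F hF S w T hT Λ hss hcase
  refine ⟨hss, ?_⟩
  by_cases hex : ∃ (ℓ₁ : ℕ) (_ : Fact ℓ₁.Prime), ℓ₁ ∈ Λ ∧
      ¬ ∃ U : Subgroup F.fixingSubgroup, IsOpen (U : Set F.fixingSubgroup) ∧
        ∀ g ∈ U, IsSc (mt (T.rho ℓ₁) g)
  · obtain ⟨ℓ₁, hℓ₁, hmem, hns⟩ := hex
    rcases hcase ℓ₁ hmem with h | ⟨U₁, Y₁, hU₁, hY₁, hY₁', h2, _⟩
    · exact absurd h hns
    refine ⟨U₁, hU₁, ?_⟩
    intro ℓ hℓ hℓΛ g hg h hh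
    have hns' := not_sc hT ℓ₁ ℓ hns U₁ Y₁ hU₁ hY₁ hY₁' h2
    rcases hcase ℓ hℓΛ with h3 | ⟨U₂, Y₂, hU₂, hY₂, hY₂', h4, h5⟩
    · exact absurd h3 hns'
    have hle := le_of_nsc hT ℓ₁ ℓ hns U₁ Y₁ hU₁ hY₁ hY₁' h2 U₂ hU₂ h5
    exact comm_of_mt _ _ _ (comm_lin (h4 g (hle hg)) (h4 h (hle hh)))
  · have hall : ∀ (ℓ : ℕ) [Fact ℓ.Prime], ℓ ∈ Λ → ∃ U : Subgroup F.fixingSubgroup,
        IsOpen (U : Set F.fixingSubgroup) ∧ ∀ g ∈ U, IsSc (mt (T.rho ℓ) g) := by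
      intro ℓ hℓ hℓΛ
      by_contra hn
      exact hex ⟨ℓ, hℓ, hℓΛ, hn⟩
    by_cases hne : ∃ (ℓ₁ : ℕ) (_ : Fact ℓ₁.Prime), ℓ₁ ∈ Λ
    · obtain ⟨ℓ₁, hℓ₁, hmem⟩ := hne
      obtain ⟨U, hU, h1⟩ := hall ℓ₁ hmem
      refine ⟨U, hU, ?_⟩
      intro ℓ hℓ hℓΛ g hg h hh
      have h2 := sc_transfer hT ℓ₁ ℓ U hU h1 (hall ℓ hℓΛ)
      exact comm_of_mt _ _ _ (comm_sc (h2 g hg) (h2 h hh))
    · refine ⟨⊤, isOpen_univ, ?_⟩
      intro ℓ hℓ hℓΛ
      exact absurd ⟨ℓ, hℓ, hℓΛ⟩ hne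

end Pool.Agent.H858.RU
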