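import Pool.Agent.H858.RU.Spec

/-!
# Powers in a coset (helper323)
-/

set_option autoImplicit false

namespace Pool.Agent.H858.RU

open Module Matrix

namespace BETA1

variable {p : ℕ} [Fact p.Prime] {G : Type} [Group G]

theorem mt_mul (ρ : G →* GL (Fin 2) ℤ_[p]) (g h : G) : mt ρ (g * h) = mt ρ g * mt ρ h := by
  unfold mt
  rw [map_mul, Units.val_mul, Matrix.map_mul]

theorem mt_one (ρ : G →* GL (Fin 2) ℤ_[p]) : mt ρ 1 = 1 := by
  unfold mt
  rw [map_one, Units.val_one, Matrix.map_one _ (map_zero _) (map_one _)]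

theorem mt_inv (ρ : G →* GL (Fin 2) ℤ_[p]) (g : G) : mt ρ g⁻¹ * mt ρ g = 1 := by
  rw [← mt_mul, inv_mul_cancel, mt_one]

theorem mt_det_ne (ρ : G →* GL (Fin 2) ℤ_[p]) (g : G) : (mt ρ g).det ≠ 0 := by
  intro h
  have h1 : (mt ρ g⁻¹ * mt ρ g).det = 1 := by
    rw [mt_inv, Matrix.det_one]
  rw [Matrix.det_mul, h, mul_zero] at h1
  exact zero_ne_one h1

theorem two_le : ‖(2 : ℚ_[p])‖ ≤ 1 := by
  have h := Padic.norm_int_le_one (p := p) 2
  exact_mod_cast h

theorem two_pos : 0 < ‖(2 : ℚ_[p])‖ := norm_pos_iff.2 two_ne_zero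

theorem near_mul {a b : ℚ_[p]} (ha : ‖a - 1‖ < ‖(2 : ℚ_[p])‖) (hb : ‖b - 1‖ < ‖(2 : ℚ_[p])‖) :
    ‖a * b - 1‖ < ‖(2 : ℚ_[p])‖ := by
  have hb1 : ‖b‖ ≤ 1 := by
    have e : b = (b - 1) + 1 := by ring
    rw [e]
    refine (Padic.nonarchimedean _ _).trans (max_le (hb.le.trans two_le) ?_)
    rw [norm_one]
  have e : a * b - 1 = (a - 1) * b + (b - 1) := by ring
  rw [e]
  refine lt_of_le_of_lt (Padic.nonarchimedean _ _) (max_lt ?_ hb)
  rw [norm_mul]
  exact lt_of_le_of_lt (mul_le_of_le_one_right (norm_nonneg _) hb1) ha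

theorem near_ne {a : ℚ_[p]} (ha : ‖a - 1‖ < ‖(2 : ℚ_[p])‖) : a ≠ 0 := by
  intro h
  rw [h, zero_sub, norm_neg, norm_one] at ha
  exact absurd (ha.trans_le two_le) (lt_irrefl _)

theorem near_sq {a : ℚ_[p]} (ha : ‖a - 1‖ < ‖(2 : ℚ_[p])‖) (h : a ^ 2 = 1) : a = 1 := by
  rw [← one_pow 2] at h
  rcases sq_eq_sq_iff_eq_or_eq_neg.1 h with h1 | h1
  · exact h1
  · exfalso
    rw [h1] at ha
    have e : (-1 : ℚ_[p]) - 1 = -2 := by ring
    rw [e, norm_neg] at ha
    exact lt_irrefl _ ha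

/-- a matrix which commutes with all matrices is a scalar -/
theorem scalar_of_comm (C : Mat ℚ_[p]) (h : ∀ A : Mat ℚ_[p], A * C = C * A) :
    ∃ z : ℚ_[p], C = z • (1 : Mat ℚ_[p]) := by
  have h1 := h (Matrix.single 0 1 1)
  have h2 := h (Matrix.single 1 0 1)
  refine ⟨C 0 0, ?_⟩
  have e1 := congrFun (congrFun h1 0) 0
  have e2 := congrFun (congrFun h1 0) 1
  have e3 := congrFun (congrFun h2 0) 0
  simp [Matrix.mul_apply, Matrix.single_apply] at e1 e2 e3
  ext i j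
  fin_cases i <;> fin_cases j
  · simp
  · simpa using e3.symm
  · simpa using e1
  · simpa using e2

end BETA1

open BETA1 in
theorem beta1 : S_BETA1 := by
  intro p _ Γ _ _ _ N hN e he0 he ρ hρ hS x U ν B B' hU hBB hint htr
  have hBB' : B' * B = 1 := _root_.mul_eq_one_comm.1 hBB
  obtain ⟨c, hc⟩ : ∃ c : MulAut N, c = MulAut.conjNormal x⁻¹ := ⟨_, rfl⟩
  have hcv : ∀ n : N, ((c n : N) : Γ) = x⁻¹ * n * x := by
    intro n
    rw [hc, MulAut.conjNormal_apply, inv_inv]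
  rw [← hc] at hint
  have hcv' : ∀ (i : ℕ) (n : N), (((c ^ i) n : N) : Γ) = (x ^ i)⁻¹ * n * x ^ i := by
    intro i
    induction i with
    | zero => intro n; simp
    | succ i ih =>
      intro n
      rw [pow_succ, MulAut.mul_apply, ih, hcv, pow_succ]
      group
  have hccont : ∀ i : ℕ, Continuous (fun n : N => (c ^ i) n) := by
    intro i
    rw [continuous_induced_rng]
    have e : (Subtype.val ∘ fun n : N => (c ^ i) n) = fun n : N => (x ^ i)⁻¹ * (n : Γ) * x ^ i := by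
      funext n
      exact hcv' i n
    rw [e]
    fun_prop
  obtain ⟨U', hU'⟩ : ∃ U' : Subgroup N, U' = ⨅ i : Fin (e + 1), U.comap (c ^ (i : ℕ)).toMonoidHom :=
    ⟨_, rfl⟩
  have hmem : ∀ n ∈ U', ∀ i ≤ e, (c ^ i) n ∈ U := by
    intro n hn i hi
    rw [hU', Subgroup.mem_iInf] at hn
    exact hn ⟨i, by omega⟩
  have hopen : IsOpen (U' : Set N) := by
    rw [hU', Subgroup.coe_iInf]
    refine isOpen_iInter_of_finite fun i => ?_
    exact hU.preimage (hccont i)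
  refine ⟨U', hopen, ?_⟩
  -- conjugation by powers of `x`
  have hconj : ∀ n ∈ U', ∀ i ≤ e, ∃ μ : ℚ_[p], ‖μ - 1‖ < ‖(2 : ℚ_[p])‖ ∧
      mt ρ ((c ^ i) n) = μ • (B' ^ i * mt ρ n * B ^ i) := by
    intro n hn i
    induction i with
    | zero =>
      intro _
      refine ⟨1, by rw [sub_self, norm_zero]; exact two_pos, ?_⟩
      simp
    | succ i ih =>
      intro hi
      obtain ⟨μ, hμ, hμ'⟩ := ih (by omega)
      have h1 := hint ((c ^ i) n) (hmem n hn i (by omega))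
      refine ⟨ν ((c ^ i) n) * μ, near_mul h1.1 hμ, ?_⟩
      have e1 : (c ^ (i + 1)) n = c ((c ^ i) n) := by
        rw [pow_succ', MulAut.mul_apply]
      rw [e1, h1.2, hμ', pow_succ' B' i, pow_succ B i]
      simp only [mul_smul_comm, smul_mul_assoc, smul_smul, mul_assoc]
  -- `A₀ = z B ^ e`
  obtain ⟨a, ha⟩ : ∃ a : N, a = ⟨x ^ e, he x⟩ := ⟨_, rfl⟩
  have hca : ∀ n : N, (c ^ e) n = a⁻¹ * n * a := by
    intro n
    apply Subtype.ext
    rw [hcv', ha]
    rfl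
  have hBe : B ^ e * B' ^ e = 1 := by
    have hcomm : Commute B B' := by
      show B * B' = B' * B
      rw [hBB, hBB']
    rw [← hcomm.mul_pow, hBB, one_pow]
  have hBe' : B' ^ e * B ^ e = 1 := _root_.mul_eq_one_comm.1 hBe
  have hcomm : ∀ n ∈ U', mt ρ n * (B ^ e * mt ρ a⁻¹) = (B ^ e * mt ρ a⁻¹) * mt ρ n := by
    intro n hn
    obtain ⟨μ, hμ, hμ'⟩ := hconj n hn e le_rfl
    rw [hca, mt_mul, mt_mul] at hμ'
    have hd := congrArg Matrix.det hμ'
    rw [Matrix.det_mul, Matrix.det_mul, Matrix.det_smul, Matrix.det_mul, Matrix.det_mul,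
      Fintype.card_fin] at hd
    have hd1 : (mt ρ a⁻¹).det * (mt ρ a).det = 1 := by
      rw [← Matrix.det_mul, mt_inv, Matrix.det_one]
    have hd2 : (B' ^ e).det * (B ^ e).det = 1 := by
      rw [← Matrix.det_mul, hBe', Matrix.det_one]
    have hsq : μ ^ 2 = 1 := by
      have h1 : (mt ρ n).det * (μ ^ 2 - 1) = 0 := by
        linear_combination (mt ρ n).det * hd1 - hd - μ ^ 2 * (mt ρ n).det * hd2
      rcases mul_eq_zero.1 h1 with h2 | h2
      · exact absurd h2 (mt_det_ne ρ n)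
      · exact sub_eq_zero.1 h2
    rw [near_sq hμ hsq, one_smul] at hμ'
    have haa : mt ρ a * mt ρ a⁻¹ = 1 := by rw [← mt_mul, mul_inv_cancel, mt_one]
    calc mt ρ n * (B ^ e * mt ρ a⁻¹)
        = (B ^ e * B' ^ e) * (mt ρ n * (B ^ e * mt ρ a⁻¹)) := by rw [hBe, one_mul]
      _ = B ^ e * (B' ^ e * mt ρ n * B ^ e) * mt ρ a⁻¹ := by simp only [mul_assoc]
      _ = B ^ e * (mt ρ a⁻¹ * mt ρ n * mt ρ a) * mt ρ a⁻¹ := by rw [hμ']
      _ = (B ^ e * mt ρ a⁻¹) * mt ρ n * (mt ρ a * mt ρ a⁻¹) := by simp only [mul_assoc]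
      _ = _ := by rw [haa, mul_one]
  have hcomm' : ∀ A : Mat ℚ_[p], A * (B ^ e * mt ρ a⁻¹) = (B ^ e * mt ρ a⁻¹) * A := by
    intro A
    have hA : A ∈ Submodule.span ℚ_[p] {A : Mat ℚ_[p] | ∃ g ∈ U', A = mt ρ g} := by
      rw [hS U' hopen]; trivial
    induction hA using Submodule.span_induction with
    | mem A hA =>
      obtain ⟨g, hg, rfl⟩ := hA
      exact hcomm g hg
    | zero => rw [zero_mul, mul_zero]
    | add A A' _ _ h1 h2 => rw [add_mul, mul_add, h1, h2]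
    | smul r A _ h1 => rw [smul_mul_assoc, mul_smul_comm, h1]
  obtain ⟨z, hz⟩ := scalar_of_comm _ hcomm'
  have hz1 : B ^ e = z • mt ρ a := by
    calc B ^ e = (B ^ e * mt ρ a⁻¹) * mt ρ a := by rw [mul_assoc, mt_inv, mul_one]
      _ = _ := by rw [hz, smul_mul_assoc, one_mul]
  have hz0 : z ≠ 0 := by
    intro h
    rw [h, zero_smul] at hz1
    rw [hz1, zero_mul] at hBe
    exact zero_ne_one hBe
  have hA0 : mt ρ a = z⁻¹ • B ^ e := by
    rw [hz1, smul_smul, inv_mul_cancel₀ hz0, one_smul]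
  -- the products `P k`
  intro n hn
  obtain ⟨P, hP0, hP1⟩ : ∃ P : ℕ → N, P 0 = 1 ∧ ∀ k, P (k + 1) = c (P k) * n :=
    ⟨fun k => Nat.rec 1 (fun _ P => c P * n) k, rfl, fun k => rfl⟩
  have hPU : ∀ k j : ℕ, j + k ≤ e → (c ^ j) (P k) ∈ U := by
    intro k
    induction k with
    | zero =>
      intro j _
      rw [hP0, map_one]
      exact U.one_mem
    | succ k ih =>
      intro j hj
      rw [hP1, map_mul]
      refine U.mul_mem ?_ (hmem n hn j (by omega))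
      have e1 : (c ^ j) (c (P k)) = (c ^ (j + 1)) (P k) := by
        rw [pow_succ, MulAut.mul_apply]
      rw [e1]
      exact ih (j + 1) (by omega)
  have hPx : ∀ k : ℕ, x ^ k * ((P k : N) : Γ) = (x * n) ^ k := by
    intro k
    induction k with
    | zero => rw [hP0]; simp
    | succ k ih =>
      rw [hP1, Subgroup.coe_mul, hcv, pow_succ (x * (n : Γ)), ← ih, pow_succ]
      group
  have hPm : ∀ k ≤ e, ∃ l : ℚ_[p], l ≠ 0 ∧ mt ρ (P k) = l • (B' ^ k * (B * mt ρ n) ^ k) := by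
    intro k
    induction k with
    | zero =>
      intro _
      refine ⟨1, one_ne_zero, ?_⟩
      rw [hP0, mt_one]
      simp
    | succ k ih =>
      intro hk
      obtain ⟨l, hl, hl'⟩ := ih (by omega)
      have h1 := hint (P k) (by
        have := hPU k 0 (by omega)
        simpa using this)
      refine ⟨ν (P k) * l, mul_ne_zero (near_ne h1.1) hl, ?_⟩
      rw [hP1, mt_mul, h1.2, hl', pow_succ' B' k, pow_succ (B * mt ρ n) k]
      simp only [mul_smul_comm, smul_mul_assoc, smul_smul, mul_assoc]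
  obtain ⟨l, hl, hl'⟩ := hPm e le_rfl
  have hfin : mt ρ ⟨(x * n) ^ e, he _⟩ = (l * z⁻¹) • (B * mt ρ n) ^ e := by
    have e1 : (⟨(x * n) ^ e, he _⟩ : N) = a * P e := by
      apply Subtype.ext
      rw [Subgroup.coe_mul, ha]
      exact (hPx e).symm
    rw [e1, mt_mul, hA0, hl', smul_mul_smul_comm, ← mul_assoc, hBe, one_mul, mul_comm z⁻¹ l]
  have hk0 : l * z⁻¹ ≠ 0 := mul_ne_zero hl (inv_ne_zero hz0)
  have h1 := htr n
  rw [hfin, Matrix.trace_smul, Matrix.det_smul, Fintype.card_fin, smul_eq_mul] at h1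
  have h2 : (l * z⁻¹) ^ 3 * (((B * mt ρ n) ^ e).trace *
    (((B * mt ρ n) ^ e).trace ^ 2 - 4 * ((B * mt ρ n) ^ e).det)) = 0 := by
    rw [← h1]; ring
  rcases mul_eq_zero.1 h2 with h3 | h3
  · exact absurd h3 (pow_ne_zero 3 hk0)
  · exact h3

end Pool.Agent.H858.RU
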