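import Pool.Agent.H858.RU.Spec

/-! # Contradiction on a coset -/

set_option autoImplicit false

open Filter Topology

namespace Pool.Agent.H858.RU

namespace BETA2

section alg

variable {K : Type} [Field K]

lemma ch (A : Mat K) : A * A = A.trace • A - A.det • (1 : Mat K) := by
  ext i j
  fin_cases i <;> fin_cases j <;>
    simp [Matrix.mul_apply, Fin.sum_univ_two, Matrix.trace_fin_two, Matrix.det_fin_two] <;> ring

lemma tr_pow (A : Mat K) (a b : K) (h1 : A.trace = a + b) (h2 : A.det = a * b) (k : ℕ) :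
    (A ^ k).trace = a ^ k + b ^ k := by
  have key : ∀ k : ℕ, (A ^ k).trace = a ^ k + b ^ k ∧ (A ^ (k + 1)).trace = a ^ (k + 1) + b ^ (k + 1) := by
    intro k
    induction k with
    | zero =>
      constructor
      · simp; norm_num
      · simp [h1]
    | succ k ih =>
      refine ⟨ih.2, ?_⟩
      have h3 : A ^ (k + 1 + 1) = A.trace • A ^ (k + 1) - A.det • A ^ k := by
        rw [pow_succ, pow_succ, mul_assoc, ch A, mul_sub, mul_smul_comm, mul_smul_comm, mul_one]
      rw [h3, Matrix.trace_sub, Matrix.trace_smul, Matrix.trace_smul, ih.1, ih.2, h1, h2,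
        smul_eq_mul, smul_eq_mul]
      ring
  exact (key k).1

lemma ratio_eq (a b : K) (ha : a ≠ 0) (hb : b ≠ 0) :
    a / b + (a / b)⁻¹ + 2 = (a + b) ^ 2 / (a * b) := by
  field_simp
  ring

lemma fin_ratio [CharZero K] (e : ℕ) (he : e ≠ 0) :
    {x : K | ∃ A : Mat K, A.det ≠ 0 ∧
      (A ^ e).trace * ((A ^ e).trace ^ 2 - 4 * (A ^ e).det) = 0 ∧
      x = A.trace ^ 2 / A.det}.Finite := by
  classical
  let L := AlgebraicClosure K
  have hfin : {z : L | z ^ (2 * e) = 1}.Finite := by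
    have h1 : (Polynomial.X ^ (2 * e) - 1 : Polynomial L) ≠ 0 :=
      Polynomial.X_pow_sub_C_ne_zero (by omega) 1
    refine (Polynomial.X ^ (2 * e) - 1 : Polynomial L).roots.toFinset.finite_toSet.subset ?_
    intro z hz
    have hz' : z ^ (2 * e) = 1 := hz
    simp only [Finset.mem_coe, Multiset.mem_toFinset, Polynomial.mem_roots h1, Polynomial.IsRoot.def]
    simp [hz']
  have hinj : Function.Injective (algebraMap K L) := (algebraMap K L).injective
  refine Set.Finite.of_finite_image ((hfin.image fun z => z + z⁻¹ + 2).subset ?_)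
    (f := algebraMap K L) hinj.injOn
  rintro _ ⟨x, ⟨A, hd, h0, rfl⟩, rfl⟩
  obtain ⟨δ, hδ⟩ := IsAlgClosed.exists_pow_nat_eq
    ((algebraMap K L A.trace) ^ 2 - 4 * algebraMap K L A.det) (n := 2) (by norm_num)
  set t := algebraMap K L A.trace with ht
  set d := algebraMap K L A.det with hdd
  have hd0 : d ≠ 0 := by
    rw [hdd]
    exact (map_ne_zero _).mpr hd
  set a := (t + δ) / 2 with ha
  set b := (t - δ) / 2 with hb
  have hab : a + b = t := by rw [ha, hb]; ring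
  have hab2 : a * b = d := by
    have h4 : a * b = (t ^ 2 - δ ^ 2) / 4 := by rw [ha, hb]; ring
    rw [h4, hδ]; ring
  have hmt : (A.map (algebraMap K L)).trace = a + b := by
    rw [hab, ht, Matrix.trace_fin_two, Matrix.trace_fin_two]
    simp
  have hmd : (A.map (algebraMap K L)).det = a * b := by
    rw [hab2, hdd, Matrix.det_fin_two, Matrix.det_fin_two]
    simp
  have hpow : ∀ k : ℕ, (A ^ k).map (algebraMap K L) = (A.map (algebraMap K L)) ^ k := fun k => by
    have := map_pow (RingHom.mapMatrix (algebraMap K L) (m := Fin 2)) A k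
    exact this
  have h5 : algebraMap K L (A ^ e).trace = a ^ e + b ^ e := by
    rw [← tr_pow _ a b hmt hmd e, ← hpow, Matrix.trace_fin_two, Matrix.trace_fin_two]
    simp
  have h6 : algebraMap K L (A ^ e).det = (a * b) ^ e := by
    rw [Matrix.det_pow, map_pow, ← hdd, hab2]
  have h7 := congrArg (algebraMap K L) h0
  rw [map_mul, map_sub, map_pow, map_mul, h5, h6, map_zero] at h7
  have h8 : (algebraMap K L) 4 = 4 := map_ofNat _ 4
  rw [h8] at h7
  have h9 : (a ^ e + b ^ e) * (a ^ e - b ^ e) = 0 := by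
    have h10 : (a ^ e + b ^ e) * (a ^ e - b ^ e) ^ 2 = 0 := by
      rw [← h7, mul_pow]; ring
    rcases mul_eq_zero.mp h10 with h | h
    · rw [h, zero_mul]
    · rw [pow_eq_zero_iff two_ne_zero] at h
      rw [h, mul_zero]
  have hb0 : b ≠ 0 := fun h => hd0 (by rw [← hab2, h, mul_zero])
  have ha0 : a ≠ 0 := fun h => hd0 (by rw [← hab2, h, zero_mul])
  refine ⟨a / b, ?_, ?_⟩
  · show (a / b) ^ (2 * e) = 1
    rw [div_pow, div_eq_one_iff_eq (pow_ne_zero _ hb0), mul_comm 2 e, pow_mul, pow_mul]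
    linear_combination h9
  · show a / b + (a / b)⁻¹ + 2 = algebraMap K L (A.trace ^ 2 / A.det)
    rw [map_div₀, map_pow, ← ht, ← hdd, ← hab, ← hab2]
    exact ratio_eq a b ha0 hb0

lemma nondeg (C : Mat K) (h : ∀ X : Mat K, (X * C).trace = 0) : C = 0 := by
  ext i j
  have h1 := h (Matrix.single j i 1)
  rw [Matrix.trace_fin_two, Matrix.mul_apply, Matrix.mul_apply, Fin.sum_univ_two,
    Fin.sum_univ_two] at h1
  fin_cases i <;> fin_cases j <;> simpa [Matrix.single] using h1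

lemma nondeg_span (S : Set (Mat K)) (hS : Submodule.span K S = ⊤) (C : Mat K)
    (h : ∀ X ∈ S, (X * C).trace = 0) : C = 0 := by
  apply nondeg
  intro X
  have hX : X ∈ Submodule.span K S := by rw [hS]; trivial
  induction hX using Submodule.span_induction with
  | mem x hx => exact h x hx
  | zero => simp
  | add x y _ _ hx hy => rw [add_mul, Matrix.trace_add, hx, hy, add_zero]
  | smul a x _ hx => rw [smul_mul_assoc, Matrix.trace_smul, hx, smul_zero]

end alg

section top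

variable {p : ℕ} [Fact p.Prime] {G : Type} [Group G]

lemma mt_mul (ρ : G →* GL (Fin 2) ℤ_[p]) (g h : G) : mt ρ (g * h) = mt ρ g * mt ρ h := by
  unfold mt
  rw [map_mul, Units.val_mul, Matrix.map_mul]

lemma mt_one (ρ : G →* GL (Fin 2) ℤ_[p]) : mt ρ 1 = 1 := by
  unfold mt
  rw [map_one, Units.val_one, Matrix.map_one _ (map_zero _) (map_one _)]

lemma mt_det (ρ : G →* GL (Fin 2) ℤ_[p]) (g : G) : (mt ρ g).det ≠ 0 := by
  have h1 : (mt ρ g).det * (mt ρ g⁻¹).det = 1 := by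
    rw [← Matrix.det_mul, ← mt_mul, mul_inv_cancel, mt_one, Matrix.det_one]
  exact left_ne_zero_of_mul_eq_one h1

/-- small open subgroups -/
lemma small [TopologicalSpace G] [IsTopologicalGroup G] (ρ : G →* GL (Fin 2) ℤ_[p])
    (hρ : Continuous fun g => (ρ g : Matrix (Fin 2) (Fin 2) ℤ_[p])) (U' : Subgroup G)
    (hU : IsOpen (U' : Set G)) (W : Set (Mat ℚ_[p])) (hW : W ∈ 𝓝 (1 : Mat ℚ_[p])) :
    ∃ V : Subgroup G, IsOpen (V : Set G) ∧ V ≤ U' ∧ ∀ n ∈ V, mt ρ n ∈ W := by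
  have hW' : W ∈ @nhds (Fin 2 → Fin 2 → ℚ_[p]) Pi.topologicalSpace
    (fun i j => (1 : Mat ℚ_[p]) i j) := hW
  obtain ⟨ε, hε, hball⟩ := Metric.mem_nhds_iff.mp hW'
  have hp1 : (1 : ℝ) < p := by exact_mod_cast (Fact.out : p.Prime).one_lt
  obtain ⟨k, hk⟩ := exists_pow_lt_of_lt_one hε (inv_lt_one_of_one_lt₀ hp1)
  let I : Ideal ℤ_[p] := Ideal.span {(p : ℤ_[p]) ^ k}
  have hI : ∀ x : ℤ_[p], x ∈ I ↔ ‖x‖ ≤ (p : ℝ) ^ (-k : ℤ) := fun x =>
    (PadicInt.norm_le_pow_iff_mem_span_pow x k).symm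
  let φ : G →* GL (Fin 2) (ℤ_[p] ⧸ I) :=
    (Matrix.GeneralLinearGroup.map (Ideal.Quotient.mk I)).comp ρ
  have hker : ∀ n, n ∈ φ.ker ↔ ∀ i j, (ρ n : Matrix (Fin 2) (Fin 2) ℤ_[p]) i j -
      (1 : Matrix (Fin 2) (Fin 2) ℤ_[p]) i j ∈ I := by
    intro n
    rw [MonoidHom.mem_ker]
    constructor
    · intro h i j
      have h1 : (φ n : Matrix (Fin 2) (Fin 2) (ℤ_[p] ⧸ I)) i j =
        (1 : Matrix (Fin 2) (Fin 2) (ℤ_[p] ⧸ I)) i j := by rw [h]; rfl
      have h2 : (φ n : Matrix (Fin 2) (Fin 2) (ℤ_[p] ⧸ I)) i j =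
        Ideal.Quotient.mk I ((ρ n : Matrix (Fin 2) (Fin 2) ℤ_[p]) i j) := rfl
      rw [← Ideal.Quotient.eq, ← h2, h1]
      by_cases hij : i = j
      · subst hij; simp
      · simp [Matrix.one_apply_ne hij]
    · intro h
      apply Units.ext
      ext i j
      have h2 : (φ n : Matrix (Fin 2) (Fin 2) (ℤ_[p] ⧸ I)) i j =
        Ideal.Quotient.mk I ((ρ n : Matrix (Fin 2) (Fin 2) ℤ_[p]) i j) := rfl
      rw [h2, Ideal.Quotient.eq.mpr (h i j)]
      show _ = (1 : Matrix (Fin 2) (Fin 2) (ℤ_[p] ⧸ I)) i j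
      by_cases hij : i = j
      · subst hij; simp
      · simp [Matrix.one_apply_ne hij]
  have hIo : IsOpen (I : Set ℤ_[p]) := by
    have h1 : (I : Set ℤ_[p]) = Metric.closedBall 0 ((p : ℝ) ^ (-k : ℤ)) := by
      ext x
      rw [SetLike.mem_coe, hI, mem_closedBall_zero_iff]
    rw [h1]
    exact IsUltrametricDist.isOpen_closedBall _ (by positivity)
  refine ⟨U' ⊓ φ.ker, ?_, inf_le_left, ?_⟩
  · have h1 : ((U' ⊓ φ.ker : Subgroup G) : Set G) = (U' : Set G) ∩ ⋂ i : Fin 2, ⋂ j : Fin 2,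
        (fun g => (ρ g : Matrix (Fin 2) (Fin 2) ℤ_[p]) i j -
          (1 : Matrix (Fin 2) (Fin 2) ℤ_[p]) i j) ⁻¹' (I : Set ℤ_[p]) := by
      ext n
      rw [Subgroup.coe_inf, Set.mem_inter_iff, Set.mem_inter_iff, SetLike.mem_coe, SetLike.mem_coe,
        hker]
      simp only [Set.mem_iInter, Set.mem_preimage, SetLike.mem_coe]
    rw [h1]
    refine hU.inter (isOpen_iInter_of_finite fun i => isOpen_iInter_of_finite fun j => ?_)
    refine hIo.preimage ?_
    exact ((continuous_apply_apply i j).comp hρ).sub continuous_const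
  · intro n hn
    have h1 := (hker n).mp hn.2
    apply hball
    have hgoal : ∀ i j, dist (mt ρ n i j) ((1 : Mat ℚ_[p]) i j) < ε := ?_
    · show dist (α := Fin 2 → Fin 2 → ℚ_[p]) (fun i j => mt ρ n i j)
        (fun i j => (1 : Mat ℚ_[p]) i j) < ε
      exact (dist_pi_lt_iff hε).mpr fun i => (dist_pi_lt_iff hε).mpr fun j => hgoal i j
    intro i j
    rw [dist_eq_norm]
    have h2 : mt ρ n i j - (1 : Mat ℚ_[p]) i j = (((ρ n : Matrix (Fin 2) (Fin 2) ℤ_[p]) i j -
      (1 : Matrix (Fin 2) (Fin 2) ℤ_[p]) i j : ℤ_[p]) : ℚ_[p]) := by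
      rw [PadicInt.coe_sub]
      by_cases hij : i = j
      · subst hij; simp [mt]
      · simp [mt, Matrix.one_apply_ne hij]
    have h3 : ‖mt ρ n i j - (1 : Mat ℚ_[p]) i j‖ ≤ (p : ℝ) ^ (-k : ℤ) := by
      rw [h2, PadicInt.padic_norm_e_of_padicInt]
      exact (hI _).mp (h1 i j)
    refine lt_of_le_of_lt h3 ?_
    rw [zpow_neg, zpow_natCast, ← inv_pow]
    exact hk

end top

end BETA2

open BETA2 in
theorem beta2 : S_BETA2 := by
  intro p _ G _ _ _ ρ hρ hS e he B B' hB U' hU hn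
  have hBd : B.det ≠ 0 := by
    have h1 : B.det * B'.det = 1 := by rw [← Matrix.det_mul, hB, Matrix.det_one]
    exact left_ne_zero_of_mul_eq_one h1
  have hBB : B' * B = 1 := mul_eq_one_comm.mp hB
  let Ξ : Set ℚ_[p] := {x | ∃ A : Mat ℚ_[p], A.det ≠ 0 ∧
      (A ^ e).trace * ((A ^ e).trace ^ 2 - 4 * (A ^ e).det) = 0 ∧
      x = A.trace ^ 2 / A.det}
  have hΞ : Ξ.Finite := fin_ratio e he
  let F : Mat ℚ_[p] → ℚ_[p] := fun A => (B * A).trace ^ 2 / (B * A).det
  have hcont : Continuous fun A : Mat ℚ_[p] => (B * A) := continuous_const.matrix_mul continuous_id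
  have hFc : ContinuousAt F 1 := by
    refine ContinuousAt.div ?_ ?_ ?_
    · exact (hcont.matrix_trace.pow 2).continuousAt
    · exact hcont.matrix_det.continuousAt
    · rw [mul_one]; exact hBd
  have hW1 : {A : Mat ℚ_[p] | F A ∉ Ξ \ {F 1}} ∈ 𝓝 (1 : Mat ℚ_[p]) := by
    have h1 : (Ξ \ {F 1})ᶜ ∈ 𝓝 (F 1) :=
      (hΞ.subset Set.sdiff_subset).isClosed.isOpen_compl.mem_nhds (by simp)
    exact hFc h1
  have hF1 : ∀ n ∈ U', F (mt ρ n) ∈ Ξ := by
    intro n hn'
    refine ⟨B * mt ρ n, ?_, hn n hn', rfl⟩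
    rw [Matrix.det_mul]
    exact mul_ne_zero hBd (mt_det ρ n)
  by_cases ht : B.trace = 0
  · obtain ⟨V, hVo, hVU, hV⟩ := small ρ hρ U' hU _ hW1
    have hF0 : F 1 = 0 := by
      show (B * 1).trace ^ 2 / (B * 1).det = 0
      rw [mul_one, ht]; simp
    have h1 : ∀ n ∈ V, (mt ρ n * B).trace = 0 := by
      intro n hn'
      have h2 : F (mt ρ n) = F 1 := by
        by_contra hc
        exact hV n hn' ⟨hF1 n (hVU hn'), hc⟩
      rw [hF0] at h2
      have h3 : (B * mt ρ n).trace ^ 2 / (B * mt ρ n).det = 0 := h2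
      have h4 : (B * mt ρ n).det ≠ 0 := by
        rw [Matrix.det_mul]
        exact mul_ne_zero hBd (mt_det ρ n)
      rw [div_eq_zero_iff, or_iff_left h4, pow_eq_zero_iff two_ne_zero] at h3
      rw [Matrix.trace_mul_comm, h3]
    have h2 : B = 0 := by
      refine nondeg_span _ (hS V hVo) B ?_
      rintro _ ⟨n, hn', rfl⟩
      exact h1 n hn'
    rw [h2] at hBd
    apply hBd
    rw [Matrix.det_fin_two]
    simp
  · let s : Mat ℚ_[p] → ℚ_[p] := fun A => (B * A).trace / B.trace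
    have hsc : Continuous s := hcont.matrix_trace.div_const _
    have h20 : (0 : ℝ) < ‖(2 : ℚ_[p])‖ := norm_pos_iff.mpr two_ne_zero
    have h21 : ‖(2 : ℚ_[p])‖ ≤ 1 := by
      have := Padic.norm_int_le_one (p := p) 2
      simpa using this
    have hW2 : {A : Mat ℚ_[p] | ‖s A - 1‖ < ‖(2 : ℚ_[p])‖} ∈ 𝓝 (1 : Mat ℚ_[p]) := by
      have h1 : IsOpen {A : Mat ℚ_[p] | ‖s A - 1‖ < ‖(2 : ℚ_[p])‖} :=
        isOpen_lt (hsc.sub continuous_const).norm continuous_const
      refine h1.mem_nhds ?_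
      show ‖(B * 1).trace / B.trace - 1‖ < ‖(2 : ℚ_[p])‖
      rw [mul_one, div_self ht, sub_self, norm_zero]
      exact h20
    obtain ⟨V, hVo, hVU, hV⟩ := small ρ hρ U' hU _ (Filter.inter_mem hW1 hW2)
    have hsq : ∀ n ∈ V, s (mt ρ n) ^ 2 = (mt ρ n).det := by
      intro n hn'
      have h2 : F (mt ρ n) = F 1 := by
        by_contra hc
        exact (hV n hn').1 ⟨hF1 n (hVU hn'), hc⟩
      have h3 : (B * mt ρ n).trace ^ 2 / (B * mt ρ n).det = (B * 1).trace ^ 2 / (B * 1).det := h2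
      rw [Matrix.det_mul, mul_one] at h3
      have h4 := mt_det ρ n
      show ((B * mt ρ n).trace / B.trace) ^ 2 = (mt ρ n).det
      rw [div_pow, div_eq_iff (pow_ne_zero 2 ht)]
      rw [div_eq_div_iff (mul_ne_zero hBd h4) hBd] at h3
      have h5 : B.det * ((B * mt ρ n).trace ^ 2 - (mt ρ n).det * B.trace ^ 2) = 0 := by
        linear_combination h3
      have h6 := (mul_eq_zero.mp h5).resolve_left hBd
      linear_combination h6
    have hs1 : ∀ n ∈ V, ‖s (mt ρ n) - 1‖ < ‖(2 : ℚ_[p])‖ := fun n hn' => (hV n hn').2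
    have hs2 : ∀ n ∈ V, ‖s (mt ρ n)‖ ≤ 1 := by
      intro n hn'
      have h1 : s (mt ρ n) = (s (mt ρ n) - 1) + 1 := by ring
      rw [h1]
      refine (Padic.nonarchimedean _ _).trans (max_le ?_ ?_)
      · exact (hs1 n hn').le.trans h21
      · rw [norm_one]
    have hmul : ∀ n ∈ V, ∀ m ∈ V, s (mt ρ (n * m)) = s (mt ρ n) * s (mt ρ m) := by
      intro n hn' m hm'
      have h1 : s (mt ρ (n * m)) ^ 2 = (s (mt ρ n) * s (mt ρ m)) ^ 2 := by
        rw [hsq _ (V.mul_mem hn' hm'), mul_pow, hsq n hn', hsq m hm', mt_mul, Matrix.det_mul]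
      rcases sq_eq_sq_iff_eq_or_eq_neg.mp h1 with h | h
      · exact h
      · exfalso
        have h2 : ‖s (mt ρ n) * s (mt ρ m) - 1‖ < ‖(2 : ℚ_[p])‖ := by
          have h3 : s (mt ρ n) * s (mt ρ m) - 1 =
            s (mt ρ n) * (s (mt ρ m) - 1) + (s (mt ρ n) - 1) := by ring
          rw [h3]
          refine lt_of_le_of_lt (Padic.nonarchimedean _ _) (max_lt ?_ (hs1 n hn'))
          rw [norm_mul]
          calc ‖s (mt ρ n)‖ * ‖s (mt ρ m) - 1‖ ≤ 1 * ‖s (mt ρ m) - 1‖ :=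
                mul_le_mul_of_nonneg_right (hs2 n hn') (norm_nonneg _)
            _ < ‖(2 : ℚ_[p])‖ := by rw [one_mul]; exact hs1 m hm'
        have h4 := hs1 _ (V.mul_mem hn' hm')
        have h5 : (2 : ℚ_[p]) = -(s (mt ρ (n * m)) - 1) + -(s (mt ρ n) * s (mt ρ m) - 1) := by
          rw [h]; ring
        have h6 : ‖(2 : ℚ_[p])‖ < ‖(2 : ℚ_[p])‖ := by
          conv_lhs => rw [h5]
          refine lt_of_le_of_lt (Padic.nonarchimedean _ _) (max_lt ?_ ?_)
          · rw [norm_neg]; exact h4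
          · rw [norm_neg]; exact h2
        exact lt_irrefl _ h6
    have hsc' : ∀ m ∈ V, mt ρ m = s (mt ρ m) • (1 : Mat ℚ_[p]) := by
      intro m hm'
      have h1 : mt ρ m * B - s (mt ρ m) • B = 0 := by
        refine nondeg_span _ (hS V hVo) _ ?_
        rintro _ ⟨n, hn', rfl⟩
        have h2 := hmul n hn' m hm'
        have h3 : (B * mt ρ (n * m)).trace / B.trace =
          (B * mt ρ n).trace / B.trace * s (mt ρ m) := h2
        rw [div_mul_eq_mul_div, div_left_inj' ht] at h3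
        rw [mul_sub, Matrix.trace_sub, mul_smul_comm, Matrix.trace_smul, smul_eq_mul,
          ← mul_assoc, ← mt_mul, Matrix.trace_mul_comm (mt ρ (n * m)) B, h3,
          Matrix.trace_mul_comm (mt ρ n) B]
        ring
      have h2 : mt ρ m * B = s (mt ρ m) • B := sub_eq_zero.mp h1
      calc mt ρ m = mt ρ m * (B * B') := by rw [hB, mul_one]
        _ = s (mt ρ m) • (B * B') := by rw [← mul_assoc, h2, smul_mul_assoc]
        _ = _ := by rw [hB]
    have h1 : Submodule.span ℚ_[p] {A : Mat ℚ_[p] | ∃ g ∈ V, A = mt ρ g} ≤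
        Submodule.span ℚ_[p] {(1 : Mat ℚ_[p])} := by
      rw [Submodule.span_le]
      rintro _ ⟨g, hg, rfl⟩
      rw [hsc' g hg]
      exact Submodule.smul_mem _ _ (Submodule.mem_span_singleton_self _)
    rw [hS V hVo] at h1
    have h2 : (Matrix.single 0 0 1 : Mat ℚ_[p]) ∈ Submodule.span ℚ_[p] {(1 : Mat ℚ_[p])} :=
      h1 trivial
    obtain ⟨c, hc⟩ := Submodule.mem_span_singleton.mp h2
    have h3 := congrFun (congrFun hc 0) 0
    have h4 := congrFun (congrFun hc 1) 1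
    simp [Matrix.single] at h3 h4
    rw [h4] at h3
    exact zero_ne_one h3

end Pool.Agent.H858.RU
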