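import Pool.Agent.H858.RU.Loc

/-!
# A strongly irreducible system is residually irreducible for almost all primes
-/

set_option autoImplicit false

namespace Pool.Agent.H858.RU

open Module NumberField Pool.Agent.Y800 Pool.Agent.R390.SF Pool.Agent.NH56.PA
open Pool.Agent.R390.SF.IntegralSystem

attribute [local instance] Subgroup.fintypeQuotientOfFiniteIndex

variable {F : SubFld ℚ} [hF : FiniteDimensional ℚ F]

section top

theorem isOpen_N : IsOpen (((F.fixingSubgroup).normalCore : Subgroup GQ) : Set GQ) :=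
  isOpen_core (isOpen_F F)

omit hF in
theorem continuous_cnj (x : GQ) : Continuous (cnj F x) := by
  refine Continuous.subtype_mk (f := fun n : (F.fixingSubgroup).normalCore => x⁻¹ * (n : GQ) * x) ?_ _
  exact (continuous_const.mul continuous_subtype_val).mul continuous_const

theorem isOpen_map_cnj (x : GQ) (U : Subgroup (F.fixingSubgroup).normalCore)
    (hU : IsOpen (U : Set (F.fixingSubgroup).normalCore)) :
    IsOpen ((U.map (cnj F x) : Subgroup F.fixingSubgroup) : Set F.fixingSubgroup) := by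
  have h1 : ((U.map (cnj F x) : Subgroup F.fixingSubgroup) : Set F.fixingSubgroup) =
      (fun z : F.fixingSubgroup => x * (z : GQ) * x⁻¹) ⁻¹'
        (Subtype.val '' (U : Set (F.fixingSubgroup).normalCore)) := by
    ext z
    constructor
    · rintro ⟨n, hn, rfl⟩
      refine ⟨n, hn, ?_⟩
      show (n : GQ) = x * (x⁻¹ * n * x) * x⁻¹
      group
    · rintro ⟨n, hn, h2⟩
      refine ⟨n, hn, ?_⟩
      apply Subtype.ext
      show x⁻¹ * (n : GQ) * x = z
      have h3 : (n : GQ) = x * z * x⁻¹ := h2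
      rw [h3]
      group
  rw [h1]
  refine (isOpen_N.isOpenMap_subtype_val _ hU).preimage ?_
  exact (continuous_const.mul continuous_subtype_val).mul continuous_const

variable {ℓ' : ℕ} [Fact ℓ'.Prime]

theorem strong_cnj {ρ : F.fixingSubgroup →* GL (Fin 2) ℤ_[ℓ']} (hs : StrongIrr ρ) (x : GQ) :
    StrongIrr (ρ.comp (cnj F x)) := by
  intro U hU
  rw [← hs _ (isOpen_map_cnj x U hU)]
  congr 1
  ext A
  constructor
  · rintro ⟨g, hg, rfl⟩
    exact ⟨cnj F x g, ⟨g, hg, rfl⟩, rfl⟩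
  · rintro ⟨_, ⟨g, hg, rfl⟩, rfl⟩
    exact ⟨g, hg, rfl⟩

end top

section ratio

variable {S : Finset ℕ} {T : IntegralSystem F 2} {ℓ' : ℕ} [Fact ℓ'.Prime]

theorem Ratio.mono {N₀ N₁ : ℕ} (hN : N₀ ≤ N₁) {L : Type} [Field L]
    {r : F.fixingSubgroup →* Lˣ} (h : Ratio F S N₁ T ℓ' L r) : Ratio F S N₀ T ℓ' L r :=
  ⟨fun M h1 h2 => h.char M h1 (h2.trans hN), fun p hp hpS hpN => h.quad p hp hpS (hpN.trans hN),
    fun p hp hpS hpN => h.prod p hp hpS (hpN.trans hN), h.sim⟩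

/-- a group is not the union of two proper subgroups -/
theorem two_subgroups {G A : Type} [Group G] [CommGroup A] (a b : G →* A)
    (h : ∀ g, a g = b g ∨ a g * b g = 1) : (∀ g, a g = b g) ∨ ∀ g, a g * b g = 1 := by
  by_contra hcon
  rw [not_or] at hcon
  obtain ⟨h1, h2⟩ := hcon
  push Not at h1 h2
  obtain ⟨g, hg⟩ := h1
  obtain ⟨g', hg'⟩ := h2
  have hg2 := (h g).resolve_left hg
  have hg'2 := (h g').resolve_right hg'
  rcases h (g * g') with h3 | h3
  · rw [map_mul, map_mul, hg'2] at h3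
    exact hg (mul_right_cancel h3)
  · rw [map_mul, map_mul, mul_mul_mul_comm, hg2, one_mul] at h3
    exact hg' h3

theorem two_cases (hsim : ∀ x y : GQ,
    SimOn ((T.rho ℓ').comp (cnj F x)) ((T.rho ℓ').comp (cnj F y)) → True) {N₀ : ℕ} {L : Type}
    [Field L] {r : F.fixingSubgroup →* Lˣ} (h : Ratio F S N₀ T ℓ' L r) (x y : GQ)
    (hxy : SimOn ((T.rho ℓ').comp (cnj F x)) ((T.rho ℓ').comp (cnj F y))) :
    (∀ n, r (cnj F x n) = r (cnj F y n)) ∨ ∀ n, r (cnj F x n) * r (cnj F y n) = 1 :=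
  two_subgroups (r.comp (cnj F x)) (r.comp (cnj F y)) (h.sim x y hxy)

theorem zz_eq_pow {σ : (F.fixingSubgroup).normalCore} (q : GQ ⧸ F.fixingSubgroup) :
    zz (σ : GQ) q = cnj F q.out σ ^ expo F.fixingSubgroup := by
  apply Subtype.ext
  show q.out⁻¹ * (σ : GQ) ^ expo F.fixingSubgroup * q.out = ((cnj F q.out σ ^ expo F.fixingSubgroup :
      F.fixingSubgroup) : GQ)
  rw [SubmonoidClass.coe_pow]
  show _ = (q.out⁻¹ * (σ : GQ) * q.out) ^ expo F.fixingSubgroup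
  have h3 := conj_pow (i := expo F.fixingSubgroup) (a := (q.out)⁻¹) (b := (σ : GQ))
  rw [inv_inv] at h3
  exact h3.symm

end ratio

section caseA

variable {S : Finset ℕ} {w : ℕ} {T : IntegralSystem F 2} {ℓ' : ℕ} [Fact ℓ'.Prime]

theorem mt_trace {ℓ : ℕ} [Fact ℓ.Prime] {G : Type} [Group G] (ρ : G →* GL (Fin 2) ℤ_[ℓ]) (g : G)
    {t : ℤ} (h : (ρ g : Matrix (Fin 2) (Fin 2) ℤ_[ℓ]).trace = t) : (mt ρ g).trace = t := by
  unfold mt
  rw [← AddMonoidHom.map_trace (algebraMap ℤ_[ℓ] ℚ_[ℓ]), h]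
  exact map_intCast (algebraMap ℤ_[ℓ] ℚ_[ℓ]) t

theorem mt_det {ℓ : ℕ} [Fact ℓ.Prime] {G : Type} [Group G] (ρ : G →* GL (Fin 2) ℤ_[ℓ]) (g : G)
    {d : ℤ} (h : (ρ g : Matrix (Fin 2) (Fin 2) ℤ_[ℓ]).det = d) : (mt ρ g).det = d := by
  have h3 := RingHom.map_det (algebraMap ℤ_[ℓ] ℚ_[ℓ]) (ρ g : Matrix (Fin 2) (Fin 2) ℤ_[ℓ])
  rw [h, map_intCast] at h3
  exact h3.symm

theorem continuous_mt {ℓ : ℕ} [Fact ℓ.Prime] {G : Type} [Group G] [TopologicalSpace G]
    {ρ : G →* GL (Fin 2) ℤ_[ℓ]} (hc : Continuous fun g => (ρ g : Matrix (Fin 2) (Fin 2) ℤ_[ℓ])) :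
    Continuous fun g => mt ρ g :=
  hc.matrix_map continuous_coe

/-- the Frobenius elements are dense in the normal core -/
theorem dense_N (hDG : S_DG) (R : Finset ℕ) : Dense {n : (F.fixingSubgroup).normalCore |
    ∃ p : ℕ, p.Prime ∧ p ∉ R ∧ ∃ P : Ideal ZBar, P.IsMaximal ∧ (p : ZBar) ∈ P ∧
      IsGeomFrob p P (n : GQ)} := by
  set D := {n : (F.fixingSubgroup).normalCore |
    ∃ p : ℕ, p.Prime ∧ p ∉ R ∧ ∃ P : Ideal ZBar, P.IsMaximal ∧ (p : ZBar) ∈ P ∧
      IsGeomFrob p P (n : GQ)} with hD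
  intro n
  have hC : IsClosed (Subtype.val '' ((closure D)ᶜ : Set (F.fixingSubgroup).normalCore))ᶜ :=
    (isOpen_N.isOpenMap_subtype_val _ isClosed_closure.isOpen_compl).isClosed_compl
  have h1 := hDG _ hC R (fun p hp hpR P hP hpP σ hσ => by
    rintro ⟨m, hm, rfl⟩
    exact hm (subset_closure ⟨p, hp, hpR, P, hP, hpP, hσ⟩)) (n : GQ)
  by_contra h2
  exact h1 ⟨n, h2, rfl⟩

theorem caseAlpha (hDG : S_DG) (hFP : S_FP) (hNULL : S_NULL) (hTAN : S_TAN) (hNSC : S_NSC)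
    (hAD : S_AD) (hGRS : S_GRS) (hEST : S_EST) (hT : T.GoodSystem S w)
    (hs : StrongIrr (T.rho ℓ')) {S' : Finset ℕ} (hS' : S ⊆ S')
    (h : ∀ N₀ : ℕ, ∃ (L : Type) (_ : Field L) (r : F.fixingSubgroup →* Lˣ),
      Ratio F S' N₀ T ℓ' L r ∧ ∀ q : GQ ⧸ F.fixingSubgroup,
        SimOn ((T.rho ℓ').comp (cnj F q.out))
          ((T.rho ℓ').comp (cnj F (((1 : GQ) : GQ ⧸ F.fixingSubgroup)).out)) →
        ∀ n, r (cnj F q.out n) = r (cnj F (((1 : GQ) : GQ ⧸ F.fixingSubgroup)).out n)) : False := by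
  classical
  set q₀ : GQ ⧸ F.fixingSubgroup := ((1 : GQ) : GQ ⧸ F.fixingSubgroup) with hq₀
  let ρ : (GQ ⧸ F.fixingSubgroup) → (F.fixingSubgroup).normalCore →* GL (Fin 2) ℤ_[ℓ'] :=
    fun q => (T.rho ℓ').comp (cnj F q.out)
  let C : Finset (GQ ⧸ F.fixingSubgroup) := Finset.univ.filter fun q => SimOn (ρ q) (ρ q₀)
  have hC₀ : q₀ ∈ C := Finset.mem_filter.2 ⟨Finset.mem_univ _, fun g => rfl⟩
  have hcc : C.card ≠ 0 := (Finset.card_pos.2 ⟨q₀, hC₀⟩).ne'
  set e := expo F.fixingSubgroup with he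
  have he0 : e ≠ 0 := expo_pos.ne'
  refine loc hTAN hNSC hAD hGRS hEST ρ (fun q => (hT.continuous ℓ').comp (continuous_cnj q.out))
    (fun q => strong_cnj hs q.out) C q₀ hC₀
    (fun q hq h1 => hq (Finset.mem_filter.2 ⟨Finset.mem_univ _, h1⟩)) _
    (dense_N hDG (insert ℓ' S')) (2 * e * C.card) (2 * e) (by positivity) (PadicAlgCl ℓ') ?_
  rintro σ ⟨p, hp, hpR, P, hP, hpP, hσ⟩
  rw [Finset.mem_insert, not_or] at hpR
  obtain ⟨hpℓ, hpS'⟩ := hpR
  have hpS : p ∉ S := fun h => hpS' (hS' h)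
  have hfr : ∀ q : GQ ⧸ F.fixingSubgroup, IsGeomFrob (p ^ 1) (cj q.out P) (cnj F q.out σ : GQ) := by
    intro q
    rw [pow_one]
    exact cj_frob hσ
  choose t d hd htd using fun q : GQ ⧸ F.fixingSubgroup =>
    hFP F S w T hT p hp hpS (cj q.out P) (cj_max hP) (cj_nat.2 hpP) 1 (cnj F q.out σ) (hfr q)
  let G : Set (MvPolynomial (GQ ⧸ F.fixingSubgroup) ℤ) :=
    Set.range (fun q => (MvPolynomial.X q + 1) ^ 2 * MvPolynomial.C (d q) -
      MvPolynomial.C (t q) ^ 2 * MvPolynomial.X q) ∪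
    {MvPolynomial.X q₀ ^ (2 * e * C.card) *
      ∏ q ∈ Finset.univ \ C, MvPolynomial.X q ^ (2 * e) - 1}
  obtain ⟨z, hz⟩ := hNULL (GQ ⧸ F.fixingSubgroup) G (fun N₀ => by
    obtain ⟨L, _, r, hr, hr2⟩ := h (max N₀ p)
    refine ⟨L, inferInstance, fun M hM hMN => hr.char M hM (hMN.trans (le_max_left _ _)),
      fun q => (r (cnj F q.out σ) : L), ?_⟩
    rintro g (⟨q, rfl⟩ | hg)
    · have h1 := hr.quad p hp hpS' (le_max_right _ _) (cj q.out P) (cj_max hP) (cj_nat.2 hpP) 1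
        (cnj F q.out σ) (hfr q) (t q) (d q) (fun ℓ _ hℓ => htd q ℓ hℓ)
      simp only [map_sub, map_mul, map_pow, map_add, map_one, MvPolynomial.aeval_X,
        MvPolynomial.aeval_C]
      rw [sub_eq_zero]
      simpa using h1
    · rw [Set.mem_singleton_iff.1 hg]
      have h1 := hr.prod p hp hpS' (le_max_right _ _) P hP hpP (σ : GQ) hσ
      have h2 : ∏ q : GQ ⧸ F.fixingSubgroup, ((r (cnj F q.out σ) : L)) ^ (2 * e) = 1 := by
        rw [← h1]
        refine Finset.prod_congr rfl fun q _ => ?_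
        rw [zz_eq_pow, map_pow, Units.val_pow_eq_pow_val, ← pow_mul, mul_comm]
      rw [← Finset.prod_sdiff (Finset.subset_univ C)] at h2
      have h3 : ∏ q ∈ C, ((r (cnj F q.out σ) : L)) ^ (2 * e) =
          ((r (cnj F q₀.out σ) : L)) ^ (2 * e * C.card) := by
        rw [pow_mul, ← Finset.prod_const]
        refine Finset.prod_congr rfl fun q hq => ?_
        rw [hr2 q (Finset.mem_filter.1 hq).2 σ]
      rw [h3, mul_comm] at h2
      simp only [map_sub, map_mul, map_pow, map_prod, map_one, MvPolynomial.aeval_X]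
      rw [h2, sub_self]) (PadicAlgCl ℓ')
  refine ⟨z, fun q => ?_, ?_⟩
  · have h1 := hz _ (Or.inl ⟨q, rfl⟩)
    simp only [map_sub, map_mul, map_pow, map_add, map_one, MvPolynomial.aeval_X,
      MvPolynomial.aeval_C] at h1
    obtain ⟨h2, h3⟩ := htd q ℓ' (Ne.symm hpℓ)
    rw [show mt (ρ q) σ = mt (T.rho ℓ') (cnj F q.out σ) from rfl, mt_trace (T.rho ℓ') _ h2,
      mt_det (T.rho ℓ') _ h3]
    rw [sub_eq_zero] at h1
    simpa using h1
  · have h1 := hz _ (Or.inr rfl)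
    simp only [map_sub, map_mul, map_pow, map_prod, map_one, MvPolynomial.aeval_X] at h1
    exact sub_eq_zero.1 h1

theorem caseBeta (hDG : S_DG) (hFP : S_FP) (hINTW : S_INTW) (hBETA1 : S_BETA1)
    (hBETA2 : S_BETA2) (hT : T.GoodSystem S w)
    (hs : StrongIrr (T.rho ℓ')) {S' : Finset ℕ} (hS' : S ⊆ S') (x h₀ : GQ)
    (hh₀ : h₀ ∈ F.fixingSubgroup)
    (hsim : SimOn ((T.rho ℓ').comp (cnj F h₀)) ((T.rho ℓ').comp (cnj F x)))
    (h : ∀ N₀ : ℕ, ∃ (L : Type) (_ : Field L) (r : F.fixingSubgroup →* Lˣ),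
      Ratio F S' N₀ T ℓ' L r ∧ ∀ n, r (cnj F x n) * r (cnj F h₀ n) = 1) : False := by
  classical
  set e := expo F.fixingSubgroup with he
  have he0 : e ≠ 0 := expo_pos.ne'
  have hpe : ∀ g : GQ, g ^ e ∈ (F.fixingSubgroup).normalCore := fun g => pow_core g
  set y : GQ := x * h₀⁻¹ with hy
  have hN : ((F.fixingSubgroup).normalCore).Normal := Subgroup.normalCore_normal _
  let ρ : (F.fixingSubgroup).normalCore →* GL (Fin 2) ℤ_[ℓ'] := (T.rho ℓ').comp (cnj F h₀)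
  have hρc : Continuous fun g => (ρ g : Matrix (Fin 2) (Fin 2) ℤ_[ℓ']) :=
    (hT.continuous ℓ').comp (continuous_cnj h₀)
  have hconj : ρ.comp (MulAut.conjNormal y⁻¹ : MulAut (F.fixingSubgroup).normalCore).toMonoidHom =
      (T.rho ℓ').comp (cnj F x) := by
    ext1 n
    show T.rho ℓ' (cnj F h₀ (MulAut.conjNormal y⁻¹ n)) = T.rho ℓ' (cnj F x n)
    congr 1
    apply Subtype.ext
    show h₀⁻¹ * ((MulAut.conjNormal y⁻¹ n : (F.fixingSubgroup).normalCore) : GQ) * h₀ =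
      x⁻¹ * (n : GQ) * x
    rw [MulAut.conjNormal_apply, hy]
    group
  -- the equation for the Frobenius elements in the coset
  let f : GQ → ℚ_[ℓ'] := fun g => (mt ρ ⟨g ^ e, hpe g⟩).trace *
    ((mt ρ ⟨g ^ e, hpe g⟩).trace ^ 2 - 4 * (mt ρ ⟨g ^ e, hpe g⟩).det)
  have hfc : Continuous f := by
    have h1 : Continuous fun g : GQ => (⟨g ^ e, hpe g⟩ : (F.fixingSubgroup).normalCore) :=
      (continuous_pow e).subtype_mk _
    have h2 : Continuous fun g : GQ => mt ρ ⟨g ^ e, hpe g⟩ := (continuous_mt hρc).comp h1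
    have h3 := h2.matrix_trace
    have h4 := h2.matrix_det
    exact h3.mul ((h3.pow 2).sub (continuous_const.mul h4))
  have key : ∀ g : GQ, y⁻¹ * g ∈ (F.fixingSubgroup).normalCore → f g = 0 := by
    have hcl : IsClosed {g : GQ | y⁻¹ * g ∈ (F.fixingSubgroup).normalCore → f g = 0} := by
      have h1 : {g : GQ | y⁻¹ * g ∈ (F.fixingSubgroup).normalCore → f g = 0} =
          ((fun g => y⁻¹ * g) ⁻¹' (((F.fixingSubgroup).normalCore : Subgroup GQ) : Set GQ))ᶜ ∪
            f ⁻¹' {0} := by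
        ext g
        simp only [Set.mem_ofPred_eq, Set.mem_union, Set.mem_compl_iff, Set.mem_preimage,
          SetLike.mem_coe, Set.mem_singleton_iff]
        tauto
      rw [h1]
      refine IsClosed.union ?_ (isClosed_singleton.preimage hfc)
      exact (isOpen_N.preimage (continuous_const.mul continuous_id)).isClosed_compl
    intro g
    refine hDG _ hcl (insert ℓ' S') ?_ g
    intro p hp hpR P hP hpP σ hσ hyσ
    rw [Finset.mem_insert, not_or] at hpR
    obtain ⟨hpℓ, hpS'⟩ := hpR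
    have hpS : p ∉ S := fun h => hpS' (hS' h)
    set m : (F.fixingSubgroup).normalCore := ⟨σ ^ e, hpe σ⟩ with hm
    have hfr : IsGeomFrob (p ^ e) (cj h₀ P) (cnj F h₀ m : GQ) := cj_frob (geom_pow hσ e)
    obtain ⟨t, d, -, htd⟩ := hFP F S w T hT p hp hpS (cj h₀ P) (cj_max hP) (cj_nat.2 hpP) e
      (cnj F h₀ m) hfr
    have hz : t * (t ^ 2 - 4 * d) = 0 := by
      by_contra hne
      obtain ⟨L, _, r, hr, hr2⟩ := h (max p (t * (t ^ 2 - 4 * d)).natAbs)
      have h1 := hr.quad p hp hpS' (le_max_left _ _) (cj h₀ P) (cj_max hP) (cj_nat.2 hpP) e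
        (cnj F h₀ m) hfr t d htd
      have h2 := hr.char _ hne (le_max_right _ _)
      -- `r (cnj F x m) = r (cnj F h₀ m)`
      have h3 : r (cnj F x m) = r (cnj F h₀ m) := by
        let n' : (F.fixingSubgroup).normalCore := ⟨y⁻¹ * σ, hyσ⟩
        have h4 : cnj F x m = cnj F h₀ (n' * m * n'⁻¹) := by
          apply Subtype.ext
          show x⁻¹ * σ ^ e * x = h₀⁻¹ * ((y⁻¹ * σ) * σ ^ e * (y⁻¹ * σ)⁻¹) * h₀
          have h5 : σ * σ ^ e * σ⁻¹ = σ ^ e := by
            rw [(Commute.refl σ).pow_right e |>.eq]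
            group
          have h6 : (y⁻¹ * σ) * σ ^ e * (y⁻¹ * σ)⁻¹ = y⁻¹ * (σ * σ ^ e * σ⁻¹) * y := by group
          rw [h6, h5, hy]
          group
        rw [h4]
        have h7 : r (cnj F h₀ (n' * m * n'⁻¹)) = (r.comp (cnj F h₀)) (n' * m * n'⁻¹) := rfl
        rw [h7, map_mul, map_mul, map_inv, mul_comm, inv_mul_cancel_left]
        rfl
      have h4 := hr2 m
      rw [h3] at h4
      have h5 : ((r (cnj F h₀ m) : L)) * (r (cnj F h₀ m) : L) = 1 := by
        rw [← Units.val_mul, h4, Units.val_one]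
      have h6 : ((r (cnj F h₀ m) : L) - 1) * ((r (cnj F h₀ m) : L) + 1) = 0 := by
        linear_combination h5
      apply h2
      push_cast
      rcases mul_eq_zero.1 h6 with h7 | h7
      · have h8 : (r (cnj F h₀ m) : L) = 1 := by linear_combination h7
        rw [h8] at h1
        linear_combination (-(t : L)) * h1
      · have h8 : (r (cnj F h₀ m) : L) = -1 := by linear_combination h7
        rw [h8] at h1
        have h9 : (t : L) ^ 2 = 0 := by linear_combination h1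
        have h10 : (t : L) = 0 := pow_eq_zero_iff (two_ne_zero) |>.1 h9
        rw [h10]
        ring
    obtain ⟨h2, h3⟩ := htd ℓ' (Ne.symm hpℓ)
    show (mt ρ m).trace * ((mt ρ m).trace ^ 2 - 4 * (mt ρ m).det) = 0
    rw [show mt ρ m = mt (T.rho ℓ') (cnj F h₀ m) from rfl, mt_trace (T.rho ℓ') _ h2,
      mt_det (T.rho ℓ') _ h3]
    exact_mod_cast hz
  refine beta hINTW hBETA1 hBETA2 (F.fixingSubgroup).normalCore e he0 hpe ρ hρc
    (strong_cnj hs h₀) y (by rw [hconj]; exact hsim) fun n => ?_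
  exact key (y * n) (by rw [inv_mul_cancel_left]; exact n.2)

/-- **Strong irreducibility at one prime implies residual irreducibility.** -/
theorem no_ratio (hDG : S_DG) (hFP : S_FP) (hNULL : S_NULL) (hTAN : S_TAN) (hNSC : S_NSC)
    (hAD : S_AD) (hGRS : S_GRS) (hEST : S_EST) (hINTW : S_INTW) (hBETA1 : S_BETA1)
    (hBETA2 : S_BETA2) (hT : T.GoodSystem S w) (hs : StrongIrr (T.rho ℓ')) {S' : Finset ℕ}
    (hS' : S ⊆ S')
    (h : ∀ N₀ : ℕ, ∃ (L : Type) (_ : Field L) (r : F.fixingSubgroup →* Lˣ),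
      Ratio F S' N₀ T ℓ' L r) : False := by
  classical
  set q₀ : GQ ⧸ F.fixingSubgroup := ((1 : GQ) : GQ ⧸ F.fixingSubgroup) with hq₀
  by_cases hα : ∀ N₀ : ℕ, ∃ (L : Type) (_ : Field L) (r : F.fixingSubgroup →* Lˣ),
      Ratio F S' N₀ T ℓ' L r ∧ ∀ q : GQ ⧸ F.fixingSubgroup,
        SimOn ((T.rho ℓ').comp (cnj F q.out)) ((T.rho ℓ').comp (cnj F q₀.out)) →
        ∀ n, r (cnj F q.out n) = r (cnj F q₀.out n)
  · exact caseAlpha hDG hFP hNULL hTAN hNSC hAD hGRS hEST hT hs hS' hα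
  · push Not at hα
    obtain ⟨N₁, hN₁⟩ := hα
    -- for some `q` the case of the inverse occurs for all `N₀`
    have h1 : ∃ q : GQ ⧸ F.fixingSubgroup,
        SimOn ((T.rho ℓ').comp (cnj F q.out)) ((T.rho ℓ').comp (cnj F q₀.out)) ∧
        ∀ N₀ : ℕ, ∃ (L : Type) (_ : Field L) (r : F.fixingSubgroup →* Lˣ),
          Ratio F S' N₀ T ℓ' L r ∧ ∀ n, r (cnj F q.out n) * r (cnj F q₀.out n) = 1 := by
      by_contra hcon
      push Not at hcon
      have h2 : ∀ q : GQ ⧸ F.fixingSubgroup, ∃ N₂ : ℕ,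
          SimOn ((T.rho ℓ').comp (cnj F q.out)) ((T.rho ℓ').comp (cnj F q₀.out)) →
          ∀ (L : Type) (_ : Field L) (r : F.fixingSubgroup →* Lˣ), Ratio F S' N₂ T ℓ' L r →
            ∃ n, r (cnj F q.out n) * r (cnj F q₀.out n) ≠ 1 := by
        intro q
        by_cases hq : SimOn ((T.rho ℓ').comp (cnj F q.out)) ((T.rho ℓ').comp (cnj F q₀.out))
        · obtain ⟨N₂, hN₂⟩ := hcon q hq
          exact ⟨N₂, fun _ => hN₂⟩
        · exact ⟨0, fun h => absurd h hq⟩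
      choose N₂ hN₂ using h2
      obtain ⟨L, _, r, hr⟩ := h (max N₁ (Finset.univ.sup N₂))
      obtain ⟨q, hq, n, hn⟩ := hN₁ L inferInstance r (hr.mono (le_max_left _ _))
      rcases two_cases (fun _ _ _ => trivial) hr q.out q₀.out hq with h3 | h3
      · exact hn (h3 n)
      · obtain ⟨n', hn'⟩ := hN₂ q hq L inferInstance r (hr.mono
          ((Finset.le_sup (Finset.mem_univ q)).trans (le_max_right _ _)))
        exact hn' (h3 n')
    obtain ⟨q, hq, hq2⟩ := h1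
    have hout : q₀.out ∈ F.fixingSubgroup := by
      obtain ⟨h2, hh⟩ := QuotientGroup.mk_out_eq_mul F.fixingSubgroup (1 : GQ)
      rw [hq₀, hh, one_mul]
      exact h2.2
    exact caseBeta hDG hFP hINTW hBETA1 hBETA2 hT hs hS' q.out q₀.out hout
      (fun g => (hq g).symm) hq2

end caseA

end Pool.Agent.H858.RU
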