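import Pool.Agent.H858.RU.Spec

/-!
`S_DG`: the Frobenius elements are dense in the Galois group of `ℚ`.
-/

set_option autoImplicit false

namespace Pool.Agent.H858.RU

open Module NumberField Filter Topology Pool.Agent.Y800 Pool.Agent.R390.SF Pool.Agent.NH56.PA

theorem dg : S_DG := by
  intro C hC S h g
  by_contra hg
  have h1 : (fun x => x * g) ⁻¹' Cᶜ ∈ 𝓝 (1 : GQ) := by
    refine (continuous_mul_const g).continuousAt.preimage_mem_nhds ?_
    rw [one_mul]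
    exact hC.isOpen_compl.mem_nhds hg
  obtain ⟨W, hW1, hW, hW0⟩ := mem_nhds_iff.mp h1
  obtain ⟨U, hU⟩ := ProfiniteGrp.exist_openNormalSubgroup_sub_open_nhds_of_one hW hW0
  have hUn : U.toSubgroup.Normal := U.isNormal'
  obtain ⟨p, hp, hpS, P, hP, hpP, σ, hσ, τ, hτ⟩ := exists_frob U.toSubgroup U.isOpen' S g
  have h2 := hW1 (hU hτ)
  have h3 : τ * σ * τ⁻¹ * g⁻¹ * g ∈ Cᶜ := h2
  rw [inv_mul_cancel_right] at h3
  have h4 : IsGeomFrob p (cj τ⁻¹ P) (τ * σ * τ⁻¹) := by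
    have h5 := cj_frob (x := τ⁻¹) hσ
    rwa [inv_inv] at h5
  exact h3 (h p hp hpS (cj τ⁻¹ P) (cj_max hP) (cj_nat.2 hpP) (τ * σ * τ⁻¹) h4)

end Pool.Agent.H858.RU
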