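import Pool.Graph.R_seed8.R390.SF.Defs

/-!
# Strongly irreducible representations of rank two
-/

set_option autoImplicit false

namespace Pool.Agent.H858.RU

open Pool.Agent.R390.SF Pool.Agent.R390.SF.IntegralSystem

/-- The matrices with two rows and columns. -/
abbrev Mat (k : Type) : Type := Matrix (Fin 2) (Fin 2) k

section padic

variable {p : ℕ} [Fact p.Prime] {G : Type} [Group G]

/-- The matrix of `g`, with coefficients in `ℚ_p`. -/
noncomputable def mt (ρ : G →* GL (Fin 2) ℤ_[p]) (g : G) : Mat ℚ_[p] :=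
  (ρ g : Matrix (Fin 2) (Fin 2) ℤ_[p]).map (algebraMap ℤ_[p] ℚ_[p])

/-- `ρ` is strongly irreducible: the matrices of the elements of every open subgroup span the space of
all the matrices over `ℚ_p`, so that the restriction to every open subgroup is absolutely
irreducible. -/
def StrongIrr [TopologicalSpace G] (ρ : G →* GL (Fin 2) ℤ_[p]) : Prop :=
  ∀ U : Subgroup G, IsOpen (U : Set G) →
    Submodule.span ℚ_[p] {A : Mat ℚ_[p] | ∃ g ∈ U, A = mt ρ g} = ⊤

end padic

/-- `V_ℓ` is semisimple for all `ℓ` in `Λ`: every stable subspace has a stable complement. -/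
def SemisimpleOn {F : SubFld ℚ} {n : ℕ} (Λ : Set ℕ) (T : IntegralSystem F n) : Prop :=
  ∀ (ℓ : ℕ) [Fact ℓ.Prime], ℓ ∈ Λ → ∀ U : Submodule ℚ_[ℓ] (Fin n → ℚ_[ℓ]),
    IsStable (T.rat ℓ) U →
      ∃ U' : Submodule ℚ_[ℓ] (Fin n → ℚ_[ℓ]), IsStable (T.rat ℓ) U' ∧ IsCompl U U'

end Pool.Agent.H858.RU
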