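import Pool.Agent.H858.RU.Spec

/-!
Project RU (helper858), problem MP_78e9a5_nt: the `p`-adic estimate `S_EST` (helper263).
-/

set_option autoImplicit false

namespace Pool.Agent.H858.RU

open Module NumberField Pool.Agent.Y800 Pool.Agent.R390.SF Pool.Agent.NH56.PA
open Pool.Agent.R390.SF.IntegralSystem

namespace EST

section ultra

variable {Ω : Type} [NormedField Ω] [IsUltrametricDist Ω]

theorem sub_le {x y : Ω} {r : ℝ} (hx : ‖x‖ ≤ r) (hy : ‖y‖ ≤ r) : ‖x - y‖ ≤ r := by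
  rw [sub_eq_add_neg]
  refine (IsUltrametricDist.norm_add_le_max x (-y)).trans (max_le hx ?_)
  rwa [norm_neg]

theorem add_le {x y : Ω} {r : ℝ} (hx : ‖x‖ ≤ r) (hy : ‖y‖ ≤ r) : ‖x + y‖ ≤ r :=
  (IsUltrametricDist.norm_add_le_max x y).trans (max_le hx hy)

theorem add_lt {x y : Ω} {r : ℝ} (hx : ‖x‖ < r) (hy : ‖y‖ < r) : ‖x + y‖ < r :=
  lt_of_le_of_lt (IsUltrametricDist.norm_add_le_max x y) (max_lt hx hy)

theorem sub_lt {x y : Ω} {r : ℝ} (hx : ‖x‖ < r) (hy : ‖y‖ < r) : ‖x - y‖ < r := by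
  rw [sub_eq_add_neg]
  exact add_lt hx (by rwa [norm_neg])

/-- the larger term gives the norm -/
theorem norm_eq {x y : Ω} (h : ‖y‖ < ‖x‖) : ‖x + y‖ = ‖x‖ := by
  apply le_antisymm (add_le le_rfl h.le)
  by_contra hc
  push Not at hc
  have h1 : ‖(x + y) - y‖ < ‖x‖ := sub_lt hc h
  rw [add_sub_cancel_right] at h1
  exact lt_irrefl _ h1

theorem nat_le (n : ℕ) : ‖(n : Ω)‖ ≤ 1 := IsUltrametricDist.norm_natCast_le_one Ω n

theorem two_le : ‖(2 : Ω)‖ ≤ 1 := by exact_mod_cast nat_le (Ω := Ω) 2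

theorem key_z {z t d : Ω} (hd : ‖d‖ = 1) (ht : ‖t‖ ≤ 1) (h : (z + 1) ^ 2 * d = t ^ 2 * z) :
    ‖z‖ = 1 ∧ ‖z - 1‖ ^ 2 = ‖t ^ 2 - 4 * d‖ := by
  have hu : ‖t ^ 2 - 2 * d‖ ≤ 1 := by
    refine sub_le ?_ ?_
    · rw [norm_pow]
      exact pow_le_one₀ (norm_nonneg _) ht
    · rw [norm_mul, hd, mul_one]
      exact two_le
  have e1 : z ^ 2 * d = (t ^ 2 - 2 * d) * z - d := by linear_combination h
  have hz : ‖z‖ = 1 := by
    rcases lt_trichotomy ‖z‖ 1 with h1 | h1 | h1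
    · exfalso
      have e2 : d = (t ^ 2 - 2 * d) * z - z ^ 2 * d := by linear_combination e1
      have h2 : ‖(t ^ 2 - 2 * d) * z‖ < 1 := by
        rw [norm_mul]
        exact mul_lt_one_of_nonneg_of_lt_one_right hu (norm_nonneg _) h1
      have h3 : ‖z ^ 2 * d‖ < 1 := by
        rw [norm_mul, hd, mul_one, norm_pow]
        exact pow_lt_one₀ (norm_nonneg _) h1 two_ne_zero
      have h4 : ‖d‖ < 1 := by
        rw [e2]
        exact sub_lt h2 h3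
      rw [hd] at h4
      exact lt_irrefl _ h4
    · exact h1
    · exfalso
      have h2 : ‖(t ^ 2 - 2 * d) * z - d‖ ≤ ‖z‖ := by
        refine sub_le ?_ ?_
        · rw [norm_mul]
          exact mul_le_of_le_one_left (norm_nonneg _) hu
        · rw [hd]
          exact h1.le
      rw [← e1, norm_mul, hd, mul_one, norm_pow] at h2
      nlinarith
  refine ⟨hz, ?_⟩
  have e3 : (z - 1) ^ 2 * d = (t ^ 2 - 4 * d) * z := by linear_combination h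
  have e4 := congrArg norm e3
  rw [norm_mul, norm_mul, hd, hz, mul_one, mul_one, norm_pow] at e4
  exact e4

theorem prod_le {J : Type} (s : Finset J) (z : J → Ω) {r : ℝ} (hr : 0 ≤ r)
    (h1 : ∀ q ∈ s, ‖z q‖ = 1) (h2 : ∀ q ∈ s, ‖z q - 1‖ ≤ r) :
    ‖∏ q ∈ s, z q‖ = 1 ∧ ‖∏ q ∈ s, z q - 1‖ ≤ r := by
  classical
  induction s using Finset.induction_on with
  | empty => simpa using hr
  | insert q s hq ih =>
    obtain ⟨i1, i2⟩ := ih (fun x hx => h1 x (Finset.mem_insert_of_mem hx))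
      (fun x hx => h2 x (Finset.mem_insert_of_mem hx))
    have j1 := h1 q (Finset.mem_insert_self _ _)
    have j2 := h2 q (Finset.mem_insert_self _ _)
    rw [Finset.prod_insert hq]
    refine ⟨by rw [norm_mul, i1, j1, one_mul], ?_⟩
    have e : z q * ∏ x ∈ s, z x - 1 = z q * (∏ x ∈ s, z x - 1) + (z q - 1) := by ring
    rw [e]
    refine add_le ?_ j2
    rw [norm_mul, j1, one_mul]
    exact i2

theorem pow_le {z : Ω} {r : ℝ} (hr : 0 ≤ r) (h1 : ‖z‖ = 1) (h2 : ‖z - 1‖ ≤ r) (b : ℕ) :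
    ‖z ^ b‖ = 1 ∧ ‖z ^ b - 1‖ ≤ r := by
  have h := prod_le (Finset.range b) (fun _ => z) hr (fun _ _ => h1) (fun _ _ => h2)
  simpa using h

theorem pow_exp (w : Ω) (hw : ‖w‖ ≤ 1) (a : ℕ) :
    ∃ s : Ω, ‖s‖ ≤ 1 ∧ (1 + w) ^ a = 1 + w * (a + w * s) := by
  induction a with
  | zero => exact ⟨0, by simp, by simp⟩
  | succ a ih =>
    obtain ⟨s, hs, e⟩ := ih
    refine ⟨s + a + w * s, ?_, ?_⟩
    · refine add_le (add_le hs (nat_le a)) ?_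
      rw [norm_mul]
      exact mul_le_one₀ hw (norm_nonneg _) hs
    · rw [pow_succ, e]
      push_cast
      ring

theorem pow_norm {w : Ω} (hw : ‖w‖ ≤ 1) {a : ℕ} (h : ‖w‖ < ‖(a : Ω)‖) :
    ‖(1 + w) ^ a - 1‖ = ‖w‖ * ‖(a : Ω)‖ := by
  obtain ⟨s, hs, e⟩ := pow_exp w hw a
  rw [e, add_sub_cancel_left, norm_mul, norm_eq]
  rw [norm_mul]
  exact lt_of_le_of_lt (mul_le_of_le_one_right (norm_nonneg _) hs) h

end ultra

section

variable {p : ℕ} [Fact p.Prime] {G : Type} [Group G]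

theorem disc_id {K : Type} [Field K] (M : Mat K) :
    M.trace ^ 2 - 4 * M.det = (M 0 0 - M 1 1) ^ 2 + 4 * (M 0 1 * M 1 0) := by
  rw [Matrix.trace_fin_two, Matrix.det_fin_two]
  ring

theorem mt_le (ρ : G →* GL (Fin 2) ℤ_[p]) (g : G) (i j : Fin 2) : ‖mt ρ g i j‖ ≤ 1 := by
  rw [mt, Matrix.map_apply]
  exact PadicInt.norm_le_one _

theorem mt_tr (ρ : G →* GL (Fin 2) ℤ_[p]) (g : G) : ‖(mt ρ g).trace‖ ≤ 1 := by
  rw [Matrix.trace_fin_two]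
  exact add_le (mt_le ρ g 0 0) (mt_le ρ g 1 1)

theorem mt_det (ρ : G →* GL (Fin 2) ℤ_[p]) (g : G) : ‖(mt ρ g).det‖ = 1 := by
  have h1 : (mt ρ g).det =
      algebraMap ℤ_[p] ℚ_[p] (ρ g : Matrix (Fin 2) (Fin 2) ℤ_[p]).det := by
    rw [mt, RingHom.map_det]
    rfl
  rw [h1]
  have h2 : IsUnit (ρ g : Matrix (Fin 2) (Fin 2) ℤ_[p]).det :=
    (Matrix.isUnit_iff_isUnit_det _).1 (ρ g).isUnit
  exact PadicInt.isUnit_iff.1 h2

end

end EST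

open Pool.Agent.H858.RU.EST in
/-- **The `p`-adic estimate.** -/
theorem est : S_EST := by
  intro p _ G _ _ _ I _ _ ρ hρ C q₀ hq₀ X hX hC hc D hD a b ha Ω _ _ _ hz
  obtain ⟨c, hc⟩ := hc
  have ha0 : (a : ℚ_[p]) ≠ 0 := Nat.cast_ne_zero.mpr ha
  have h20 : (2 : ℚ_[p]) ≠ 0 := two_ne_zero
  have hA : 0 < ‖(a : ℚ_[p])‖ := norm_pos_iff.mpr ha0
  have hT : 0 < ‖(2 : ℚ_[p])‖ := norm_pos_iff.mpr h20
  have hA1 : ‖(a : ℚ_[p])‖ ≤ 1 := nat_le a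
  have hT1 : ‖(2 : ℚ_[p])‖ ≤ 1 := two_le
  set ε : ℝ := ‖(2 : ℚ_[p])‖ * ‖(a : ℚ_[p])‖ / 2 with hε
  have hεp : 0 < ε := by positivity
  have hε2 : ε < ‖(2 : ℚ_[p])‖ := by
    have : ‖(2 : ℚ_[p])‖ * ‖(a : ℚ_[p])‖ ≤ ‖(2 : ℚ_[p])‖ := mul_le_of_le_one_right hT.le hA1
    rw [hε]
    linarith
  have hε1 : ε < 1 := hε2.trans_le hT1
  have hεa : ε < ‖(2 : ℚ_[p])‖ * ‖(a : ℚ_[p])‖ := by
    have : 0 < ‖(2 : ℚ_[p])‖ * ‖(a : ℚ_[p])‖ := by positivity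
    rw [hε]
    linarith
  obtain ⟨n₀, hn₀⟩ := hX ε hεp
  obtain ⟨n₁, hn₁⟩ : ∃ n₁ : ℕ, ∀ n, n₁ ≤ n → ‖(p : ℚ_[p]) ^ n‖ < ‖(a : ℚ_[p])‖ := by
    have h1 := tendsto_pow_atTop_nhds_zero_of_lt_one (norm_nonneg (p : ℚ_[p]))
      (Padic.norm_p_lt_one (p := p))
    have h2 := (h1.eventually_lt_const hA)
    obtain ⟨n₁, h3⟩ := Filter.eventually_atTop.mp h2
    exact ⟨n₁, fun n hn => by rw [norm_pow]; exact h3 n hn⟩
  set n := max n₀ n₁ with hn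
  have hP0 : (p : ℚ_[p]) ^ n ≠ 0 :=
    pow_ne_zero _ (Nat.cast_ne_zero.mpr (Fact.out : p.Prime).ne_zero)
  have hP : 0 < ‖(p : ℚ_[p]) ^ n‖ := norm_pos_iff.mpr hP0
  have hPa : ‖(p : ℚ_[p]) ^ n‖ < ‖(a : ℚ_[p])‖ := hn₁ n (le_max_right _ _)
  obtain ⟨g', hg'⟩ := hn₀ n (le_max_left _ _)
  -- density
  have hmc : ∀ q i j, Continuous fun g => mt (ρ q) g i j := by
    intro q i j
    have h1 : Continuous fun g => (ρ q g : Matrix (Fin 2) (Fin 2) ℤ_[p]) i j :=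
      (continuous_apply j).comp ((continuous_apply i).comp (hρ q))
    exact continuous_subtype_val.comp h1
  have hopen : IsOpen {g : G | ∀ (q : I) (i j : Fin 2),
      ‖((p : ℚ_[p]) ^ n)⁻¹ * (mt (ρ q) g i j - (1 : Mat ℚ_[p]) i j) - X q i j‖ < ε} := by
    simp only [Set.ofPred_forall]
    refine isOpen_iInter_of_finite fun q => isOpen_iInter_of_finite fun i =>
      isOpen_iInter_of_finite fun j => ?_
    exact isOpen_lt (((continuous_const.mul ((hmc q i j).sub continuous_const)).sub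
      continuous_const).norm) continuous_const
  obtain ⟨g, hg, hgD⟩ := hD.inter_open_nonempty _ hopen ⟨g', hg'⟩
  obtain ⟨z, hz1, hz2⟩ := hz g hgD
  -- the discriminants
  have hY : ∀ q : I, ∃ Y : Mat ℚ_[p], (∀ i j, ‖Y i j - X q i j‖ < ε) ∧
      (mt (ρ q) g).trace ^ 2 - 4 * (mt (ρ q) g).det =
        ((p : ℚ_[p]) ^ n) ^ 2 * ((Y 0 0 - Y 1 1) ^ 2 + 4 * (Y 0 1 * Y 1 0)) := by
    intro q
    refine ⟨fun i j => ((p : ℚ_[p]) ^ n)⁻¹ * (mt (ρ q) g i j - (1 : Mat ℚ_[p]) i j), hg q, ?_⟩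
    rw [disc_id]
    beta_reduce
    have e1 : (1 : Mat ℚ_[p]) 0 0 = 1 := rfl
    have e2 : (1 : Mat ℚ_[p]) 1 1 = 1 := rfl
    have e3 : (1 : Mat ℚ_[p]) 0 1 = 0 := rfl
    have e4 : (1 : Mat ℚ_[p]) 1 0 = 0 := rfl
    rw [e1, e2, e3, e4]
    field_simp
    ring
  have hzz : ∀ q, ‖z q‖ = 1 ∧ ‖z q - 1‖ ^ 2 =
      ‖(mt (ρ q) g).trace ^ 2 - 4 * (mt (ρ q) g).det‖ := by
    intro q
    obtain ⟨h1, h2⟩ := key_z (z := z q) (t := algebraMap ℚ_[p] Ω (mt (ρ q) g).trace)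
      (d := algebraMap ℚ_[p] Ω (mt (ρ q) g).det) (by rw [norm_algebraMap', mt_det])
      (by rw [norm_algebraMap']; exact mt_tr _ _) (hz1 q)
    refine ⟨h1, ?_⟩
    have h3 := norm_algebraMap' Ω ((mt (ρ q) g).trace ^ 2 - 4 * (mt (ρ q) g).det)
    rw [map_sub, map_pow, map_mul, map_ofNat] at h3
    rw [h2, h3]
  have h41 : ‖(4 : ℚ_[p])‖ ≤ 1 := by exact_mod_cast nat_le (Ω := ℚ_[p]) 4
  -- the other components
  have hout : ∀ q ∉ C, ‖z q - 1‖ ≤ ‖(p : ℚ_[p]) ^ n‖ * ε := by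
    intro q hq
    obtain ⟨Y, hY1, hY2⟩ := hY q
    obtain ⟨s, hs⟩ := hC q hq
    have x01 : ‖Y 0 1‖ < ε := by
      have := hY1 0 1
      rw [hs] at this
      simpa using this
    have x10 : ‖Y 1 0‖ < ε := by
      have := hY1 1 0
      rw [hs] at this
      simpa using this
    have xd : ‖Y 0 0 - Y 1 1‖ < ε := by
      have h1 := hY1 0 0
      have h2 := hY1 1 1
      have h3 := sub_lt h1 h2
      rw [hs] at h3
      simpa using h3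
    have h1 : ‖(Y 0 0 - Y 1 1) ^ 2 + 4 * (Y 0 1 * Y 1 0)‖ ≤ ε ^ 2 := by
      refine add_le ?_ ?_
      · rw [norm_pow]
        exact pow_le_pow_left₀ (norm_nonneg _) xd.le 2
      · rw [norm_mul, norm_mul]
        have h2 : ‖Y 0 1‖ * ‖Y 1 0‖ ≤ ε * ε :=
          mul_le_mul x01.le x10.le (norm_nonneg _) hεp.le
        have h3 : 0 ≤ ‖Y 0 1‖ * ‖Y 1 0‖ := by positivity
        have h4 : ‖(4 : ℚ_[p])‖ * (‖Y 0 1‖ * ‖Y 1 0‖) ≤ ‖Y 0 1‖ * ‖Y 1 0‖ :=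
          mul_le_of_le_one_left h3 h41
        calc _ ≤ ‖Y 0 1‖ * ‖Y 1 0‖ := h4
          _ ≤ ε * ε := h2
          _ = ε ^ 2 := by ring
    have h2 : ‖z q - 1‖ ^ 2 ≤ (‖(p : ℚ_[p]) ^ n‖ * ε) ^ 2 := by
      rw [(hzz q).2, hY2, norm_mul, norm_pow, mul_pow]
      exact mul_le_mul_of_nonneg_left h1 (by positivity)
    exact le_of_sq_le_sq h2 (by positivity)
  -- the component `q₀`
  have hin : ‖z q₀ - 1‖ = ‖(p : ℚ_[p]) ^ n‖ * ‖(2 : ℚ_[p])‖ := by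
    obtain ⟨Y, hY1, hY2⟩ := hY q₀
    have x01 : ‖Y 0 1‖ < ε := by
      have := hY1 0 1
      rw [hc] at this
      simpa using this
    have x10 : ‖Y 1 0‖ < ε := by
      have := hY1 1 0
      rw [hc] at this
      simpa using this
    have xd : ‖(Y 0 0 - Y 1 1) - 2‖ < ε := by
      have h1 := hY1 0 0
      have h2 := hY1 1 1
      have h3 := sub_lt h1 h2
      rw [hc] at h3
      simp only [Matrix.add_apply, Matrix.smul_apply, Matrix.one_apply_eq, Matrix.diagonal_apply_eq,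
        Matrix.cons_val_zero, Matrix.cons_val_one, smul_eq_mul, mul_one] at h3
      have e : Y 0 0 - (c + 1) - (Y 1 1 - (c + -1)) = (Y 0 0 - Y 1 1) - 2 := by ring
      rwa [e] at h3
    have h1 : ‖Y 0 0 - Y 1 1‖ = ‖(2 : ℚ_[p])‖ := by
      have := norm_eq (x := (2 : ℚ_[p])) (y := (Y 0 0 - Y 1 1) - 2) (xd.trans hε2)
      rwa [add_sub_cancel] at this
    have h2 : ‖(Y 0 0 - Y 1 1) ^ 2 + 4 * (Y 0 1 * Y 1 0)‖ = ‖(2 : ℚ_[p])‖ ^ 2 := by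
      rw [norm_eq, norm_pow, h1]
      rw [norm_pow, h1, norm_mul, norm_mul]
      have h3 : ‖(4 : ℚ_[p])‖ = ‖(2 : ℚ_[p])‖ ^ 2 := by
        rw [← norm_pow]
        norm_num
      rw [h3]
      have h4 : ‖Y 0 1‖ * ‖Y 1 0‖ < 1 := by
        have := mul_lt_mul'' (x01.trans hε1) (x10.trans hε1) (norm_nonneg _) (norm_nonneg _)
        linarith
      exact mul_lt_of_lt_one_right (by positivity) h4
    have h3 : ‖z q₀ - 1‖ ^ 2 = (‖(p : ℚ_[p]) ^ n‖ * ‖(2 : ℚ_[p])‖) ^ 2 := by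
      rw [(hzz q₀).2, hY2, norm_mul, norm_pow, h2, mul_pow]
    exact (pow_left_inj₀ (norm_nonneg _) (by positivity) two_ne_zero).1 h3
  -- the product
  have hprod := prod_le (Finset.univ \ C) (fun q => z q ^ b)
    (r := ‖(p : ℚ_[p]) ^ n‖ * ε) (by positivity)
    (fun q _ => by rw [norm_pow, (hzz q).1, one_pow])
    (fun q hq => (pow_le (by positivity) (hzz q).1
      (hout q (Finset.mem_sdiff.1 hq).2) b).2)
  set PP := ∏ q ∈ Finset.univ \ C, z q ^ b with hPP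
  have hz0 : ‖z q₀ ^ a - 1‖ = ‖z q₀ - 1‖ * ‖(a : Ω)‖ := by
    have e : z q₀ = 1 + (z q₀ - 1) := by ring
    have haΩ : ‖(a : Ω)‖ = ‖(a : ℚ_[p])‖ := by
      rw [← map_natCast (algebraMap ℚ_[p] Ω), norm_algebraMap']
    have h1 : ‖z q₀ - 1‖ < ‖(a : Ω)‖ := by
      rw [hin, haΩ]
      exact lt_of_le_of_lt (mul_le_of_le_one_right hP.le hT1) hPa
    have h2 := pow_norm (w := z q₀ - 1) (h1.le.trans (nat_le a)) h1
    rwa [← e] at h2
  have haΩ : ‖(a : Ω)‖ = ‖(a : ℚ_[p])‖ := by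
    rw [← map_natCast (algebraMap ℚ_[p] Ω), norm_algebraMap']
  have h5 : ‖z q₀ ^ a - 1‖ ≤ ‖(p : ℚ_[p]) ^ n‖ * ε := by
    have e : (z q₀ ^ a - 1) * PP = -(PP - 1) := by linear_combination hz2
    have h6 := congrArg norm e
    rw [norm_mul, hprod.1, mul_one, norm_neg] at h6
    rw [h6]
    exact hprod.2
  rw [hz0, hin, haΩ, mul_assoc] at h5
  have h6 := le_of_mul_le_mul_left h5 hP
  linarith

end Pool.Agent.H858.RU
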