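import Pool.Agent.H858.RU.Spec

/-!
# Powers of Frobenius elements (helper215)
-/

set_option autoImplicit false

namespace Pool.Agent.H858.RU

open Module NumberField Pool.Agent.Y800 Pool.Agent.R390.SF Pool.Agent.NH56.PA
open Pool.Agent.R390.SF.IntegralSystem

namespace FP

theorem stab_open (K : Type) [Field K] (x : AlgebraicClosure K) :
    IsOpen (MulAction.stabilizer Gal(AlgebraicClosure K/K) x : Set Gal(AlgebraicClosure K/K)) :=
  stabilizer_isOpen_of_isIntegral x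

section frob

variable {F : SubFld ℚ} [FiniteDimensional ℚ F]

/-- Frobenius elements at `P` in the Galois group of `F` -/
theorem exists_frobF {p : ℕ} (hp : p.Prime) {P : Ideal ZBar} (hP : P.IsMaximal)
    (hpP : (p : ZBar) ∈ P) : ∃ s : F.fixingSubgroup, IsGeomFrob (resCard F P) P s := by
  classical
  have hsmul : ∀ (g : F.fixingSubgroup) (x : ZBar), g • x = (g : GQ) • x := fun g x => rfl
  have : SMulCommClass F.fixingSubgroup (𝓞 F) ZBar := by
    refine ⟨fun g a b => ?_⟩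
    rw [Algebra.smul_def, Algebra.smul_def, hsmul, hsmul, smul_mul', smul_F g.2]
  have : Algebra.IsInvariant (𝓞 F) ZBar F.fixingSubgroup := by
    refine ⟨fun b hb => ?_⟩
    have h1 : (b : AlgebraicClosure ℚ) ∈ F := by
      rw [← InfiniteGalois.fixedField_fixingSubgroup F, IntermediateField.mem_fixedField_iff]
      intro g hg
      exact congrArg (fun z : ZBar => (z : AlgebraicClosure ℚ)) (hb ⟨g, hg⟩)
    have h2 : IsIntegral ℤ (⟨(b : AlgebraicClosure ℚ), h1⟩ : F) := by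
      have h3 : IsIntegral ℤ (algebraMap F (AlgebraicClosure ℚ) ⟨(b : AlgebraicClosure ℚ), h1⟩) :=
        b.2
      exact (isIntegral_algebraMap_iff (algebraMap F (AlgebraicClosure ℚ)).injective).1 h3
    refine ⟨⟨⟨(b : AlgebraicClosure ℚ), h1⟩, h2⟩, ?_⟩
    apply RingOfIntegers.ext
    rfl
  let _ : TopologicalSpace ZBar := ⊥
  have : DiscreteTopology ZBar := ⟨rfl⟩
  have hc : ContinuousSMul GQ ZBar := by
    rw [continuousSMul_iff_stabilizer_isOpen]
    intro x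
    have h1 := stab_open ℚ (x : AlgebraicClosure ℚ)
    have h2 : MulAction.stabilizer GQ x = MulAction.stabilizer GQ (x : AlgebraicClosure ℚ) := by
      ext g
      rw [MulAction.mem_stabilizer_iff, MulAction.mem_stabilizer_iff]
      constructor
      · intro h
        exact congrArg (fun z : ZBar => (z : AlgebraicClosure ℚ)) h
      · intro h
        exact RingOfIntegers.ext h
    rw [h2]
    exact h1
  have : ContinuousSMul F.fixingSubgroup ZBar := by
    refine ⟨?_⟩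
    have h1 : Continuous fun x : GQ × ZBar => x.1 • x.2 := continuous_smul
    exact h1.comp ((continuous_subtype_val.comp continuous_fst).prodMk continuous_snd)
  have hcl : IsClosed ((F.fixingSubgroup : Subgroup GQ) : Set GQ) :=
    Subgroup.isClosed_of_isOpen _ (isOpen_F F)
  have : CompactSpace F.fixingSubgroup := isCompact_iff_compactSpace.1 hcl.isCompact
  have hm : (P.under (𝓞 F)).IsMaximal := under_max hP
  have hpm : (p : 𝓞 F) ∈ P.under (𝓞 F) := by
    rw [mem_under, map_natCast]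
    exact hpP
  have hne : P.under (𝓞 F) ≠ ⊥ := by
    intro h0
    rw [h0, Ideal.mem_bot] at hpm
    exact hp.ne_zero (by exact_mod_cast hpm)
  have hfin : Finite (𝓞 F ⧸ P.under (𝓞 F)) := Ideal.finiteQuotientOfFreeOfNeBot _ hne
  let _ : Field (𝓞 F ⧸ P.under (𝓞 F)) := Ideal.Quotient.field _
  let _ : Field (ZBar ⧸ P) := Ideal.Quotient.field P
  let _ : Fintype (𝓞 F ⧸ P.under (𝓞 F)) := Fintype.ofFinite _
  have : P.LiesOver (P.under (𝓞 F)) := ⟨rfl⟩
  have : P.IsPrime := hP.isPrime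
  have : Algebra.IsAlgebraic (𝓞 F ⧸ P.under (𝓞 F)) (ZBar ⧸ P) := by
    have : Algebra.IsIntegral (𝓞 F ⧸ P.under (𝓞 F)) (ZBar ⧸ P) := inferInstance
    exact Algebra.IsIntegral.isAlgebraic
  obtain ⟨g, hg⟩ := Ideal.Quotient.stabilizerHom_surjective_of_profinite
    (G := F.fixingSubgroup) (P.under (𝓞 F)) P
    (FiniteField.frobeniusAlgEquivOfAlgebraic (𝓞 F ⧸ P.under (𝓞 F)) (ZBar ⧸ P))
  refine ⟨(g.1)⁻¹, fun x => ?_⟩
  have h1 := DFunLike.congr_fun hg (Ideal.Quotient.mk P ((g.1)⁻¹ • x))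
  rw [Ideal.Quotient.stabilizerHom_apply] at h1
  have h3 : (g.1 : F.fixingSubgroup) • ((g.1)⁻¹ • x) = x := smul_inv_smul _ _
  have h2 : resCard F P = Fintype.card (𝓞 F ⧸ P.under (𝓞 F)) := by
    rw [resCard, Nat.card_eq_fintype_card]
  rw [← Ideal.Quotient.mk_eq_mk_iff_sub_mem, map_pow, h2]
  have h4 : (Ideal.Quotient.mk P) (g.1 • ((g.1)⁻¹ • x)) =
    (Ideal.Quotient.mk P ((g.1)⁻¹ • x)) ^ Fintype.card (𝓞 F ⧸ P.under (𝓞 F)) := h1
  rw [h3] at h4
  exact h4

end frob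

/-- the traces of the powers -/
def tseq (t₀ d₀ : ℤ) : ℕ → ℤ
  | 0 => 2
  | 1 => t₀
  | (j + 2) => t₀ * tseq t₀ d₀ (j + 1) - d₀ * tseq t₀ d₀ j

theorem trace_pow {R : Type} [CommRing R] (A : Matrix (Fin 2) (Fin 2) R) {t₀ d₀ : ℤ}
    (ht : A.trace = t₀) (hd : A.det = d₀) (j : ℕ) :
    (A ^ j).trace = (tseq t₀ d₀ j : R) ∧ (A ^ (j + 1)).trace = (tseq t₀ d₀ (j + 1) : R) := by
  have h2 : A * A = A.trace • A - A.det • (1 : Matrix (Fin 2) (Fin 2) R) := by
    ext i k
    fin_cases i <;> fin_cases k <;>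
      simp [Matrix.mul_apply, Matrix.trace_fin_two, Matrix.det_fin_two, Fin.sum_univ_two] <;> ring
  induction j with
  | zero =>
    refine ⟨?_, ?_⟩
    · rw [pow_zero, Matrix.trace_one, tseq]
      simp
    · rw [zero_add, pow_one, ht, tseq]
  | succ j ih =>
    refine ⟨ih.2, ?_⟩
    have h3 : A ^ (j + 1 + 1) = A.trace • A ^ (j + 1) - A.det • A ^ j := by
      rw [pow_succ A (j + 1), pow_succ A j, mul_assoc, h2, mul_sub, Matrix.mul_smul,
        Matrix.mul_smul, mul_one]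
    rw [h3, Matrix.trace_sub, Matrix.trace_smul, Matrix.trace_smul, ih.1, ih.2, ht, hd]
    show _ = ((tseq t₀ d₀ (j + 2) : ℤ) : R)
    rw [tseq]
    push_cast
    rfl

/-- trace and determinant in terms of the characteristic polynomial -/
theorem of_charpoly {R : Type} [CommRing R] [Nontrivial R] (A : Matrix (Fin 2) (Fin 2) R)
    (Q : Polynomial ℤ) (h : A.charpoly = Q.map (Int.castRingHom R)) :
    A.trace = ((-Q.coeff 1 : ℤ) : R) ∧ A.det = ((Q.coeff 0 : ℤ) : R) := by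
  rw [Matrix.charpoly_fin_two] at h
  have h0 := congrArg (fun f : Polynomial R => f.coeff 0) h
  have h1 := congrArg (fun f : Polynomial R => f.coeff 1) h
  simp only [Polynomial.coeff_add, Polynomial.coeff_sub, Polynomial.coeff_C_mul,
    Polynomial.coeff_X_pow, Polynomial.coeff_X_zero, Polynomial.coeff_X_one,
    Polynomial.coeff_map, Polynomial.coeff_C, eq_intCast] at h0 h1
  norm_num at h0 h1
  refine ⟨?_, h0⟩
  push_cast
  rw [← h1]
  ring

/-- the constant coefficient of a pure polynomial of degree two -/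
theorem coeff_sq (Q : Polynomial ℤ) (hm : Q.Monic) (hd : Q.natDegree = 2) (c : ℕ)
    (hp : ∀ z : ℂ, z ∈ Q.aroots ℂ → ‖z‖ ^ 2 = (c : ℝ)) : Q.coeff 0 ^ 2 = (c : ℤ) ^ 2 := by
  set R : Polynomial ℂ := Q.map (algebraMap ℤ ℂ) with hR
  have hRm : R.Monic := hm.map _
  have hRd : R.natDegree = 2 := by rw [hR, hm.natDegree_map, hd]
  have hsp : R.Splits := IsAlgClosed.splits R
  have h1 := hsp.coeff_zero_eq_prod_roots_of_monic hRm
  have h2 : R.roots = Q.aroots ℂ := rfl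
  have hcard : Multiset.card R.roots = 2 := by rw [← hsp.natDegree_eq_card_roots, hRd]
  rw [hRd] at h1
  have h3 : R.coeff 0 = ((Q.coeff 0 : ℤ) : ℂ) := by
    rw [hR, Polynomial.coeff_map]
    rfl
  obtain ⟨a, b, hab⟩ := Multiset.card_eq_two.1 hcard
  have ha : ‖a‖ ^ 2 = (c : ℝ) := hp a (by rw [← h2, hab]; simp)
  have hb : ‖b‖ ^ 2 = (c : ℝ) := hp b (by rw [← h2, hab]; simp)
  rw [hab, h3] at h1
  have h4 : ((Q.coeff 0 : ℤ) : ℂ) = a * b := by
    rw [h1]
    simp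
  have h5 : (((Q.coeff 0 : ℤ) : ℝ)) ^ 2 = (c : ℝ) ^ 2 := by
    have h6 : ‖((Q.coeff 0 : ℤ) : ℂ)‖ ^ 2 = (c : ℝ) ^ 2 := by
      rw [h4, norm_mul, mul_pow, ha, hb, sq]
    rw [Complex.norm_intCast, sq_abs] at h6
    exact h6
  exact_mod_cast h5

end FP

theorem fp : S_FP := by
  intro F _ S w T hT p hp hpS P hP hpP m z hz
  obtain ⟨s, hs⟩ := FP.exists_frobF (F := F) hp hP hpP
  obtain ⟨f, hf, hf'⟩ := resCard_pow (F := F) hp hP hpP
  obtain ⟨m', hm'⟩ := dvd_of_frob hp hP hpP hf' z.2 hz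
  have hmax : (P.under (𝓞 F)).IsMaximal := under_max hP
  have hpm : (p : 𝓞 F) ∈ P.under (𝓞 F) := by
    rw [mem_under, map_natCast]
    exact hpP
  have hgood := hT.good p hp hpS _ hmax hpm
  -- the inertia part
  have h2 : IsGeomFrob (p ^ m) P ((s : GQ) ^ m') := by
    have h3 := geom_pow hs m'
    rwa [hf', ← pow_mul, ← hm'] at h3
  have h4 : InInertia P (((s : GQ) ^ m')⁻¹ * (z : GQ)) :=
    geom_unique hP (pow_ne_zero _ hp.ne_zero) h2 hz (fun x y h => frob_inj hp hP hpP _ x y h)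
  set Q : Polynomial ℤ := T.poly (P.under (𝓞 F)) with hQ
  refine ⟨FP.tseq (-Q.coeff 1) (Q.coeff 0) m', (Q.coeff 0) ^ m', ?_, ?_⟩
  · have h5 : Q.coeff 0 ^ 2 = (((p ^ f) ^ w : ℕ) : ℤ) ^ 2 := by
      refine FP.coeff_sq Q hgood.monic hgood.natDegree ((p ^ f) ^ w) fun y hy => ?_
      have h6 := hgood.pure y hy
      have h7 : Nat.card (𝓞 F ⧸ P.under (𝓞 F)) = p ^ f := hf'
      rw [h6, h7]
      push_cast
      rfl
    calc (Q.coeff 0 ^ m') ^ 2 = (Q.coeff 0 ^ 2) ^ m' := by ring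
      _ = ((((p ^ f) ^ w : ℕ) : ℤ) ^ 2) ^ m' := by rw [h5]
      _ = ((p : ℤ) ^ m) ^ (2 * w) := by
          rw [hm']
          push_cast
          ring
  · intro ℓ _ hℓ
    have h6 : T.rho ℓ ((s ^ m')⁻¹ * z) = 1 :=
      hgood.unramified ℓ hℓ P hP rfl ((s ^ m')⁻¹ * z) h4
    have h7 : T.rho ℓ z = T.rho ℓ s ^ m' := by
      rw [map_mul, map_inv, map_pow, inv_mul_eq_one] at h6
      exact h6.symm
    have h8 := hgood.frobenius ℓ hℓ P hP rfl s hs
    obtain ⟨h9, h10⟩ := FP.of_charpoly _ Q h8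
    rw [h7, Units.val_pow_eq_pow_val]
    refine ⟨(FP.trace_pow _ h9 h10 m').1, ?_⟩
    rw [Matrix.det_pow, h10]
    push_cast
    rfl

end Pool.Agent.H858.RU
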