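import Pool.Agent.H858.RU.Spec

/-!
# `S_GRS`: Goursat's lemma for adjoint representations
-/

set_option autoImplicit false

namespace Pool.Agent.H858.RU

namespace GRS

section matrices

variable {K : Type} [Field K]

theorem isSc_smul_one (c : K) : IsSc (c • (1 : Mat K)) := ⟨c, rfl⟩

theorem isSc_add {A B : Mat K} (hA : IsSc A) (hB : IsSc B) : IsSc (A + B) := by
  obtain ⟨a, rfl⟩ := hA
  obtain ⟨b, rfl⟩ := hB
  exact ⟨a + b, by rw [add_smul]⟩

theorem isSc_smul {A : Mat K} (hA : IsSc A) (c : K) : IsSc (c • A) := by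
  obtain ⟨a, rfl⟩ := hA
  exact ⟨c * a, by rw [smul_smul]⟩

theorem isSc_conj {A m m' : Mat K} (hA : IsSc A) (h : m * m' = 1) : IsSc (m * A * m') := by
  obtain ⟨a, rfl⟩ := hA
  exact ⟨a, by rw [Algebra.mul_smul_comm, Algebra.smul_mul_assoc, mul_one, h]⟩

theorem cayley (m : Mat K) : m * m = m.trace • m - m.det • (1 : Mat K) := by
  ext i j
  fin_cases i <;> fin_cases j <;>
    simp [Matrix.mul_apply, Fin.sum_univ_two, Matrix.trace_fin_two, Matrix.det_fin_two] <;> ring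

/-- the polynomial which annihilates the conjugation with `m` -/
theorem conj_poly (m m' X : Mat K) (h : m * m' = 1) (h' : m' * m = 1) :
    m.det • (m * (m * (m * X * m') * m') * m') -
      (m.trace ^ 2 - m.det) • (m * (m * X * m') * m') +
      (m.trace ^ 2 - m.det) • (m * X * m') - m.det • X = 0 := by
  set s := m.trace with hs
  set d := m.det with hd
  have hc : m * m = s • m - d • (1 : Mat K) := cayley m
  have c1 : ∀ Y : Mat K, m' * (m * Y) = Y := fun Y => by rw [← mul_assoc, h', one_mul]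
  have c2 : ∀ Y : Mat K, m * (m' * Y) = Y := fun Y => by rw [← mul_assoc, h, one_mul]
  have e4 : m * (m * m) = (s ^ 2 - d) • m - (s * d) • (1 : Mat K) := by
    rw [hc, mul_sub, Algebra.mul_smul_comm, Algebra.mul_smul_comm, hc, mul_one]
    module
  have e5 : ∀ Y : Mat K, m * (m * Y) = s • (m * Y) - d • Y := fun Y => by
    rw [← mul_assoc, hc, sub_mul, Algebra.smul_mul_assoc, Algebra.smul_mul_assoc, one_mul]
  have key : (d • (m * (m * (m * X * m') * m') * m') - (s ^ 2 - d) • (m * (m * X * m') * m') +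
      (s ^ 2 - d) • (m * X * m') - d • X) * (m * (m * m)) = 0 := by
    simp only [sub_mul, add_mul, Algebra.smul_mul_assoc, mul_assoc, h', c1, mul_one]
    rw [e4, hc]
    simp only [mul_sub, Algebra.mul_smul_comm, mul_one, e5, smul_sub]
    module
  have h3 : m * (m * m) * (m' * (m' * m')) = 1 := by
    simp only [mul_assoc, c2, h]
  set E := d • (m * (m * (m * X * m') * m') * m') - (s ^ 2 - d) • (m * (m * X * m') * m') +
      (s ^ 2 - d) • (m * X * m') - d • X with hE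
  calc E = E * (m * (m * m) * (m' * (m' * m'))) := by rw [h3, mul_one]
    _ = E * (m * (m * m)) * (m' * (m' * m')) := by rw [← mul_assoc E]
    _ = 0 := by rw [key, zero_mul]

theorem comm_scalar (m : Mat K) (h : ∀ Z : Mat K, m * Z = Z * m) : m.trace ^ 2 = 4 * m.det := by
  have h1 := h !![0, 1; 0, 0]
  have h2 := h !![0, 0; 1, 0]
  have a1 := congrFun (congrFun h1 0) 1
  have a2 := congrFun (congrFun h1 0) 0
  have a3 := congrFun (congrFun h2 0) 0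
  simp [Matrix.mul_apply, Fin.sum_univ_two] at a1 a2 a3
  rw [Matrix.trace_fin_two, Matrix.det_fin_two, a1]
  rw [← a2, a3] at *
  ring

theorem isSc_sub {A B : Mat K} (hA : IsSc A) (hB : IsSc B) : IsSc (A - B) := by
  obtain ⟨a, rfl⟩ := hA
  obtain ⟨b, rfl⟩ := hB
  exact ⟨a - b, by rw [sub_smul]⟩

theorem isSc_zero : IsSc (0 : Mat K) := ⟨0, by rw [zero_smul]⟩

theorem eq_zero_of_trace (h2 : (2 : K) ≠ 0) {A : Mat K} (hA : IsSc A) (ht : A.trace = 0) :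
    A = 0 := by
  obtain ⟨c, rfl⟩ := hA
  rw [Matrix.trace_smul, Matrix.trace_one, Fintype.card_fin, smul_eq_mul] at ht
  rcases mul_eq_zero.1 ht with h | h
  · rw [h, zero_smul]
  · exact absurd (by exact_mod_cast h) h2

theorem trace_conj {m m' : Mat K} (X : Mat K) (h' : m' * m = 1) :
    (m * X * m' - X).trace = 0 := by
  rw [Matrix.trace_sub, Matrix.trace_mul_comm, ← mul_assoc, h', one_mul, sub_self]

theorem comm_of_conj {m m' X : Mat K} (h' : m' * m = 1) (h : m * X * m' = X) :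
    m * X = X * m := by
  calc m * X = m * X * (m' * m) := by rw [h', mul_one]
    _ = m * X * m' * m := by rw [← mul_assoc]
    _ = X * m := by rw [h]

theorem lin_aux (d₀ d₁ s₀ s₁ : K) (X0 X1 X2 X3 : Mat K) :
    (d₁ * s₀ ^ 2 - d₀ * s₁ ^ 2) • (X2 - X1) =
      d₀ • (d₁ • X3 - (s₁ ^ 2 - d₁) • X2 + (s₁ ^ 2 - d₁) • X1 - d₁ • X0) -
      d₁ • (d₀ • X3 - (s₀ ^ 2 - d₀) • X2 + (s₀ ^ 2 - d₀) • X1 - d₀ • X0) := by
  module

variable {G : Type} [Group G] {I : Type} (m : I → G → Mat K)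

/-- the elements of `W` which are scalar in the places of `D` -/
def sub (W : Submodule K (I → Mat K)) (D : Finset I) : Submodule K (I → Mat K) where
  carrier := {X | X ∈ W ∧ ∀ q ∈ D, IsSc (X q)}
  add_mem' := fun {_ _} ha hb => ⟨W.add_mem ha.1 hb.1, fun q hq => isSc_add (ha.2 q hq) (hb.2 q hq)⟩
  zero_mem' := ⟨W.zero_mem, fun _ _ => isSc_zero⟩
  smul_mem' := fun c _ ha => ⟨W.smul_mem c ha.1, fun q hq => isSc_smul (ha.2 q hq) c⟩

theorem mem_sub {W : Submodule K (I → Mat K)} {D : Finset I} {X : I → Mat K} :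
    X ∈ sub W D ↔ X ∈ W ∧ ∀ q ∈ D, IsSc (X q) := Iff.rfl

theorem sub_stable {W : Submodule K (I → Mat K)} (hm : ∀ q g, m q g * m q g⁻¹ = 1)
    (hW : ∀ h : G, ∀ X ∈ W, (fun q => m q h * X q * m q h⁻¹) ∈ W) (D : Finset I) (h : G)
    (X : I → Mat K) (hX : X ∈ sub W D) : (fun q => m q h * X q * m q h⁻¹) ∈ sub W D :=
  ⟨hW h X hX.1, fun q hq => isSc_conj (hX.2 q hq) (hm q h)⟩

theorem surj {W : Submodule K (I → Mat K)} (hm : ∀ q g, m q g * m q g⁻¹ = 1)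
    (hW : ∀ h : G, ∀ X ∈ W, (fun q => m q h * X q * m q h⁻¹) ∈ W)
    (hirr : ∀ (q : I) (V : Submodule K (Mat K)), (∀ g : G, ∀ X ∈ V, m q g * X * m q g⁻¹ ∈ V) →
      (∃ X ∈ V, ¬ IsSc X) → V ⊔ Submodule.span K {(1 : Mat K)} = ⊤)
    (D : Finset I) (q : I) (hX : ∃ X ∈ sub W D, ¬ IsSc (X q)) (Z : Mat K) :
    ∃ X ∈ sub W D, ∃ c : K, X q + c • (1 : Mat K) = Z := by
  have h := hirr q ((sub W D).map (LinearMap.proj q)) (by
    rintro g _ ⟨X, hX, rfl⟩
    exact ⟨_, sub_stable m hm hW D g X hX, rfl⟩) (by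
    obtain ⟨X, hX, hn⟩ := hX
    exact ⟨_, ⟨X, hX, rfl⟩, hn⟩)
  have hZ : Z ∈ (sub W D).map (LinearMap.proj q) ⊔ Submodule.span K {(1 : Mat K)} := by
    rw [h]
    exact Submodule.mem_top
  obtain ⟨y, hy, z, hz, rfl⟩ := Submodule.mem_sup.1 hZ
  obtain ⟨X, hX, rfl⟩ := hy
  obtain ⟨c, rfl⟩ := Submodule.mem_span_singleton.1 hz
  exact ⟨X, hX, c, rfl⟩

theorem step (h2 : (2 : K) ≠ 0) {W : Submodule K (I → Mat K)}
    (hm : ∀ q g, m q g * m q g⁻¹ = 1)
    (hW : ∀ h : G, ∀ X ∈ W, (fun q => m q h * X q * m q h⁻¹) ∈ W)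
    (hirr : ∀ (q : I) (V : Submodule K (Mat K)), (∀ g : G, ∀ X ∈ V, m q g * X * m q g⁻¹ ∈ V) →
      (∃ X ∈ V, ¬ IsSc X) → V ⊔ Submodule.span K {(1 : Mat K)} = ⊤)
    [DecidableEq I] (D : Finset I) (q₀ q₁ : I) (h0 : ∃ X ∈ sub W D, ¬ IsSc (X q₀))
    (hs : ¬ ∀ g, (m q₁ g).trace ^ 2 * (m q₀ g).det = (m q₀ g).trace ^ 2 * (m q₁ g).det) :
    ∃ X ∈ sub W (insert q₁ D), ¬ IsSc (X q₀) := by
  by_contra hcon
  have hst : ∀ X ∈ sub W D, IsSc (X q₁) → IsSc (X q₀) := by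
    intro X hX h1
    by_contra hn
    exact hcon ⟨X, ⟨hX.1, fun q hq => by
      rcases Finset.mem_insert.1 hq with rfl | hq
      · exact h1
      · exact hX.2 q hq⟩, hn⟩
  have hst' : ∀ X ∈ sub W D, IsSc (X q₀) → IsSc (X q₁) := by
    intro X hX h1
    by_contra hn
    obtain ⟨Y₀, hY₀, hnY⟩ := h0
    obtain ⟨Y, hY, c, hc⟩ := surj m hm hW hirr (insert q₀ D) q₁ ⟨X, ⟨hX.1, fun q hq => by
      rcases Finset.mem_insert.1 hq with rfl | hq
      · exact h1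
      · exact hX.2 q hq⟩, hn⟩ (Y₀ q₁)
    have hYD : Y ∈ sub W D := ⟨hY.1, fun q hq => hY.2 q (Finset.mem_insert_of_mem hq)⟩
    have h3 : IsSc ((Y₀ - Y) q₀) := by
      refine hst _ ((sub W D).sub_mem hY₀ hYD) ?_
      refine ⟨c, ?_⟩
      rw [Pi.sub_apply, ← hc]
      abel
    apply hnY
    have h4 := isSc_add h3 (hY.2 q₀ (Finset.mem_insert_self _ _))
    rwa [Pi.sub_apply, sub_add_cancel] at h4
  have hm' : ∀ q g, m q g⁻¹ * m q g = 1 := fun q g => by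
    have := hm q g⁻¹
    rwa [inv_inv] at this
  push Not at hs
  obtain ⟨g, hg⟩ := hs
  set s₀ := (m q₀ g).trace with hs₀
  set s₁ := (m q₁ g).trace with hs₁
  set d₀ := (m q₀ g).det with hd₀
  set d₁ := (m q₁ g).det with hd₁
  have hA := fun X hX => sub_stable m hm hW D g X hX
  have hfix : ∀ X ∈ sub W D, m q₀ g * X q₀ * m q₀ g⁻¹ = X q₀ := by
    intro X hX
    have hX1 := hA X hX
    have hX2 := hA _ hX1
    have hX3 := hA _ hX2
    have p1 := conj_poly (m q₁ g) (m q₁ g⁻¹) (X q₁) (hm q₁ g) (hm' q₁ g)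
    have p0 := conj_poly (m q₀ g) (m q₀ g⁻¹) (X q₀) (hm q₀ g) (hm' q₀ g)
    rw [← hs₁, ← hd₁] at p1
    rw [← hs₀, ← hd₀] at p0
    have hY := (sub W D).sub_mem ((sub W D).add_mem ((sub W D).sub_mem
      ((sub W D).smul_mem d₁ hX3) ((sub W D).smul_mem (s₁ ^ 2 - d₁) hX2))
      ((sub W D).smul_mem (s₁ ^ 2 - d₁) hX1)) ((sub W D).smul_mem d₁ hX)
    have hY0 := hst _ hY (by
      simp only [Pi.sub_apply, Pi.add_apply, Pi.smul_apply]
      rw [p1]
      exact isSc_zero)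
    simp only [Pi.sub_apply, Pi.add_apply, Pi.smul_apply] at hY0
    set X1 := m q₀ g * X q₀ * m q₀ g⁻¹ with hX1d
    set X2 := m q₀ g * X1 * m q₀ g⁻¹ with hX2d
    set X3 := m q₀ g * X2 * m q₀ g⁻¹ with hX3d
    have hk : d₁ * s₀ ^ 2 - d₀ * s₁ ^ 2 ≠ 0 := by
      intro h
      apply hg
      linear_combination (-1 : K) * h
    have e1 : X2 - X1 = (d₁ * s₀ ^ 2 - d₀ * s₁ ^ 2)⁻¹ •
        (d₀ • (d₁ • X3 - (s₁ ^ 2 - d₁) • X2 + (s₁ ^ 2 - d₁) • X1 - d₁ • X q₀)) := by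
      rw [eq_inv_smul_iff₀ hk]
      rw [lin_aux d₀ d₁ s₀ s₁ (X q₀) X1 X2 X3, p0, smul_zero, sub_zero]
    have e2 : IsSc (X2 - X1) := by
      rw [e1]
      exact isSc_smul (isSc_smul hY0 _) _
    have e3 : X1 - X q₀ = m q₀ g⁻¹ * (X2 - X1) * m q₀ g := by
      have : X2 - X1 = m q₀ g * (X1 - X q₀) * m q₀ g⁻¹ := by
        rw [mul_sub, sub_mul]
      rw [this]
      simp only [mul_assoc, hm', mul_one]
      rw [← mul_assoc, hm', one_mul]
    have e4 : IsSc (X1 - X q₀) := by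
      rw [e3]
      exact isSc_conj e2 (hm' q₀ g)
    exact sub_eq_zero.1 (eq_zero_of_trace h2 e4 (trace_conj _ (hm' q₀ g)))
  have hc0 : s₀ ^ 2 = 4 * d₀ := by
    apply comm_scalar
    intro Z
    obtain ⟨X, hX, c, rfl⟩ := surj m hm hW hirr D q₀ h0 Z
    rw [mul_add, add_mul, comm_of_conj (hm' q₀ g) (hfix X hX), Algebra.mul_smul_comm,
      Algebra.smul_mul_assoc, mul_one, one_mul]
  have hfix1 : ∀ X ∈ sub W D, m q₁ g * X q₁ * m q₁ g⁻¹ = X q₁ := by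
    intro X hX
    have h3 := hst' _ ((sub W D).sub_mem (hA X hX) hX) (by
      simp only [Pi.sub_apply]
      rw [hfix X hX, sub_self]
      exact isSc_zero)
    simp only [Pi.sub_apply] at h3
    exact sub_eq_zero.1 (eq_zero_of_trace h2 h3 (trace_conj _ (hm' q₁ g)))
  have hc1 : s₁ ^ 2 = 4 * d₁ := by
    apply comm_scalar
    intro Z
    obtain ⟨X, hX, c, rfl⟩ := surj m hm hW hirr D q₁ (by
      obtain ⟨X, hX, hn⟩ := h0
      exact ⟨X, hX, fun h => hn (hst X hX h)⟩) Z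
    rw [mul_add, add_mul, comm_of_conj (hm' q₁ g) (hfix1 X hX), Algebra.mul_smul_comm,
      Algebra.smul_mul_assoc, mul_one, one_mul]
  apply hg
  rw [hc0, hc1]
  ring

theorem main (h2 : (2 : K) ≠ 0) {W : Submodule K (I → Mat K)}
    (hm : ∀ q g, m q g * m q g⁻¹ = 1)
    (hW : ∀ h : G, ∀ X ∈ W, (fun q => m q h * X q * m q h⁻¹) ∈ W)
    (hirr : ∀ (q : I) (V : Submodule K (Mat K)), (∀ g : G, ∀ X ∈ V, m q g * X * m q g⁻¹ ∈ V) →
      (∃ X ∈ V, ¬ IsSc X) → V ⊔ Submodule.span K {(1 : Mat K)} = ⊤)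
    [DecidableEq I] (q₀ : I) (h0 : ∃ X ∈ W, ¬ IsSc (X q₀)) (D : Finset I)
    (hD : ∀ q ∈ D,
      ¬ ∀ g, (m q g).trace ^ 2 * (m q₀ g).det = (m q₀ g).trace ^ 2 * (m q g).det) :
    ∃ X ∈ sub W D, ¬ IsSc (X q₀) := by
  induction D using Finset.induction_on with
  | empty =>
    obtain ⟨X, hX, hn⟩ := h0
    exact ⟨X, ⟨hX, fun q hq => absurd hq (Finset.notMem_empty q)⟩, hn⟩
  | insert q D hq ih =>
    exact step m h2 hm hW hirr D q₀ q (ih fun q' hq' => hD q' (Finset.mem_insert_of_mem hq'))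
      (hD q (Finset.mem_insert_self q D))

end matrices

end GRS

theorem grs : S_GRS := by
  intro p _ G _ I _ _ ρ W hW hirr hns C q₀ hq₀ hC
  have hm : ∀ q g, mt (ρ q) g * mt (ρ q) g⁻¹ = 1 := fun q g => by
    unfold mt
    rw [← Matrix.map_mul, ← Units.val_mul, ← map_mul, mul_inv_cancel, map_one, Units.val_one,
      Matrix.map_one _ (map_zero _) (map_one _)]
  have h2 : (2 : ℚ_[p]) ≠ 0 := two_ne_zero
  have h := GRS.main (fun q g => mt (ρ q) g) h2 hm hW hirr q₀ (hns q₀) (Finset.univ \ C)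
    (fun q hq => hC q (Finset.mem_sdiff.1 hq).2)
  obtain ⟨X, hX, c, hc⟩ := GRS.surj (fun q g => mt (ρ q) g) hm hW hirr (Finset.univ \ C) q₀ h
    (Matrix.diagonal ![1, -1])
  refine ⟨X, hX.1, fun q hq => hX.2 q (Finset.mem_sdiff.2 ⟨Finset.mem_univ q, hq⟩), -c, ?_⟩
  rw [← hc]
  module

end Pool.Agent.H858.RU
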