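import Pool.Agent.H858.RU.Spec

/-!
# Intertwining of two representations with the same `tr² / det` (helper323)
-/

set_option autoImplicit false

namespace Pool.Agent.H858.RU

open Module Matrix

namespace INTW

variable {p : ℕ} [Fact p.Prime] {G : Type} [Group G]

theorem mt_apply (ρ : G →* GL (Fin 2) ℤ_[p]) (g : G) (i j : Fin 2) :
    mt ρ g i j = ((ρ g : Matrix (Fin 2) (Fin 2) ℤ_[p]) i j : ℚ_[p]) := rfl

theorem mt_mul (ρ : G →* GL (Fin 2) ℤ_[p]) (g h : G) : mt ρ (g * h) = mt ρ g * mt ρ h := by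
  unfold mt
  rw [map_mul, Units.val_mul, Matrix.map_mul]

theorem mt_one (ρ : G →* GL (Fin 2) ℤ_[p]) : mt ρ 1 = 1 := by
  unfold mt
  rw [map_one, Units.val_one, Matrix.map_one _ (map_zero _) (map_one _)]

theorem mt_det_ne (ρ : G →* GL (Fin 2) ℤ_[p]) (g : G) : (mt ρ g).det ≠ 0 := by
  intro h
  have h1 : (mt ρ g * mt ρ g⁻¹).det = 1 := by
    rw [← mt_mul, mul_inv_cancel, mt_one, Matrix.det_one]
  rw [Matrix.det_mul, h, zero_mul] at h1
  exact zero_ne_one h1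

/-- `p^(-3) < ‖2‖ ^ 2` -/
theorem small : ((p : ℝ) ^ 3)⁻¹ < ‖(2 : ℚ_[p])‖ ^ 2 := by
  have hp : p.Prime := Fact.out
  by_cases h2 : p = 2
  · subst h2
    have h3 : ‖((2 : ℕ) : ℚ_[2])‖ = ((2 : ℕ) : ℝ)⁻¹ := Padic.norm_p
    have h4 : ‖(2 : ℚ_[2])‖ = (2 : ℝ)⁻¹ := by exact_mod_cast h3
    rw [h4]
    norm_num
  · have h3 : ‖((2 : ℕ) : ℚ_[p])‖ = 1 := by
      rw [Padic.norm_natCast_eq_one_iff]
      rw [Nat.coprime_primes hp Nat.prime_two]
      exact h2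
    have h4 : ‖(2 : ℚ_[p])‖ = 1 := by exact_mod_cast h3
    rw [h4, one_pow]
    apply inv_lt_one_of_one_lt₀
    exact one_lt_pow₀ (by exact_mod_cast hp.one_lt) (by norm_num)

theorem two_le : ‖(2 : ℚ_[p])‖ ≤ 1 := by
  have h := Padic.norm_int_le_one (p := p) 2
  exact_mod_cast h

theorem two_pos : 0 < ‖(2 : ℚ_[p])‖ := norm_pos_iff.2 two_ne_zero

theorem small' : ((p : ℝ) ^ 3)⁻¹ < ‖(2 : ℚ_[p])‖ :=
  small.trans_le (by
    rw [sq]
    exact mul_le_of_le_one_left (norm_nonneg _) two_le)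

/-- the congruence subgroup -/
noncomputable def cong (ρ : G →* GL (Fin 2) ℤ_[p]) : Subgroup G :=
  ((Matrix.GeneralLinearGroup.map (PadicInt.toZModPow (p := p) 3)).comp ρ).ker

theorem mem_cong {ρ : G →* GL (Fin 2) ℤ_[p]} {g : G} : g ∈ cong ρ ↔
    ∀ i j, ‖(ρ g : Matrix (Fin 2) (Fin 2) ℤ_[p]) i j - (1 : Matrix (Fin 2) (Fin 2) ℤ_[p]) i j‖ ≤
      (p : ℝ) ^ (-(3 : ℕ) : ℤ) := by
  have h1 : g ∈ cong ρ ↔ ∀ i j, PadicInt.toZModPow 3 ((ρ g : Matrix (Fin 2) (Fin 2) ℤ_[p]) i j) =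
      PadicInt.toZModPow 3 ((1 : Matrix (Fin 2) (Fin 2) ℤ_[p]) i j) := by
    unfold cong
    rw [MonoidHom.mem_ker]
    constructor
    · intro h i j
      have h2 := congrArg (fun A : GL (Fin 2) (ZMod (p ^ 3)) =>
        (A : Matrix (Fin 2) (Fin 2) (ZMod (p ^ 3))) i j) h
      have h3 : PadicInt.toZModPow 3 ((ρ g : Matrix (Fin 2) (Fin 2) ℤ_[p]) i j) =
        (1 : Matrix (Fin 2) (Fin 2) (ZMod (p ^ 3))) i j := h2
      rw [h3, Matrix.one_apply, Matrix.one_apply]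
      split_ifs
      · exact (map_one _).symm
      · exact (map_zero _).symm
    · intro h
      apply Units.ext
      ext i j
      show PadicInt.toZModPow 3 ((ρ g : Matrix (Fin 2) (Fin 2) ℤ_[p]) i j) =
        (1 : Matrix (Fin 2) (Fin 2) (ZMod (p ^ 3))) i j
      rw [h, Matrix.one_apply, Matrix.one_apply]
      split_ifs
      · exact map_one _
      · exact map_zero _
  rw [h1]
  refine forall_congr' fun i => forall_congr' fun j => ?_
  rw [PadicInt.norm_le_pow_iff_mem_span_pow, ← PadicInt.ker_toZModPow, RingHom.mem_ker, map_sub,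
    sub_eq_zero]

theorem cong_open [TopologicalSpace G] (ρ : G →* GL (Fin 2) ℤ_[p])
    (hρ : Continuous fun g => (ρ g : Matrix (Fin 2) (Fin 2) ℤ_[p])) :
    IsOpen (cong ρ : Set G) := by
  have h1 : (cong ρ : Set G) = ⋂ i : Fin 2, ⋂ j : Fin 2,
      (fun g => (ρ g : Matrix (Fin 2) (Fin 2) ℤ_[p]) i j -
        (1 : Matrix (Fin 2) (Fin 2) ℤ_[p]) i j) ⁻¹'
        Metric.closedBall 0 ((p : ℝ) ^ (-(3 : ℕ) : ℤ)) := by
    ext g
    simp only [SetLike.mem_coe, mem_cong, Set.mem_iInter, Set.mem_preimage,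
      mem_closedBall_zero_iff]
  rw [h1]
  refine isOpen_iInter_of_finite fun i => isOpen_iInter_of_finite fun j => ?_
  refine IsOpen.preimage ?_ (IsUltrametricDist.isOpen_closedBall _ ?_)
  · exact ((hρ.matrix_elem i j).sub continuous_const)
  · have hp : p.Prime := Fact.out
    exact (zpow_pos (by exact_mod_cast hp.pos) _).ne'

theorem tr_cong {ρ : G →* GL (Fin 2) ℤ_[p]} {g : G} (hg : g ∈ cong ρ) :
    ‖(mt ρ g).trace - 2‖ ≤ ((p : ℝ) ^ 3)⁻¹ := by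
  rw [mem_cong] at hg
  have e : (mt ρ g).trace - 2 =
      (((ρ g : Matrix (Fin 2) (Fin 2) ℤ_[p]) 0 0 - 1 : ℤ_[p]) : ℚ_[p]) +
        (((ρ g : Matrix (Fin 2) (Fin 2) ℤ_[p]) 1 1 - 1 : ℤ_[p]) : ℚ_[p]) := by
    rw [Matrix.trace_fin_two, mt_apply, mt_apply]
    push_cast
    ring
  have h0 := hg 0 0
  have h1 := hg 1 1
  rw [Matrix.one_apply_eq] at h0 h1
  have e2 : (p : ℝ) ^ (-(3 : ℕ) : ℤ) = ((p : ℝ) ^ 3)⁻¹ := by
    rw [_root_.zpow_neg, zpow_natCast]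
  rw [e2] at h0 h1
  rw [e]
  refine (Padic.nonarchimedean _ _).trans (max_le ?_ ?_)
  · rw [← PadicInt.norm_def]; exact h0
  · rw [← PadicInt.norm_def]; exact h1

theorem tr_norm {ρ : G →* GL (Fin 2) ℤ_[p]} {g : G} (hg : g ∈ cong ρ) :
    ‖(mt ρ g).trace‖ = ‖(2 : ℚ_[p])‖ := by
  have h1 := (tr_cong hg).trans_lt small'
  have h2 : (mt ρ g).trace = ((mt ρ g).trace - 2) + 2 := by ring
  rw [h2]
  rw [Padic.add_eq_max_of_ne h1.ne, max_eq_right h1.le]

/-- irreducibility from spanning -/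
theorem irr_of_span {k : Type} [Field k] {U : Type} [Group U] (σ : U →* GL (Fin 2) k)
    (h : Submodule.span k {A : Matrix (Fin 2) (Fin 2) k | ∃ g, A = (σ g : Matrix _ _ k)} = ⊤)
    (W : Submodule k (Fin 2 → k)) (hW : Pool.Agent.Y800.Stable σ W) : W = ⊥ ∨ W = ⊤ := by
  have hst : ∀ A : Matrix (Fin 2) (Fin 2) k, ∀ w ∈ W, A.mulVec w ∈ W := by
    intro A w hw
    have hA : A ∈ Submodule.span k {A : Matrix (Fin 2) (Fin 2) k |
        ∃ g, A = (σ g : Matrix _ _ k)} := by rw [h]; trivial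
    induction hA using Submodule.span_induction with
    | mem x hx =>
      obtain ⟨g, rfl⟩ := hx
      exact hW g w hw
    | zero => rw [Matrix.zero_mulVec]; exact W.zero_mem
    | add x y _ _ hx hy => rw [Matrix.add_mulVec]; exact W.add_mem hx hy
    | smul c x _ hx => rw [Matrix.smul_mulVec]; exact W.smul_mem c hx
  by_cases hb : W = ⊥
  · exact Or.inl hb
  right
  obtain ⟨w, hw, hw0⟩ := Submodule.exists_mem_ne_zero_of_ne_bot hb
  obtain ⟨i, hi⟩ : ∃ i, w i ≠ 0 := by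
    by_contra hcon
    push Not at hcon
    exact hw0 (funext hcon)
  rw [Submodule.eq_top_iff']
  intro v
  have h1 := hst (Matrix.of fun a b => if b = i then v a * (w i)⁻¹ else 0) w hw
  have h2 : (Matrix.of fun a b => if b = i then v a * (w i)⁻¹ else 0).mulVec w = v := by
    funext a
    rw [Matrix.mulVec, dotProduct]
    simp only [Matrix.of_apply, ite_mul, zero_mul, Finset.sum_ite_eq', Finset.mem_univ, if_true]
    rw [mul_assoc, inv_mul_cancel₀ hi, mul_one]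
  rwa [h2] at h1

end INTW

open INTW in
theorem intw : S_INTW := by
  intro p _ G _ _ _ ρ ρ' hρ hρ' hS hS' hsim
  obtain ⟨U, hU⟩ : ∃ U : Subgroup G, U = cong ρ ⊓ cong ρ' := ⟨_, rfl⟩
  have hUo : IsOpen (U : Set G) := by
    rw [hU]
    exact (cong_open ρ hρ).inter (cong_open ρ' hρ')
  have hU1 : ∀ g ∈ U, g ∈ cong ρ := fun g hg => by rw [hU] at hg; exact hg.1
  have hU2 : ∀ g ∈ U, g ∈ cong ρ' := fun g hg => by rw [hU] at hg; exact hg.2
  have htr0 : ∀ g ∈ U, (mt ρ g).trace ≠ 0 := by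
    intro g hg h
    have h1 := tr_norm (hU1 g hg)
    rw [h, norm_zero] at h1
    exact two_pos.ne h1
  obtain ⟨ν, hν⟩ : ∃ ν : G → ℚ_[p], ∀ g, ν g = (mt ρ' g).trace / (mt ρ g).trace :=
    ⟨_, fun g => rfl⟩
  have hν1 : ∀ g ∈ U, ‖ν g - 1‖ < ‖(2 : ℚ_[p])‖ := by
    intro g hg
    have e : ν g - 1 = ((mt ρ' g).trace - 2 + -((mt ρ g).trace - 2)) / (mt ρ g).trace := by
      rw [hν, div_sub_one (htr0 g hg)]
      congr 1
      ring
    rw [e, norm_div, tr_norm (hU1 g hg), div_lt_iff₀ two_pos, ← sq]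
    refine lt_of_le_of_lt (Padic.nonarchimedean _ _) (lt_of_le_of_lt (max_le ?_ ?_) small)
    · exact tr_cong (hU2 g hg)
    · rw [norm_neg]; exact tr_cong (hU1 g hg)
  have hνn : ∀ g ∈ U, ‖ν g‖ ≤ 1 := by
    intro g hg
    have e : ν g = (ν g - 1) + 1 := by ring
    rw [e]
    refine (Padic.nonarchimedean _ _).trans (max_le ((hν1 g hg).le.trans two_le) ?_)
    rw [norm_one]
  have hνsq : ∀ g ∈ U, ν g ^ 2 * (mt ρ g).det = (mt ρ' g).det := by
    intro g hg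
    have h1 := hsim g
    have h2 := htr0 g hg
    rw [hν, div_pow, div_mul_eq_mul_div, div_eq_iff (pow_ne_zero 2 h2), mul_comm (mt ρ' g).det]
    exact h1.symm
  have hνmul : ∀ g ∈ U, ∀ h ∈ U, ν (g * h) = ν g * ν h := by
    intro g hg h hh
    have h1 := hνsq (g * h) (U.mul_mem hg hh)
    rw [mt_mul, mt_mul, Matrix.det_mul, Matrix.det_mul, ← hνsq g hg, ← hνsq h hh] at h1
    have h2 : ν (g * h) ^ 2 = (ν g * ν h) ^ 2 := by
      have h3 : (ν (g * h) ^ 2 - (ν g * ν h) ^ 2) * ((mt ρ g).det * (mt ρ h).det) = 0 := by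
        linear_combination h1
      rcases mul_eq_zero.1 h3 with h4 | h4
      · exact sub_eq_zero.1 h4
      · exact absurd h4 (mul_ne_zero (mt_det_ne ρ g) (mt_det_ne ρ h))
    rcases sq_eq_sq_iff_eq_or_eq_neg.1 h2 with h3 | h3
    · exact h3
    · exfalso
      have h4 : (2 : ℚ_[p]) = -((ν (g * h) - 1) + ((ν g - 1) * ν h + (ν h - 1))) := by
        rw [h3]; ring
      have h5 : ‖(2 : ℚ_[p])‖ < ‖(2 : ℚ_[p])‖ := by
        conv_lhs => rw [h4]
        rw [norm_neg]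
        refine lt_of_le_of_lt (Padic.nonarchimedean _ _) (max_lt ?_ ?_)
        · exact hν1 _ (U.mul_mem hg hh)
        · refine lt_of_le_of_lt (Padic.nonarchimedean _ _) (max_lt ?_ (hν1 h hh))
          rw [norm_mul]
          exact lt_of_le_of_lt (mul_le_of_le_one_right (norm_nonneg _) (hνn h hh)) (hν1 g hg)
      exact lt_irrefl _ h5
  have hνone : ν 1 = 1 := by
    rw [hν, mt_one, mt_one]
    have : (1 : Matrix (Fin 2) (Fin 2) ℚ_[p]).trace ≠ 0 := by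
      have h := htr0 1 U.one_mem
      rwa [mt_one] at h
    exact div_self this
  have hν0 : ∀ g ∈ U, ν g ≠ 0 := by
    intro g hg h
    have h1 := hνsq g hg
    rw [h] at h1
    apply mt_det_ne ρ' g
    rw [← h1]; ring
  -- the two representations of `U`
  let f : U →* Mat ℚ_[p] :=
    { toFun := fun g => ν g • mt ρ g
      map_one' := by
        show ν ((1 : U) : G) • mt ρ ((1 : U) : G) = 1
        rw [Subgroup.coe_one, hνone, mt_one, one_smul]
      map_mul' := fun g h => by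
        show ν ((g * h : U) : G) • mt ρ ((g * h : U) : G) = (ν g • mt ρ g) * (ν h • mt ρ h)
        rw [Subgroup.coe_mul, hνmul g g.2 h h.2, mt_mul, smul_mul_smul_comm] }
  let f' : U →* Mat ℚ_[p] :=
    { toFun := fun g => mt ρ' g
      map_one' := mt_one ρ'
      map_mul' := fun g h => mt_mul ρ' g h }
  have hf : ∀ g : U, ((f.toHomUnits g : GL (Fin 2) ℚ_[p]) : Mat ℚ_[p]) = ν g • mt ρ g :=
    fun g => rfl
  have hf' : ∀ g : U, ((f'.toHomUnits g : GL (Fin 2) ℚ_[p]) : Mat ℚ_[p]) = mt ρ' g :=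
    fun g => rfl
  have hspan : Submodule.span ℚ_[p] {A : Mat ℚ_[p] |
      ∃ g : U, A = ((f.toHomUnits g : GL (Fin 2) ℚ_[p]) : Mat ℚ_[p])} = ⊤ := by
    rw [eq_top_iff, ← hS U hUo, Submodule.span_le]
    rintro A ⟨g, hg, rfl⟩
    have h1 : mt ρ g = (ν g)⁻¹ • ((f.toHomUnits ⟨g, hg⟩ : GL (Fin 2) ℚ_[p]) : Mat ℚ_[p]) := by
      rw [hf, smul_smul, inv_mul_cancel₀ (hν0 g hg), one_smul]
    rw [h1]
    exact Submodule.smul_mem _ _ (Submodule.subset_span ⟨_, rfl⟩)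
  have hspan' : Submodule.span ℚ_[p] {A : Mat ℚ_[p] |
      ∃ g : U, A = ((f'.toHomUnits g : GL (Fin 2) ℚ_[p]) : Mat ℚ_[p])} = ⊤ := by
    rw [eq_top_iff, ← hS' U hUo, Submodule.span_le]
    rintro A ⟨g, hg, rfl⟩
    exact Submodule.subset_span ⟨⟨g, hg⟩, rfl⟩
  have htr : ∀ g : U, ((f.toHomUnits g : GL (Fin 2) ℚ_[p]) : Mat ℚ_[p]).trace =
      ((f'.toHomUnits g : GL (Fin 2) ℚ_[p]) : Mat ℚ_[p]).trace := by
    intro g
    rw [hf, hf', Matrix.trace_smul, hν, smul_eq_mul, div_mul_cancel₀ _ (htr0 g g.2)]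
  obtain ⟨A, hA⟩ := Pool.Agent.Y126.SH.bn f.toHomUnits f'.toHomUnits (by norm_num)
    (fun m h1 _ => Nat.cast_ne_zero.2 (by omega)) (irr_of_span _ hspan) (irr_of_span _ hspan') htr
  refine ⟨U, ν, ((A⁻¹ : GL (Fin 2) ℚ_[p]) : Mat ℚ_[p]), (A : Mat ℚ_[p]), hUo, ?_, ?_⟩
  · rw [← Units.val_mul, inv_mul_cancel, Units.val_one]
  · intro g hg
    refine ⟨hν1 g hg, ?_⟩
    have h1 := hA ⟨g, hg⟩
    rw [hf', hf] at h1
    have h2 : mt ρ' g = (mt ρ' g * (A : Mat ℚ_[p])) * ((A⁻¹ : GL (Fin 2) ℚ_[p]) : Mat ℚ_[p]) := by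
      rw [mul_assoc, ← Units.val_mul, mul_inv_cancel, Units.val_one, mul_one]
    rw [h2, h1]
    simp only [mul_smul_comm, smul_mul_assoc]

end Pool.Agent.H858.RU
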