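import Pool.Agent.H858.RU.Spec

/-!
# The tangent space contains an element which is not scalar

The logarithm `lim p⁻ⁿ (ρ (g ^ (p ^ n)) - 1)` of an element `g` of a congruence subgroup.
-/

set_option autoImplicit false

namespace Pool.Agent.H858.RU

namespace NSC

open Filter Topology

variable {p : ℕ} [Fact p.Prime]

/-- All the entries have norm at most `r`. -/
def Le (B : Mat ℚ_[p]) (r : ℝ) : Prop := ∀ i j, ‖B i j‖ ≤ r

theorem Le.nonneg {B : Mat ℚ_[p]} {r : ℝ} (h : Le B r) : 0 ≤ r :=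
  (norm_nonneg _).trans (h 0 0)

theorem Le.mono {B : Mat ℚ_[p]} {r s : ℝ} (h : Le B r) (hs : r ≤ s) : Le B s :=
  fun i j => (h i j).trans hs

theorem Le.add {B C : Mat ℚ_[p]} {r : ℝ} (h : Le B r) (h' : Le C r) : Le (B + C) r := by
  intro i j
  exact (Padic.nonarchimedean _ _).trans (max_le (h i j) (h' i j))

theorem Le.neg {B : Mat ℚ_[p]} {r : ℝ} (h : Le B r) : Le (-B) r := by
  intro i j
  show ‖-(B i j)‖ ≤ r
  rw [norm_neg]
  exact h i j

theorem Le.smul {B : Mat ℚ_[p]} {r s : ℝ} {c : ℚ_[p]} (hc : ‖c‖ ≤ s) (h : Le B r) :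
    Le (c • B) (s * r) := by
  intro i j
  show ‖c * B i j‖ ≤ _
  rw [norm_mul]
  exact mul_le_mul hc (h i j) (norm_nonneg _) ((norm_nonneg _).trans hc)

theorem Le.mul {B C : Mat ℚ_[p]} {r s : ℝ} (h : Le B r) (h' : Le C s) : Le (B * C) (r * s) := by
  intro i j
  rw [Matrix.mul_apply, Fin.sum_univ_two]
  refine (Padic.nonarchimedean _ _).trans (max_le ?_ ?_) <;>
    rw [norm_mul] <;> exact mul_le_mul (h _ _) (h' _ _) (norm_nonneg _) h.nonneg

theorem le_one : Le (1 : Mat ℚ_[p]) 1 := by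
  intro i j
  rw [Matrix.one_apply]
  split_ifs <;> simp

theorem cay (B : Mat ℚ_[p]) : B * B = B.trace • B - B.det • 1 := by
  ext i j
  fin_cases i <;> fin_cases j <;>
    simp [Matrix.mul_apply, Fin.sum_univ_two, Matrix.trace_fin_two, Matrix.det_fin_two] <;> ring

theorem norm_tr {B : Mat ℚ_[p]} {r : ℝ} (h : Le B r) : ‖B.trace‖ ≤ r := by
  rw [Matrix.trace_fin_two]
  exact (Padic.nonarchimedean _ _).trans (max_le (h _ _) (h _ _))

theorem norm_dt {B : Mat ℚ_[p]} {r : ℝ} (h : Le B r) : ‖B.det‖ ≤ r ^ 2 := by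
  rw [Matrix.det_fin_two, sub_eq_add_neg]
  refine (Padic.nonarchimedean _ _).trans (max_le ?_ ?_)
  · rw [norm_mul, pow_two]
    exact mul_le_mul (h _ _) (h _ _) (norm_nonneg _) h.nonneg
  · rw [norm_neg, norm_mul, pow_two]
    exact mul_le_mul (h _ _) (h _ _) (norm_nonneg _) h.nonneg

theorem nat_le (n : ℕ) : ‖(n : ℚ_[p])‖ ≤ 1 := by
  have h := Padic.norm_int_le_one (p := p) (n : ℤ)
  rwa [Int.cast_natCast] at h

/-- The powers of `1 + B`. -/
theorem pw {B : Mat ℚ_[p]} {r : ℝ} (h : Le B r) (hr : r ≤ 1) (n : ℕ) :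
    ∃ c d : ℚ_[p], (1 + B) ^ n = c • B + d • (1 : Mat ℚ_[p]) ∧ ‖c - n‖ ≤ r ∧
      ‖d - 1‖ ≤ r ^ 2 := by
  have h0 := h.nonneg
  induction n with
  | zero =>
    refine ⟨0, 1, ?_, ?_, ?_⟩
    · simp
    · simpa using h0
    · simpa using pow_nonneg h0 2
  | succ n ih =>
    obtain ⟨c, d, h1, h2, h3⟩ := ih
    have hr2 : r ^ 2 ≤ r := by nlinarith
    have hc : ‖c‖ ≤ 1 := by
      have e : c = (c - n) + n := by ring
      rw [e]
      exact (Padic.nonarchimedean _ _).trans (max_le (h2.trans hr) (nat_le n))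
    have ht := norm_tr h
    have hd := norm_dt h
    refine ⟨c + c * B.trace + d, d - c * B.det, ?_, ?_, ?_⟩
    · rw [pow_succ, h1, add_mul, mul_add, mul_one, mul_add, mul_one, smul_mul_assoc, cay,
        smul_mul_assoc, one_mul]
      module
    · have e : c + c * B.trace + d - ((n + 1 : ℕ) : ℚ_[p]) = ((c - n) + c * B.trace) + (d - 1) := by
        push_cast
        ring
      rw [e]
      refine (Padic.nonarchimedean _ _).trans (max_le ((Padic.nonarchimedean _ _).trans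
        (max_le h2 ?_)) (h3.trans hr2))
      rw [norm_mul]
      calc ‖c‖ * ‖B.trace‖ ≤ 1 * r := mul_le_mul hc ht (norm_nonneg _) zero_le_one
        _ = r := one_mul r
    · have e : d - c * B.det - 1 = (d - 1) + -(c * B.det) := by ring
      rw [e]
      refine (Padic.nonarchimedean _ _).trans (max_le h3 ?_)
      rw [norm_neg, norm_mul]
      calc ‖c‖ * ‖B.det‖ ≤ 1 * r ^ 2 := mul_le_mul hc hd (norm_nonneg _) zero_le_one
        _ = r ^ 2 := one_mul _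

theorem s_pos : 0 < (p : ℝ)⁻¹ := by
  have h : 0 < p := (Fact.out : p.Prime).pos
  positivity

theorem s_lt : (p : ℝ)⁻¹ < 1 := by
  have h : 1 < p := (Fact.out : p.Prime).one_lt
  exact inv_lt_one_of_one_lt₀ (by exact_mod_cast h)

/-- One step. -/
theorem step {B : Mat ℚ_[p]} {n : ℕ} (h : Le B ((p : ℝ)⁻¹ ^ (n + 2))) :
    (∃ c d : ℚ_[p], (1 + B) ^ p = c • B + d • (1 : Mat ℚ_[p]) ∧ ‖c‖ = (p : ℝ)⁻¹) ∧
    Le ((1 + B) ^ p - 1) ((p : ℝ)⁻¹ ^ (n + 1 + 2)) ∧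
    Le ((1 + B) ^ p - 1 - (p : ℚ_[p]) • B) ((p : ℝ)⁻¹ ^ (2 * n + 4)) := by
  have s0 : 0 < (p : ℝ)⁻¹ := s_pos
  have s1 : (p : ℝ)⁻¹ < 1 := s_lt
  have hr : (p : ℝ)⁻¹ ^ (n + 2) ≤ 1 := pow_le_one₀ s0.le s1.le
  obtain ⟨c, d, h1, h2, h3⟩ := pw h hr p
  have e2 : ((p : ℝ)⁻¹ ^ (n + 2)) ^ 2 = (p : ℝ)⁻¹ ^ (2 * n + 4) := by
    rw [← pow_mul]
    ring_nf
  rw [e2] at h3
  have hlt : (p : ℝ)⁻¹ ^ (n + 2) < (p : ℝ)⁻¹ := by
    calc (p : ℝ)⁻¹ ^ (n + 2) < (p : ℝ)⁻¹ ^ 1 := pow_lt_pow_right_of_lt_one₀ s0 s1 (by omega)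
      _ = (p : ℝ)⁻¹ := pow_one _
  have hc : ‖c‖ = (p : ℝ)⁻¹ := by
    have e : c = (c - p) + p := by ring
    have hp : ‖(p : ℚ_[p])‖ = (p : ℝ)⁻¹ := Padic.norm_p
    have hne : ‖c - p‖ ≠ ‖(p : ℚ_[p])‖ := by
      rw [hp]
      exact (h2.trans_lt hlt).ne
    rw [e, IsUltrametricDist.norm_add_eq_max_of_norm_ne_norm hne, hp]
    exact max_eq_right (h2.trans hlt.le)
  have hd : Le ((d - 1) • (1 : Mat ℚ_[p])) ((p : ℝ)⁻¹ ^ (2 * n + 4)) := by
    have := Le.smul (c := d - 1) h3 le_one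
    rwa [mul_one] at this
  refine ⟨⟨c, d, h1, hc⟩, ?_, ?_⟩
  · have e : (1 + B) ^ p - 1 = c • B + (d - 1) • (1 : Mat ℚ_[p]) := by
      rw [h1]
      module
    rw [e]
    refine Le.add ?_ (hd.mono ?_)
    · have := Le.smul (c := c) hc.le h
      refine this.mono (le_of_eq ?_)
      rw [← pow_succ']
    · exact pow_le_pow_of_le_one s0.le s1.le (by omega)
  · have e : (1 + B) ^ p - 1 - (p : ℚ_[p]) • B = (c - p) • B + (d - 1) • (1 : Mat ℚ_[p]) := by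
      rw [h1]
      module
    rw [e]
    refine Le.add ?_ hd
    have := Le.smul (c := c - (p : ℚ_[p])) h2 h
    rwa [← pow_two, e2] at this

theorem pow_step (A : Mat ℚ_[p]) (n : ℕ) : A ^ (p ^ (n + 1)) = (1 + (A ^ (p ^ n) - 1)) ^ p := by
  rw [add_sub_cancel, ← pow_mul, pow_succ]

/-- The sequence `A ^ (p ^ n) - 1`. -/
theorem sq {A : Mat ℚ_[p]} (h : Le (A - 1) ((p : ℝ)⁻¹ ^ 2)) (n : ℕ) :
    Le (A ^ (p ^ n) - 1) ((p : ℝ)⁻¹ ^ (n + 2)) ∧
    ∃ c d : ℚ_[p], A ^ (p ^ n) = c • (A - 1) + d • (1 : Mat ℚ_[p]) ∧ ‖c‖ = (p : ℝ)⁻¹ ^ n := by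
  induction n with
  | zero =>
    refine ⟨?_, 1, 1, ?_, ?_⟩
    · simpa using h
    · rw [pow_zero, pow_one]
      module
    · rw [norm_one, pow_zero]
  | succ n ih =>
    obtain ⟨h1, c, d, h2, h3⟩ := ih
    obtain ⟨⟨c', d', h4, h5⟩, h6, h7⟩ := step h1
    refine ⟨?_, c' * c, c' * (d - 1) + d', ?_, ?_⟩
    · rw [pow_step]
      exact h6
    · rw [pow_step, h4, h2]
      module
    · rw [norm_mul, h5, h3, ← pow_succ']

/-- The next term. -/
theorem sq' {A : Mat ℚ_[p]} (h : Le (A - 1) ((p : ℝ)⁻¹ ^ 2)) (n : ℕ) (i j : Fin 2) :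
    ‖(A ^ (p ^ (n + 1)) - 1) i j - (p : ℚ_[p]) * (A ^ (p ^ n) - 1) i j‖ ≤
      (p : ℝ)⁻¹ ^ (2 * n + 4) := by
  have h7 := (step (sq h n).1).2.2 i j
  rw [← pow_step] at h7
  exact h7

/-- The sequence `p⁻ⁿ (A ^ (p ^ n) - 1)`. -/
noncomputable def xs (A : Mat ℚ_[p]) (n : ℕ) (i j : Fin 2) : ℚ_[p] :=
  ((p : ℚ_[p]) ^ n)⁻¹ * (A ^ (p ^ n) - 1) i j

theorem p_ne : (p : ℚ_[p]) ≠ 0 := by
  exact_mod_cast (Fact.out : p.Prime).ne_zero

theorem xs_dist {A : Mat ℚ_[p]} (h : Le (A - 1) ((p : ℝ)⁻¹ ^ 2)) (i j : Fin 2) (n : ℕ) :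
    dist (xs A n i j) (xs A (n + 1) i j) ≤ 1 * (p : ℝ)⁻¹ ^ n := by
  have s0 : 0 < (p : ℝ)⁻¹ := s_pos
  have s1 : (p : ℝ)⁻¹ < 1 := s_lt
  have h7 := sq' h n i j
  have e : xs A (n + 1) i j - xs A n i j = ((p : ℚ_[p]) ^ (n + 1))⁻¹ *
      ((A ^ (p ^ (n + 1)) - 1) i j - (p : ℚ_[p]) * (A ^ (p ^ n) - 1) i j) := by
    have hp : (p : ℚ_[p]) ≠ 0 := p_ne
    unfold xs
    field_simp
    ring
  rw [dist_comm, dist_eq_norm, e, norm_mul, norm_inv, norm_pow, Padic.norm_p, ← inv_pow, inv_inv]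
  have hp : (0 : ℝ) < p := by exact_mod_cast (Fact.out : p.Prime).pos
  calc (p : ℝ) ^ (n + 1) * _ ≤ (p : ℝ) ^ (n + 1) * (p : ℝ)⁻¹ ^ (2 * n + 4) :=
        mul_le_mul_of_nonneg_left h7 (by positivity)
    _ = (p : ℝ)⁻¹ ^ (n + 3) := by
        have e1 : 2 * n + 4 = (n + 1) + (n + 3) := by ring
        rw [e1, pow_add (p : ℝ)⁻¹, ← mul_assoc, ← mul_pow, mul_inv_cancel₀ hp.ne', one_pow,
          one_mul]
    _ ≤ (p : ℝ)⁻¹ ^ n := pow_le_pow_of_le_one s0.le s1.le (by omega)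
    _ = 1 * (p : ℝ)⁻¹ ^ n := (one_mul _).symm

/-- The logarithm. -/
theorem xs_lim {A : Mat ℚ_[p]} (h : Le (A - 1) ((p : ℝ)⁻¹ ^ 2)) :
    ∃ X : Mat ℚ_[p], ∀ i j, Tendsto (fun n => xs A n i j) atTop (𝓝 (X i j)) := by
  have h1 : ∀ i j, ∃ x, Tendsto (fun n => xs A n i j) atTop (𝓝 x) := fun i j =>
    cauchySeq_tendsto_of_complete (cauchySeq_of_le_geometric _ _ s_lt (xs_dist h i j))
  choose X hX using h1
  exact ⟨fun i j => X i j, hX⟩

/-- The logarithm is not scalar. -/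
theorem not_sc {A : Mat ℚ_[p]} (h : Le (A - 1) ((p : ℝ)⁻¹ ^ 2)) (hA : ¬ IsSc A)
    {X : Mat ℚ_[p]} (hX : ∀ i j, Tendsto (fun n => xs A n i j) atTop (𝓝 (X i j))) :
    ¬ IsSc X := by
  rintro ⟨x, rfl⟩
  apply hA
  have hp : (0 : ℝ) < p := by exact_mod_cast (Fact.out : p.Prime).pos
  have key : ∀ n, ‖((p : ℚ_[p]) ^ n)⁻¹‖ * (p : ℝ)⁻¹ ^ n = 1 := by
    intro n
    rw [norm_inv, norm_pow, Padic.norm_p, inv_mul_cancel₀]
    exact pow_ne_zero _ (inv_ne_zero hp.ne')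
  have off : ∀ i j : Fin 2, i ≠ j → A i j = 0 := by
    intro i j hij
    have h1 : ∀ n, ‖xs A n i j‖ = ‖A i j‖ := by
      intro n
      obtain ⟨-, c, d, h2, h3⟩ := sq h n
      unfold xs
      rw [h2]
      simp only [Matrix.sub_apply, Matrix.add_apply, Matrix.smul_apply, Matrix.one_apply_ne hij,
        smul_eq_mul, mul_zero, sub_zero, add_zero]
      rw [norm_mul, norm_mul, h3, ← mul_assoc, key, one_mul]
    have h2 := (hX i j).norm
    simp only [h1, Matrix.smul_apply, Matrix.one_apply_ne hij, smul_eq_mul, mul_zero,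
      norm_zero] at h2
    exact norm_eq_zero.1 (tendsto_nhds_unique tendsto_const_nhds h2)
  have dg : A 0 0 = A 1 1 := by
    have h1 : ∀ n, ‖xs A n 0 0 - xs A n 1 1‖ = ‖A 0 0 - A 1 1‖ := by
      intro n
      obtain ⟨-, c, d, h2, h3⟩ := sq h n
      unfold xs
      rw [h2]
      simp only [Matrix.sub_apply, Matrix.add_apply, Matrix.smul_apply, Matrix.one_apply_eq,
        smul_eq_mul]
      have e : ((p : ℚ_[p]) ^ n)⁻¹ * (c * (A 0 0 - 1) + d * 1 - 1) -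
          ((p : ℚ_[p]) ^ n)⁻¹ * (c * (A 1 1 - 1) + d * 1 - 1) =
          ((p : ℚ_[p]) ^ n)⁻¹ * (c * (A 0 0 - A 1 1)) := by ring
      rw [e, norm_mul, norm_mul, h3, ← mul_assoc, key, one_mul]
    have h2 := ((hX 0 0).sub (hX 1 1)).norm
    simp only [h1, Matrix.smul_apply, Matrix.one_apply_eq, smul_eq_mul, mul_one, sub_self,
      norm_zero] at h2
    exact sub_eq_zero.1 (norm_eq_zero.1 (tendsto_nhds_unique tendsto_const_nhds h2))
  refine ⟨A 0 0, ?_⟩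
  ext i j
  fin_cases i <;> fin_cases j
  · simp
  · simpa using off 0 1 (by decide)
  · simpa using off 1 0 (by decide)
  · simpa using dg.symm

section grp

variable {G : Type} [Group G]

theorem mt_one (ρ : G →* GL (Fin 2) ℤ_[p]) : mt ρ 1 = 1 := by
  unfold mt
  rw [map_one, Units.val_one]
  exact Matrix.map_one _ (map_zero _) (map_one _)

theorem mt_mul (ρ : G →* GL (Fin 2) ℤ_[p]) (g h : G) : mt ρ (g * h) = mt ρ g * mt ρ h := by
  unfold mt
  rw [map_mul, Units.val_mul]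
  exact Matrix.map_mul

theorem mt_pow (ρ : G →* GL (Fin 2) ℤ_[p]) (g : G) (n : ℕ) : mt ρ (g ^ n) = mt ρ g ^ n := by
  induction n with
  | zero => rw [pow_zero, pow_zero, mt_one]
  | succ n ih => rw [pow_succ, pow_succ, mt_mul, ih]

theorem mt_le (ρ : G →* GL (Fin 2) ℤ_[p]) (g : G) : Le (mt ρ g) 1 := by
  intro i j
  exact PadicInt.norm_le_one _

/-- The congruence subgroup of the elements `≡ 1` modulo `p ^ 2`. -/
noncomputable def cs {I : Type} (ρ : I → G →* GL (Fin 2) ℤ_[p]) : Subgroup G where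
  carrier := {g | ∀ q, Le (mt (ρ q) g - 1) ((p : ℝ)⁻¹ ^ 2)}
  one_mem' := by
    intro q i j
    rw [mt_one, sub_self]
    simp only [Matrix.zero_apply, norm_zero]
    positivity
  mul_mem' := by
    intro g h hg hh q
    have e : mt (ρ q) (g * h) - 1 = mt (ρ q) g * (mt (ρ q) h - 1) + (mt (ρ q) g - 1) := by
      rw [mt_mul]
      noncomm_ring
    rw [e]
    refine Le.add ?_ (hg q)
    have := (mt_le (ρ q) g).mul (hh q)
    rwa [one_mul] at this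
  inv_mem' := by
    intro g hg q
    have h1 : mt (ρ q) g⁻¹ * mt (ρ q) g = 1 := by
      rw [← mt_mul, inv_mul_cancel, mt_one]
    have e : mt (ρ q) g⁻¹ - 1 = -(mt (ρ q) g⁻¹ * (mt (ρ q) g - 1)) := by
      rw [mul_sub, h1, mul_one, neg_sub]
    rw [e]
    refine Le.neg ?_
    have := (mt_le (ρ q) g⁻¹).mul (hg q)
    rwa [one_mul] at this

theorem cs_open [TopologicalSpace G] [IsTopologicalGroup G] {I : Type} [Finite I]
    (ρ : I → G →* GL (Fin 2) ℤ_[p])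
    (hc : ∀ q, Continuous fun g => (ρ q g : Matrix (Fin 2) (Fin 2) ℤ_[p])) :
    IsOpen (cs ρ : Set G) := by
  have s0 : 0 < (p : ℝ)⁻¹ := s_pos
  have e : (cs ρ : Set G) = ⋂ (q : I) (i : Fin 2) (j : Fin 2),
      (fun g => mt (ρ q) g i j - (1 : Mat ℚ_[p]) i j) ⁻¹'
        Metric.closedBall (0 : ℚ_[p]) ((p : ℝ)⁻¹ ^ 2) := by
    ext g
    simp only [Set.mem_iInter, Set.mem_preimage, mem_closedBall_zero_iff]
    rfl
  rw [e]
  refine isOpen_iInter_of_finite fun q => isOpen_iInter_of_finite fun i =>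
    isOpen_iInter_of_finite fun j => IsOpen.preimage ?_
      (IsUltrametricDist.isOpen_closedBall _ (pow_ne_zero _ s0.ne'))
  have h1 : Continuous fun g => mt (ρ q) g i j := by
    have h2 : Continuous fun g => (ρ q g : Matrix (Fin 2) (Fin 2) ℤ_[p]) i j :=
      (continuous_apply j).comp ((continuous_apply i).comp (hc q))
    exact continuous_subtype_val.comp h2
  exact h1.sub continuous_const

end grp

end NSC

open NSC in
open Filter Topology in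
theorem nsc : S_NSC := by
  intro p _ G _ _ _ I _ ρ hc q hU
  obtain ⟨g, hg, hsc⟩ := hU (cs ρ) (cs_open ρ hc)
  have hg' : ∀ q, Le (mt (ρ q) g - 1) ((p : ℝ)⁻¹ ^ 2) := hg
  choose X hX using fun q' => xs_lim (hg' q')
  refine ⟨X, ?_, not_sc (hg' q) hsc (hX q)⟩
  intro ε hε
  have h1 : ∀ᶠ n in atTop, ∀ (q' : I) (i j : Fin 2),
      ‖xs (mt (ρ q') g) n i j - X q' i j‖ < ε := by
    rw [eventually_all]
    intro q'
    rw [eventually_all]
    intro i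
    rw [eventually_all]
    intro j
    have h2 := (Metric.tendsto_nhds.1 (hX q' i j)) ε hε
    simpa only [dist_eq_norm] using h2
  obtain ⟨n₀, hn⟩ := eventually_atTop.1 h1
  refine ⟨n₀, fun n hn' => ⟨g ^ (p ^ n), fun q' i j => ?_⟩⟩
  have h3 := hn n hn' q' i j
  rw [mt_pow]
  exact h3

end Pool.Agent.H858.RU
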