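import Pool.Agent.H858.RU.Spec

set_option autoImplicit false

namespace Pool.Agent.H858.RU

namespace NULL

open MvPolynomial

lemma mapC {J : Type} (N : ℤ) :
    MvPolynomial.map (Int.castRingHom ℚ) (C N : MvPolynomial J ℤ) = C (N : ℚ) := by
  rw [MvPolynomial.map_C]
  rfl

/-- clearing denominators -/
lemma clear {J : Type} (G : Set (MvPolynomial J ℤ)) (f : MvPolynomial J ℚ)
    (hf : f ∈ Ideal.span ((MvPolynomial.map (Int.castRingHom ℚ)) '' G)) :
    ∃ M : ℤ, M ≠ 0 ∧ ∃ g ∈ Ideal.span G, C (M : ℚ) * f = MvPolynomial.map (Int.castRingHom ℚ) g := by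
  -- every polynomial has a denominator
  have hden : ∀ a : MvPolynomial J ℚ, ∃ M : ℤ, M ≠ 0 ∧ ∃ b : MvPolynomial J ℤ,
      C (M : ℚ) * a = MvPolynomial.map (Int.castRingHom ℚ) b := by
    intro a
    induction a using MvPolynomial.induction_on with
    | C r =>
      refine ⟨r.den, by exact_mod_cast r.den_nz, C r.num, ?_⟩
      rw [MvPolynomial.map_C, ← C_mul]
      congr 1
      have := Rat.mul_den_eq_num r
      rw [eq_intCast, Int.cast_natCast, mul_comm]
      exact this
    | add a b ha hb =>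
      obtain ⟨M, hM, a', ha'⟩ := ha
      obtain ⟨N, hN, b', hb'⟩ := hb
      refine ⟨M * N, mul_ne_zero hM hN, C N * a' + C M * b', ?_⟩
      simp only [map_add, map_mul, mapC, ← ha', ← hb']
      push_cast
      rw [C_mul]
      ring
    | mul_X a i ha =>
      obtain ⟨M, hM, a', ha'⟩ := ha
      refine ⟨M, hM, a' * X i, ?_⟩
      rw [map_mul, MvPolynomial.map_X, ← ha', mul_assoc]
  refine Submodule.span_induction ?_ ?_ ?_ ?_ hf
  · rintro _ ⟨g, hg, rfl⟩
    refine ⟨1, one_ne_zero, g, Ideal.subset_span hg, ?_⟩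
    simp
  · exact ⟨1, one_ne_zero, 0, Ideal.zero_mem _, by simp⟩
  · rintro x y _ _ ⟨M, hM, a, ha, hx⟩ ⟨N, hN, b, hb, hy⟩
    refine ⟨M * N, mul_ne_zero hM hN, C N * a + C M * b,
      Ideal.add_mem _ (Ideal.mul_mem_left _ _ ha) (Ideal.mul_mem_left _ _ hb), ?_⟩
    simp only [map_add, map_mul, mapC, ← hx, ← hy]
    push_cast
    rw [C_mul]
    ring
  · rintro r x _ ⟨M, hM, a, ha, hx⟩
    obtain ⟨N, hN, r', hr'⟩ := hden r
    refine ⟨N * M, mul_ne_zero hN hM, r' * a, Ideal.mul_mem_left _ _ ha, ?_⟩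
    rw [map_mul, ← hx, ← hr', smul_eq_mul]
    push_cast
    rw [C_mul]
    ring

end NULL

open MvPolynomial in
theorem null : S_NULL := by
  intro J _ G hG Ω _ _ _
  set I : Ideal (MvPolynomial J ℚ) := Ideal.span ((MvPolynomial.map (Int.castRingHom ℚ)) '' G)
    with hI
  have hne : I ≠ ⊤ := by
    intro htop
    have h1 : (1 : MvPolynomial J ℚ) ∈ I := by
      rw [htop]
      exact Submodule.mem_top
    obtain ⟨M, hM, g, hg, hMg⟩ := NULL.clear G 1 h1
    have hgM : g = C M := by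
      apply MvPolynomial.map_injective (Int.castRingHom ℚ) Int.cast_injective
      rw [← hMg, mul_one, MvPolynomial.map_C, eq_intCast]
    obtain ⟨L, _, hL, x, hx⟩ := hG M.natAbs
    have h2 : ∀ f ∈ Ideal.span G, MvPolynomial.aeval x f = 0 := by
      intro f hf
      have h3 : Ideal.span G ≤ RingHom.ker (MvPolynomial.aeval x : MvPolynomial J ℤ →ₐ[ℤ] L) :=
        Ideal.span_le.2 fun g hg => hx g hg
      exact h3 hf
    have h4 := h2 g hg
    rw [hgM, MvPolynomial.aeval_C] at h4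
    exact hL M hM le_rfl (by simpa using h4)
  obtain ⟨m, hm, hIm⟩ := Ideal.exists_le_maximal I hne
  obtain ⟨x, hx⟩ := MvPolynomial.eq_vanishingIdeal_singleton_of_isMaximal Ω hm
  refine ⟨x, fun g hg => ?_⟩
  have h1 : MvPolynomial.map (Int.castRingHom ℚ) g ∈ m :=
    hIm (Ideal.subset_span ⟨g, hg, rfl⟩)
  rw [hx, MvPolynomial.mem_vanishingIdeal_singleton_iff] at h1
  have h2 : MvPolynomial.aeval x (MvPolynomial.map (Int.castRingHom ℚ) g) =
      MvPolynomial.aeval x g := by
    simp only [MvPolynomial.aeval_def, MvPolynomial.eval₂_map]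
    congr 1
    exact RingHom.ext_int _ _
  rw [← h2]
  exact h1

end Pool.Agent.H858.RU
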