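import Pool.Agent.H858.RU.Spec

/-!
# The ratio character (helper588, for helper858)
-/

set_option autoImplicit false
set_option linter.unusedSectionVars false

namespace Pool.Agent.H858.RU

open Module NumberField Pool.Agent.Y800 Pool.Agent.R390.SF Pool.Agent.NH56.PA
open Pool.Agent.R390.SF.IntegralSystem
open Pool.Agent.Y126.SH (chi)

attribute [local instance] Subgroup.fintypeQuotientOfFiniteIndex

namespace RG

section lin

variable {G : Type} [Group G] {k : Type} [Field k]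

/-- the character on a stable line is an eigenvalue -/
theorem detChar_root (ρ : G →* GL (Fin 2) k) (U : Submodule k (Fin 2 → k)) (hU : IsStable ρ U)
    (h1 : finrank k U = 1) (g : G) :
    (detChar ρ U hU g : k) ^ 2 + (ρ g : Matrix (Fin 2) (Fin 2) k).det =
      (ρ g : Matrix (Fin 2) (Fin 2) k).trace * (detChar ρ U hU g : k) := by
  obtain ⟨c, hc, -⟩ := LinearMap.existsUnique_eq_smul_id_of_finrank_eq_one h1
    ((lin ρ g).restrict (hU g))
  have h2 : (detChar ρ U hU g : k) = c := by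
    rw [detChar_val, hc, LinearMap.det_smul, h1, pow_one, LinearMap.det_id, mul_one]
  obtain ⟨u, hu⟩ : ∃ u : U, u ≠ 0 := by
    have h3 : Nontrivial U := Module.nontrivial_of_finrank_pos (R := k) (by omega)
    exact exists_ne 0
  have h4 : (ρ g : Matrix (Fin 2) (Fin 2) k).mulVec (u : Fin 2 → k) = c • (u : Fin 2 → k) := by
    have h5 := congrArg (fun f : U →ₗ[k] U => ((f u : U) : Fin 2 → k)) hc
    exact h5
  have h6 : (c • (1 : Matrix (Fin 2) (Fin 2) k) - (ρ g : Matrix (Fin 2) (Fin 2) k)).det = 0 := by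
    refine Matrix.exists_mulVec_eq_zero_iff.1 ⟨(u : Fin 2 → k), fun h => hu (Subtype.ext h), ?_⟩
    rw [Matrix.sub_mulVec, Matrix.smul_mulVec, Matrix.one_mulVec, h4, sub_self]
  rw [h2]
  rw [Matrix.det_fin_two] at h6 ⊢
  rw [Matrix.trace_fin_two]
  simp only [Matrix.sub_apply, Matrix.smul_apply, Matrix.one_apply_eq, smul_eq_mul, mul_one,
    Matrix.one_apply_ne (show (0 : Fin 2) ≠ 1 by decide),
    Matrix.one_apply_ne (show (1 : Fin 2) ≠ 0 by decide), mul_zero, zero_sub] at h6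
  linear_combination h6

/-- the ratio of the eigenvalues -/
noncomputable def rr (ρ : G →* GL (Fin 2) k) (φ : G →* kˣ) : G →* kˣ :=
  φ ^ 2 * (Matrix.GeneralLinearGroup.det.comp ρ)⁻¹

theorem rr_val (ρ : G →* GL (Fin 2) k) (φ : G →* kˣ) (g : G) :
    (rr ρ φ g : k) * (ρ g : Matrix (Fin 2) (Fin 2) k).det = (φ g : k) ^ 2 := by
  have h1 : rr ρ φ g * Matrix.GeneralLinearGroup.det (ρ g) = φ g ^ 2 := by
    show φ g ^ 2 * (Matrix.GeneralLinearGroup.det (ρ g))⁻¹ * Matrix.GeneralLinearGroup.det (ρ g) = _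
    rw [inv_mul_cancel_right]
  have h2 := congrArg Units.val h1
  rw [Units.val_mul, Units.val_pow_eq_pow_val] at h2
  exact h2

theorem det_ne (ρ : G →* GL (Fin 2) k) (g : G) : (ρ g : Matrix (Fin 2) (Fin 2) k).det ≠ 0 :=
  (Matrix.GeneralLinearGroup.det (ρ g)).ne_zero

theorem rr_eq (ρ : G →* GL (Fin 2) k) (φ : G →* kˣ) (g : G)
    (h : (φ g : k) ^ 2 + (ρ g : Matrix (Fin 2) (Fin 2) k).det =
      (ρ g : Matrix (Fin 2) (Fin 2) k).trace * (φ g : k)) :
    ((rr ρ φ g : k) + 1) ^ 2 * (ρ g : Matrix (Fin 2) (Fin 2) k).det =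
      (ρ g : Matrix (Fin 2) (Fin 2) k).trace ^ 2 * (rr ρ φ g : k) := by
  have h1 := rr_val ρ φ g
  have h2 := det_ne ρ g
  set r := (rr ρ φ g : k)
  set d := (ρ g : Matrix (Fin 2) (Fin 2) k).det
  set t := (ρ g : Matrix (Fin 2) (Fin 2) k).trace
  set f := (φ g : k)
  have h3 : ((r + 1) ^ 2 * d) * d = (t ^ 2 * r) * d := by
    have h4 : (r + 1) * d = t * f := by rw [← h, ← h1]; ring
    calc ((r + 1) ^ 2 * d) * d = ((r + 1) * d) ^ 2 := by ring
      _ = (t * f) ^ 2 := by rw [h4]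
      _ = t ^ 2 * f ^ 2 := by ring
      _ = t ^ 2 * (r * d) := by rw [h1]
      _ = (t ^ 2 * r) * d := by ring
  exact mul_right_cancel₀ h2 h3

end lin

section main

variable {F : SubFld ℚ} [FiniteDimensional ℚ F] {ℓ : ℕ} [Fact ℓ.Prime] {k : Type} [Field k]
  (ψ : ℤ_[ℓ] →+* k) (T : IntegralSystem F 2)

theorem rep_trace (g : F.fixingSubgroup) : (rep ψ T g : Matrix (Fin 2) (Fin 2) k).trace =
    ψ (T.rho ℓ g : Matrix (Fin 2) (Fin 2) ℤ_[ℓ]).trace := by
  rw [rep_val, Matrix.trace_fin_two, Matrix.trace_fin_two, map_add]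
  rfl

theorem rep_det (g : F.fixingSubgroup) : (rep ψ T g : Matrix (Fin 2) (Fin 2) k).det =
    ψ (T.rho ℓ g : Matrix (Fin 2) (Fin 2) ℤ_[ℓ]).det := by
  rw [rep_val, Matrix.det_fin_two, Matrix.det_fin_two, map_sub, map_mul, map_mul]
  rfl

theorem mt_trace {G : Type} [Group G] (ρ : G →* GL (Fin 2) ℤ_[ℓ]) (g : G) : (mt ρ g).trace =
    algebraMap ℤ_[ℓ] ℚ_[ℓ] (ρ g : Matrix (Fin 2) (Fin 2) ℤ_[ℓ]).trace := by
  unfold mt
  rw [Matrix.trace_fin_two, Matrix.trace_fin_two, map_add]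
  rfl

theorem mt_det {G : Type} [Group G] (ρ : G →* GL (Fin 2) ℤ_[ℓ]) (g : G) : (mt ρ g).det =
    algebraMap ℤ_[ℓ] ℚ_[ℓ] (ρ g : Matrix (Fin 2) (Fin 2) ℤ_[ℓ]).det := by
  unfold mt
  rw [Matrix.det_fin_two, Matrix.det_fin_two, map_sub, map_mul, map_mul]
  rfl

end main

/-- the algebra of `sim` -/
theorem alg {k : Type} [Field k] {r s d e t u : k} (hd : d ≠ 0) (he : e ≠ 0)
    (h1 : (r + 1) ^ 2 * d = t ^ 2 * r) (h2 : (s + 1) ^ 2 * e = u ^ 2 * s)
    (h3 : t ^ 2 * e = u ^ 2 * d) : r = s ∨ r * s = 1 := by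
  have h4 : ((r - s) * (r * s - 1)) * (d * e) = 0 := by
    linear_combination (s * e) * h1 - (r * d) * h2 + (r * s) * h3
  rcases mul_eq_zero.1 h4 with h5 | h5
  · rcases mul_eq_zero.1 h5 with h6 | h6
    · exact Or.inl (sub_eq_zero.1 h6)
    · exact Or.inr (sub_eq_zero.1 h6)
  · exact absurd h5 (mul_ne_zero hd he)

end RG

open RG

theorem rg : S_RG := by
  classical
  intro hFP hSIM F _ S w T hT ℓ _ k _ ψ U hU h1 hWt N₀ hchar S' hS hℓ ℓ' _
  have hroot := fun g => detChar_root (rep ψ T) U hU h1 g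
  refine ⟨rr (rep ψ T) (detChar (rep ψ T) U hU), hchar, ?_, ?_, ?_⟩
  · -- quad
    intro p hp hpS hpN P hP hpP m z hz t d htd
    have hne : ℓ ≠ p := by
      rcases hℓ with h | h
      · rintro rfl
        exact hpS h
      · omega
    obtain ⟨ht, hd⟩ := htd ℓ hne
    have h2 := rr_eq (rep ψ T) (detChar (rep ψ T) U hU) z (hroot z)
    rw [rep_trace, rep_det, ht, hd, map_intCast, map_intCast] at h2
    exact h2
  · -- prod
    intro p hp hpS hpN P hP hpP σ hσ
    have hne : ℓ ≠ p := by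
      rcases hℓ with h | h
      · rintro rfl
        exact hpS h
      · omega
    obtain ⟨A, hA, hW⟩ := hWt
    have h2 := hW p hp hne P hP hpP σ hσ
    have h3 : ∀ q : GQ ⧸ F.fixingSubgroup,
        (rep ψ T (zz σ q) : Matrix (Fin 2) (Fin 2) k).det ^ 2 =
          ((p : k) ^ expo F.fixingSubgroup) ^ (2 * w) := by
      intro q
      obtain ⟨t, d, hd, htd⟩ := hFP F S w T hT p hp (fun h => hpS (hS h)) (cj q.out P) (cj_max hP)
        (cj_nat.2 hpP) (expo F.fixingSubgroup) (zz σ q) (cj_frob (geom_pow hσ _))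
      rw [rep_det, (htd ℓ hne).2, map_intCast]
      exact_mod_cast congrArg (Int.cast (R := k)) hd
    have h4 : (∏ q : GQ ⧸ F.fixingSubgroup,
        (rr (rep ψ T) (detChar (rep ψ T) U hU) (zz σ q) : k) ^ 2) *
        (∏ q : GQ ⧸ F.fixingSubgroup, (rep ψ T (zz σ q) : Matrix (Fin 2) (Fin 2) k).det ^ 2) =
        (∏ q : GQ ⧸ F.fixingSubgroup, (detChar (rep ψ T) U hU (zz σ q) : k)) ^ 4 := by
      rw [← Finset.prod_mul_distrib, ← Finset.prod_pow]
      refine Finset.prod_congr rfl fun q _ => ?_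
      rw [← mul_pow, rr_val]
      ring
    have h5 : (∏ q : GQ ⧸ F.fixingSubgroup,
        (rep ψ T (zz σ q) : Matrix (Fin 2) (Fin 2) k).det ^ 2) =
        (∏ q : GQ ⧸ F.fixingSubgroup, (detChar (rep ψ T) U hU (zz σ q) : k)) ^ 4 := by
      rw [Finset.prod_congr rfl fun q _ => h3 q, Finset.prod_const, Finset.card_univ, card_quot, h2,
        ← pow_mul, ← pow_mul, ← pow_mul]
      congr 1
      have h6 : A * 2 = w * finrank ℚ F := by rw [hA, mul_one]
      calc expo F.fixingSubgroup * (2 * w * finrank ℚ F) =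
          expo F.fixingSubgroup * 2 * (w * finrank ℚ F) := by ring
        _ = _ := by rw [← h6]; ring
    have h6 : (∏ q : GQ ⧸ F.fixingSubgroup, (detChar (rep ψ T) U hU (zz σ q) : k)) ≠ 0 :=
      Finset.prod_ne_zero_iff.2 fun q _ => (detChar (rep ψ T) U hU (zz σ q)).ne_zero
    rw [h5] at h4
    exact mul_right_cancel₀ (pow_ne_zero 4 h6) (by rw [h4, one_mul])
  · -- sim
    intro x y hxy n
    have h2 := hSIM F S w T hT ℓ' ℓ x y hxy n
    rw [mt_trace, mt_trace, mt_det, mt_det, ← map_pow, ← map_pow, ← map_mul, ← map_mul] at h2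
    have h3 := (FaithfulSMul.algebraMap_injective ℤ_[ℓ] ℚ_[ℓ]) h2
    have h4 := congrArg ψ h3
    rw [map_mul, map_mul, map_pow, map_pow] at h4
    have h5 := rr_eq (rep ψ T) (detChar (rep ψ T) U hU) (cnj F x n) (hroot _)
    have h6 := rr_eq (rep ψ T) (detChar (rep ψ T) U hU) (cnj F y n) (hroot _)
    have h7 := alg (det_ne (rep ψ T) (cnj F x n)) (det_ne (rep ψ T) (cnj F y n)) h5 h6 (by
      rw [rep_trace, rep_trace, rep_det, rep_det]
      exact h4)
    rcases h7 with h8 | h8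
    · exact Or.inl (Units.ext h8)
    · exact Or.inr (Units.ext h8)

end Pool.Agent.H858.RU
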