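import Pool.Agent.H858.RU.Spec

/-!
# `SimOn` does not depend on `ℓ`
-/

set_option autoImplicit false
set_option linter.unusedSectionVars false

namespace Pool.Agent.H858.RU

open Module NumberField Pool.Agent.Y800 Pool.Agent.R390.SF Pool.Agent.NH56.PA
open Pool.Agent.R390.SF.IntegralSystem

namespace SIM

section mat

variable {p : ℕ} [Fact p.Prime] {G : Type} [Group G]

theorem mt_trace (ρ : G →* GL (Fin 2) ℤ_[p]) (g : G) : (mt ρ g).trace =
    algebraMap ℤ_[p] ℚ_[p] (ρ g : Matrix (Fin 2) (Fin 2) ℤ_[p]).trace :=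
  (AddMonoidHom.map_trace (algebraMap ℤ_[p] ℚ_[p]) (ρ g : Matrix (Fin 2) (Fin 2) ℤ_[p])).symm

theorem mt_det (ρ : G →* GL (Fin 2) ℤ_[p]) (g : G) : (mt ρ g).det =
    algebraMap ℤ_[p] ℚ_[p] (ρ g : Matrix (Fin 2) (Fin 2) ℤ_[p]).det :=
  (RingHom.map_det (algebraMap ℤ_[p] ℚ_[p]) (ρ g : Matrix (Fin 2) (Fin 2) ℤ_[p])).symm

theorem mt_cont [TopologicalSpace G] {H : Type} [Group H] [TopologicalSpace H]
    (ρ : G →* GL (Fin 2) ℤ_[p])
    (hρ : Continuous fun g => (ρ g : Matrix (Fin 2) (Fin 2) ℤ_[p])) (f : H →* G)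
    (hf : Continuous f) : Continuous fun h => mt (ρ.comp f) h := by
  have h1 : Continuous (algebraMap ℤ_[p] ℚ_[p]) := continuous_subtype_val
  exact (hρ.comp hf).matrix_map h1

end mat

variable (F : SubFld ℚ) [FiniteDimensional ℚ F]

theorem cnj_cont (x : GQ) : Continuous (cnj F x) := by
  refine Continuous.subtype_mk ?_ _
  exact (continuous_const.mul continuous_subtype_val).mul continuous_const

theorem sim_closed {ℓ : ℕ} [Fact ℓ.Prime] (ρ : F.fixingSubgroup →* GL (Fin 2) ℤ_[ℓ])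
    (hρ : Continuous fun g => (ρ g : Matrix (Fin 2) (Fin 2) ℤ_[ℓ])) (x y : GQ) :
    IsClosed {g : GQ | ∀ hg : g ∈ (F.fixingSubgroup).normalCore,
      (mt (ρ.comp (cnj F x)) ⟨g, hg⟩).trace ^ 2 * (mt (ρ.comp (cnj F y)) ⟨g, hg⟩).det =
        (mt (ρ.comp (cnj F y)) ⟨g, hg⟩).trace ^ 2 * (mt (ρ.comp (cnj F x)) ⟨g, hg⟩).det} := by
  have hx := mt_cont ρ hρ (cnj F x) (cnj_cont F x)
  have hy := mt_cont ρ hρ (cnj F y) (cnj_cont F y)
  have h1 : IsClosed {n : (F.fixingSubgroup).normalCore |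
      (mt (ρ.comp (cnj F x)) n).trace ^ 2 * (mt (ρ.comp (cnj F y)) n).det =
        (mt (ρ.comp (cnj F y)) n).trace ^ 2 * (mt (ρ.comp (cnj F x)) n).det} :=
    isClosed_eq ((hx.matrix_trace.pow 2).mul hy.matrix_det)
      ((hy.matrix_trace.pow 2).mul hx.matrix_det)
  have h2 : IsOpen ((F.fixingSubgroup).normalCore : Set GQ) := isOpen_core (isOpen_F F)
  rw [← isOpen_compl_iff] at h1 ⊢
  have h3 := h2.isOpenMap_subtype_val _ h1
  refine (congrArg IsOpen ?_).mpr h3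
  ext g
  constructor
  · intro hg
    rw [Set.mem_compl_iff, Set.mem_ofPred_eq, not_forall] at hg
    obtain ⟨hg, h4⟩ := hg
    exact ⟨⟨g, hg⟩, h4, rfl⟩
  · rintro ⟨n, hn, rfl⟩ h4
    exact hn (h4 n.2)

end SIM

open SIM in
/-- `SimOn` does not depend on `ℓ`. -/
theorem sim : S_SIM := by
  intro hDG hFP F _ S w T hT ℓ ℓ' _ _ x y h n
  have hC := hDG _ (sim_closed F (T.rho ℓ') (hT.continuous ℓ') x y) (S ∪ {ℓ, ℓ'}) (by
    intro p hp hpS P hP hpP σ hσ hσN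
    have h0 : p ∉ S := fun h => hpS (Finset.mem_union_left _ h)
    have h1 : ℓ ≠ p := fun h => hpS (Finset.mem_union_right _ (by simp [h]))
    have h2 : ℓ' ≠ p := fun h => hpS (Finset.mem_union_right _ (by simp [h]))
    have key : ∀ z : GQ, ∃ t d : ℤ, ∀ (q : ℕ) [Fact q.Prime], q ≠ p →
        (mt ((T.rho q).comp (cnj F z)) ⟨σ, hσN⟩).trace = (t : ℚ_[q]) ∧
        (mt ((T.rho q).comp (cnj F z)) ⟨σ, hσN⟩).det = (d : ℚ_[q]) := by
      intro z
      obtain ⟨t, d, -, h3⟩ := hFP F S w T hT p hp h0 (cj z P) (cj_max hP) (cj_nat.2 hpP) 1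
        (cnj F z ⟨σ, hσN⟩) (by
          rw [pow_one]
          exact cj_frob hσ)
      refine ⟨t, d, fun q _ hq => ?_⟩
      obtain ⟨h4, h5⟩ := h3 q hq
      rw [mt_trace, mt_det]
      refine ⟨?_, ?_⟩
      · rw [← map_intCast (algebraMap ℤ_[q] ℚ_[q]), ← h4]
        rfl
      · rw [← map_intCast (algebraMap ℤ_[q] ℚ_[q]), ← h5]
        rfl
    obtain ⟨t, d, h3⟩ := key x
    obtain ⟨t', d', h4⟩ := key y
    have h5 := h ⟨σ, hσN⟩
    rw [(h3 ℓ h1).1, (h3 ℓ h1).2, (h4 ℓ h1).1, (h4 ℓ h1).2] at h5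
    have h6 : t ^ 2 * d' = t' ^ 2 * d := by exact_mod_cast h5
    rw [(h3 ℓ' h2).1, (h3 ℓ' h2).2, (h4 ℓ' h2).1, (h4 ℓ' h2).2]
    exact_mod_cast h6) n.1
  exact hC n.2

end Pool.Agent.H858.RU
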