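import Pool.Agent.H858.RU.Spec

/-!
# The tangent space is a subspace
-/

set_option autoImplicit false

namespace Pool.Agent.H858.RU

namespace TAN

variable {p : ℕ} [Fact p.Prime]

/-- all entries are smaller than `ε` -/
def lt (ε : ℝ) (A : Mat ℚ_[p]) : Prop := ∀ i j, ‖A i j‖ < ε

/-- all entries are bounded by `c` -/
def bd (c : ℝ) (A : Mat ℚ_[p]) : Prop := ∀ i j, ‖A i j‖ ≤ c

theorem lt_add {ε : ℝ} {A B : Mat ℚ_[p]} (hA : lt ε A) (hB : lt ε B) : lt ε (A + B) := fun i j => by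
  show ‖A i j + B i j‖ < ε
  exact (IsUltrametricDist.norm_add_le_max _ _).trans_lt (max_lt (hA i j) (hB i j))

theorem bd_add {c : ℝ} {A B : Mat ℚ_[p]} (hA : bd c A) (hB : bd c B) : bd c (A + B) := fun i j => by
  show ‖A i j + B i j‖ ≤ c
  exact (IsUltrametricDist.norm_add_le_max _ _).trans (max_le (hA i j) (hB i j))

theorem bd_mul {c d : ℝ} {A B : Mat ℚ_[p]} (hc : 0 ≤ c) (hA : bd c A) (hB : bd d B) :
    bd (c * d) (A * B) := fun i j => by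
  rw [Matrix.mul_apply, Fin.sum_univ_two]
  refine (IsUltrametricDist.norm_add_le_max _ _).trans (max_le ?_ ?_)
  · rw [norm_mul]
    exact mul_le_mul (hA i 0) (hB 0 j) (norm_nonneg _) hc
  · rw [norm_mul]
    exact mul_le_mul (hA i 1) (hB 1 j) (norm_nonneg _) hc

theorem bd1_lt {ε : ℝ} {A B : Mat ℚ_[p]} (hA : bd 1 A) (hB : lt ε B) : lt ε (A * B) :=
  fun i j => by
  rw [Matrix.mul_apply, Fin.sum_univ_two]
  refine (IsUltrametricDist.norm_add_le_max _ _).trans_lt (max_lt ?_ ?_)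
  · rw [norm_mul]
    exact (mul_le_of_le_one_left (norm_nonneg _) (hA i 0)).trans_lt (hB 0 j)
  · rw [norm_mul]
    exact (mul_le_of_le_one_left (norm_nonneg _) (hA i 1)).trans_lt (hB 1 j)

theorem lt_bd1 {ε : ℝ} {A B : Mat ℚ_[p]} (hA : lt ε A) (hB : bd 1 B) : lt ε (A * B) :=
  fun i j => by
  rw [Matrix.mul_apply, Fin.sum_univ_two]
  refine (IsUltrametricDist.norm_add_le_max _ _).trans_lt (max_lt ?_ ?_)
  · rw [norm_mul]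
    exact (mul_le_of_le_one_right (norm_nonneg _) (hB 0 j)).trans_lt (hA i 0)
  · rw [norm_mul]
    exact (mul_le_of_le_one_right (norm_nonneg _) (hB 1 j)).trans_lt (hA i 1)

theorem lt_smul {ε : ℝ} {a : ℚ_[p]} {A : Mat ℚ_[p]} (h : ∀ i j, ‖a‖ * ‖A i j‖ < ε) :
    lt ε (a • A) := fun i j => by
  show ‖a * A i j‖ < ε
  rw [norm_mul]
  exact h i j

section mt

variable {G : Type} [Group G] (ρ : G →* GL (Fin 2) ℤ_[p])

theorem mt_mul (g h : G) : mt ρ (g * h) = mt ρ g * mt ρ h := by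
  unfold mt
  rw [map_mul, Units.val_mul, Matrix.map_mul]

theorem mt_one : mt ρ 1 = 1 := by
  unfold mt
  rw [map_one, Units.val_one]
  exact Matrix.map_one _ (map_zero _) (map_one _)

theorem mt_bd (g : G) : bd 1 (mt ρ g) := fun i j =>
  PadicInt.norm_le_one ((ρ g : Matrix (Fin 2) (Fin 2) ℤ_[p]) i j)

end mt

/-- the algebra of the product -/
theorem alg {R : Type} [Ring R] [Algebra ℚ_[p] R] {a : ℚ_[p]} (ha : a ≠ 0) (A B : R) :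
    a⁻¹ • (A * B - 1) = a⁻¹ • (A - 1) + a⁻¹ • (B - 1) + a • ((a⁻¹ • (A - 1)) * (a⁻¹ • (B - 1))) := by
  rw [smul_mul_smul_comm, smul_smul, ← mul_assoc, mul_inv_cancel₀ ha, one_mul, ← smul_add,
    ← smul_add]
  have h : A * B - 1 = A - 1 + (B - 1) + (A - 1) * (B - 1) := by noncomm_ring
  rw [h]

theorem p_ne : (p : ℚ_[p]) ≠ 0 := by
  exact_mod_cast (Fact.out : p.Prime).ne_zero

theorem pn_ne (n : ℕ) : ((p : ℚ_[p]) ^ n) ≠ 0 := pow_ne_zero n p_ne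

theorem small (c ε : ℝ) (hc : 0 ≤ c) (hε : 0 < ε) :
    ∃ n₁ : ℕ, ∀ n : ℕ, n₁ ≤ n → ‖((p : ℚ_[p]) ^ n)‖ * c < ε := by
  obtain ⟨n₁, h⟩ := exists_pow_lt_of_lt_one (x := ε / (c + 1)) (y := ‖(p : ℚ_[p])‖)
    (by positivity) Padic.norm_p_lt_one
  refine ⟨n₁, fun n hn => ?_⟩
  rw [norm_pow]
  have h1 : ‖(p : ℚ_[p])‖ ^ n ≤ ‖(p : ℚ_[p])‖ ^ n₁ :=
    pow_le_pow_of_le_one (norm_nonneg _) Padic.norm_p_lt_one.le hn
  have h2 : ‖(p : ℚ_[p])‖ ^ n < ε / (c + 1) := h1.trans_lt h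
  rw [lt_div_iff₀ (by positivity)] at h2
  have h3 : 0 ≤ ‖(p : ℚ_[p])‖ ^ n := pow_nonneg (norm_nonneg _) _
  nlinarith

section tan

variable {G : Type} [Group G] {I : Type} [Finite I] (ρ : I → G →* GL (Fin 2) ℤ_[p])

omit [Finite I] in
theorem mem_tan (X : I → Mat ℚ_[p]) : X ∈ Tan ρ ↔ ∀ ε : ℝ, 0 < ε → ∃ n₀ : ℕ, ∀ n : ℕ, n₀ ≤ n →
    ∃ g : G, ∀ q : I, lt ε (((p : ℚ_[p]) ^ n)⁻¹ • (mt (ρ q) g - 1) - X q) := Iff.rfl

theorem bound (X : I → Mat ℚ_[p]) : ∃ c : ℝ, 1 ≤ c ∧ ∀ q, bd c (X q) := by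
  obtain ⟨c, hc⟩ := (Set.finite_range
    (fun x : I × Fin 2 × Fin 2 => ‖X x.1 x.2.1 x.2.2‖)).bddAbove
  refine ⟨max c 1, le_max_right _ _, fun q i j => ?_⟩
  exact (hc ⟨(q, i, j), rfl⟩).trans (le_max_left _ _)

omit [Finite I] in
theorem zero_mem : (0 : I → Mat ℚ_[p]) ∈ Tan ρ := by
  rw [mem_tan]
  intro ε hε
  refine ⟨0, fun n _ => ⟨1, fun q i j => ?_⟩⟩
  rw [mt_one, sub_self, smul_zero]
  show ‖(0 : ℚ_[p]) - 0‖ < ε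
  rw [sub_zero, norm_zero]
  exact hε

theorem add_mem {X Y : I → Mat ℚ_[p]} (hX : X ∈ Tan ρ) (hY : Y ∈ Tan ρ) : X + Y ∈ Tan ρ := by
  rw [mem_tan] at hX hY ⊢
  intro ε hε
  obtain ⟨c, hc1, hc⟩ := bound X
  obtain ⟨d, hd1, hd⟩ := bound Y
  obtain ⟨n₁, h1⟩ := hX (min ε 1) (lt_min hε one_pos)
  obtain ⟨n₂, h2⟩ := hY (min ε 1) (lt_min hε one_pos)
  obtain ⟨n₃, h3⟩ := small (p := p) (c * d) ε (by positivity) hε
  refine ⟨max n₁ (max n₂ n₃), fun n hn => ?_⟩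
  obtain ⟨g, hg⟩ := h1 n ((le_max_left _ _).trans hn)
  obtain ⟨h, hh⟩ := h2 n (((le_max_left _ _).trans (le_max_right _ _)).trans hn)
  have h4 := h3 n (((le_max_right _ _).trans (le_max_right _ _)).trans hn)
  refine ⟨g * h, fun q => ?_⟩
  rw [mt_mul, alg (pn_ne n)]
  have hP : bd c (((p : ℚ_[p]) ^ n)⁻¹ • (mt (ρ q) g - 1)) := by
    have e : ((p : ℚ_[p]) ^ n)⁻¹ • (mt (ρ q) g - 1) =
        (((p : ℚ_[p]) ^ n)⁻¹ • (mt (ρ q) g - 1) - X q) + X q := by abel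
    rw [e]
    exact bd_add (fun i j => ((hg q i j).le.trans (min_le_right _ _)).trans hc1) (hc q)
  have hQ : bd d (((p : ℚ_[p]) ^ n)⁻¹ • (mt (ρ q) h - 1)) := by
    have e : ((p : ℚ_[p]) ^ n)⁻¹ • (mt (ρ q) h - 1) =
        (((p : ℚ_[p]) ^ n)⁻¹ • (mt (ρ q) h - 1) - Y q) + Y q := by abel
    rw [e]
    exact bd_add (fun i j => ((hh q i j).le.trans (min_le_right _ _)).trans hd1) (hd q)
  have hPQ := bd_mul (by linarith) hP hQ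
  have hs : lt ε (((p : ℚ_[p]) ^ n) • ((((p : ℚ_[p]) ^ n)⁻¹ • (mt (ρ q) g - 1)) *
      (((p : ℚ_[p]) ^ n)⁻¹ • (mt (ρ q) h - 1)))) := by
    refine lt_smul fun i j => ?_
    exact (mul_le_mul_of_nonneg_left (hPQ i j) (norm_nonneg _)).trans_lt h4
  have e : ((p : ℚ_[p]) ^ n)⁻¹ • (mt (ρ q) g - 1) + ((p : ℚ_[p]) ^ n)⁻¹ • (mt (ρ q) h - 1) +
      ((p : ℚ_[p]) ^ n) • ((((p : ℚ_[p]) ^ n)⁻¹ • (mt (ρ q) g - 1)) *
      (((p : ℚ_[p]) ^ n)⁻¹ • (mt (ρ q) h - 1))) - (X + Y) q =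
      (((p : ℚ_[p]) ^ n)⁻¹ • (mt (ρ q) g - 1) - X q) +
        (((p : ℚ_[p]) ^ n)⁻¹ • (mt (ρ q) h - 1) - Y q) +
      ((p : ℚ_[p]) ^ n) • ((((p : ℚ_[p]) ^ n)⁻¹ • (mt (ρ q) g - 1)) *
      (((p : ℚ_[p]) ^ n)⁻¹ • (mt (ρ q) h - 1))) := by
    rw [Pi.add_apply]
    abel
  rw [e]
  exact lt_add (lt_add (fun i j => (hg q i j).trans_le (min_le_left _ _))
    (fun i j => (hh q i j).trans_le (min_le_left _ _))) hs

omit [Finite I] in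
theorem pinv_mem {X : I → Mat ℚ_[p]} (hX : X ∈ Tan ρ) : ((p : ℚ_[p])⁻¹) • X ∈ Tan ρ := by
  rw [mem_tan] at hX ⊢
  intro ε hε
  have hp : 0 < ‖(p : ℚ_[p])‖ := norm_pos_iff.2 p_ne
  obtain ⟨n₀, h0⟩ := hX (‖(p : ℚ_[p])‖ * ε) (by positivity)
  refine ⟨n₀ + 1, fun n hn => ?_⟩
  obtain ⟨m, rfl⟩ : ∃ m, n = m + 1 := ⟨n - 1, by omega⟩
  obtain ⟨g, hg⟩ := h0 m (by omega)
  refine ⟨g, fun q => ?_⟩
  have e : ((p : ℚ_[p]) ^ (m + 1))⁻¹ • (mt (ρ q) g - 1) - (((p : ℚ_[p])⁻¹) • X) q =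
      ((p : ℚ_[p])⁻¹) • (((p : ℚ_[p]) ^ m)⁻¹ • (mt (ρ q) g - 1) - X q) := by
    rw [Pi.smul_apply, pow_succ, mul_inv_rev, mul_smul, ← smul_sub]
  rw [e]
  refine lt_smul fun i j => ?_
  rw [norm_inv]
  have h1 := hg q i j
  calc ‖(p : ℚ_[p])‖⁻¹ * ‖(((p : ℚ_[p]) ^ m)⁻¹ • (mt (ρ q) g - 1) - X q) i j‖
      < ‖(p : ℚ_[p])‖⁻¹ * (‖(p : ℚ_[p])‖ * ε) := mul_lt_mul_of_pos_left h1 (inv_pos.2 hp)
    _ = ε := by rw [← mul_assoc, inv_mul_cancel₀ hp.ne', one_mul]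

theorem nat_mem {X : I → Mat ℚ_[p]} (hX : X ∈ Tan ρ) (k : ℕ) : (k : ℚ_[p]) • X ∈ Tan ρ := by
  induction k with
  | zero =>
    rw [Nat.cast_zero, zero_smul]
    exact zero_mem ρ
  | succ k ih =>
    rw [Nat.cast_succ, add_smul, one_smul]
    exact add_mem ρ ih hX

theorem int_mem {X : I → Mat ℚ_[p]} (hX : X ∈ Tan ρ) (u : ℤ_[p]) : (u : ℚ_[p]) • X ∈ Tan ρ := by
  rw [mem_tan]
  intro ε hε
  obtain ⟨c, hc1, hc⟩ := bound X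
  have hc0 : 0 < c := by linarith
  obtain ⟨k, hk⟩ := (PadicInt.denseRange_natCast (p := p)).exists_dist_lt u
    (show 0 < ε / c by positivity)
  have hk' : ‖(u : ℚ_[p]) - (k : ℚ_[p])‖ < ε / c := by
    rw [dist_eq_norm] at hk
    have h1 : ‖u - (k : ℤ_[p])‖ = ‖((u - (k : ℤ_[p]) : ℤ_[p]) : ℚ_[p])‖ := rfl
    rw [h1, PadicInt.coe_sub, PadicInt.coe_natCast] at hk
    exact hk
  have h2 := nat_mem ρ hX k
  rw [mem_tan] at h2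
  obtain ⟨n₀, h0⟩ := h2 ε hε
  refine ⟨n₀, fun n hn => ?_⟩
  obtain ⟨g, hg⟩ := h0 n hn
  refine ⟨g, fun q => ?_⟩
  have e : ((p : ℚ_[p]) ^ n)⁻¹ • (mt (ρ q) g - 1) - ((u : ℚ_[p]) • X) q =
      (((p : ℚ_[p]) ^ n)⁻¹ • (mt (ρ q) g - 1) - ((k : ℚ_[p]) • X) q) +
        (-((u : ℚ_[p]) - (k : ℚ_[p]))) • X q := by
    rw [Pi.smul_apply, Pi.smul_apply, neg_smul, sub_smul]
    abel
  rw [e]
  refine lt_add (hg q) (lt_smul fun i j => ?_)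
  rw [norm_neg]
  calc ‖(u : ℚ_[p]) - (k : ℚ_[p])‖ * ‖X q i j‖ ≤ ‖(u : ℚ_[p]) - (k : ℚ_[p])‖ * c :=
        mul_le_mul_of_nonneg_left (hc q i j) (norm_nonneg _)
    _ < ε / c * c := mul_lt_mul_of_pos_right hk' hc0
    _ = ε := div_mul_cancel₀ ε hc0.ne'

omit [Finite I] in
theorem pinv_pow_mem {X : I → Mat ℚ_[p]} (hX : X ∈ Tan ρ) (m : ℕ) :
    (((p : ℚ_[p])⁻¹) ^ m) • X ∈ Tan ρ := by
  induction m with
  | zero =>
    rw [pow_zero, one_smul]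
    exact hX
  | succ m ih =>
    rw [pow_succ', mul_smul]
    exact pinv_mem ρ ih

theorem smul_mem {X : I → Mat ℚ_[p]} (hX : X ∈ Tan ρ) (a : ℚ_[p]) : a • X ∈ Tan ρ := by
  obtain ⟨m, hm⟩ := small (p := p) ‖a‖ 1 (norm_nonneg _) one_pos
  have h1 : ‖(p : ℚ_[p]) ^ m * a‖ ≤ 1 := by
    rw [norm_mul]
    exact (hm m le_rfl).le
  have h2 := pinv_pow_mem ρ (int_mem ρ hX ⟨(p : ℚ_[p]) ^ m * a, h1⟩) m
  have h3 : ((p : ℚ_[p])⁻¹) ^ m * ((p : ℚ_[p]) ^ m * a) = a := by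
    rw [← mul_assoc, inv_pow, inv_mul_cancel₀ (pn_ne m), one_mul]
  have h4 : (((p : ℚ_[p])⁻¹) ^ m) • (((p : ℚ_[p]) ^ m * a) • X) ∈ Tan ρ := h2
  rw [smul_smul, h3] at h4
  exact h4

omit [Finite I] in
theorem conj_mem {X : I → Mat ℚ_[p]} (hX : X ∈ Tan ρ) (h : G) :
    (fun q => mt (ρ q) h * X q * mt (ρ q) h⁻¹) ∈ Tan ρ := by
  rw [mem_tan] at hX ⊢
  intro ε hε
  obtain ⟨n₀, h0⟩ := hX ε hε
  refine ⟨n₀, fun n hn => ?_⟩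
  obtain ⟨g, hg⟩ := h0 n hn
  refine ⟨h * g * h⁻¹, fun q => ?_⟩
  have h1 : mt (ρ q) h * mt (ρ q) h⁻¹ = 1 := by
    rw [← mt_mul, mul_inv_cancel, mt_one]
  have e : ((p : ℚ_[p]) ^ n)⁻¹ • (mt (ρ q) (h * g * h⁻¹) - 1) - mt (ρ q) h * X q * mt (ρ q) h⁻¹ =
      mt (ρ q) h * (((p : ℚ_[p]) ^ n)⁻¹ • (mt (ρ q) g - 1) - X q) * mt (ρ q) h⁻¹ := by
    rw [mt_mul, mt_mul, mul_sub, sub_mul, mul_smul_comm, smul_mul_assoc, mul_sub, sub_mul, mul_one,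
      h1]
  rw [e]
  exact lt_bd1 (bd1_lt (mt_bd (ρ q) h) (hg q)) (mt_bd (ρ q) h⁻¹)

end tan

end TAN

/-- **S_TAN.** -/
theorem tan : S_TAN := by
  intro p _ G _ I _ ρ
  refine ⟨{ carrier := Tan ρ
            add_mem' := fun hX hY => TAN.add_mem ρ hX hY
            zero_mem' := TAN.zero_mem ρ
            smul_mem' := fun a X hX => TAN.smul_mem ρ hX a }, rfl, fun h X hX =>
    TAN.conj_mem ρ hX h⟩

end Pool.Agent.H858.RU
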