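import Pool.Agent.H858.RU.Main
import Pool.Agent.H858.RU.DG
import Pool.Agent.H858.RU.FP
import Pool.Agent.H858.RU.SIM
import Pool.Agent.H858.RU.RG
import Pool.Agent.H858.RU.NULL
import Pool.Agent.H858.RU.TAN
import Pool.Agent.H858.RU.NSC
import Pool.Agent.H858.RU.AD
import Pool.Agent.H858.RU.GRS
import Pool.Agent.H858.RU.EST
import Pool.Agent.H858.RU.INTW
import Pool.Agent.H858.RU.BETA1
import Pool.Agent.H858.RU.BETA2
import Pool.Agent.H858.RU.B1
import Pool.Agent.H858.RU.B2

/-!
# Integral systems of rank two over all number fields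
-/

set_option autoImplicit false

namespace Pool.Agent.H858.RU

theorem all : All := ⟨dg, fp, sim, rg, null, tan, nsc, ad, grs, est, intw, beta1, beta2, b1, b2⟩

end Pool.Agent.H858.RU
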