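import Pool.Agent.H858.RU.Spec

/-!
# The local contradictions, from the statements
-/

set_option autoImplicit false

namespace Pool.Agent.H858.RU

open Module NumberField Pool.Agent.Y800 Pool.Agent.R390.SF Pool.Agent.NH56.PA

variable {p : ℕ} [Fact p.Prime] {G : Type} [Group G] [TopologicalSpace G]

theorem span_ne_top {k : Type} [Field k] (s : Set (Mat k)) (h : ∀ A ∈ s, IsSc A) :
    Submodule.span k s ≠ ⊤ := by
  intro hs
  have h1 : Submodule.span k s ≤ Submodule.span k {(1 : Mat k)} := by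
    refine Submodule.span_le.2 fun A hA => ?_
    obtain ⟨c, rfl⟩ := h A hA
    exact Submodule.smul_mem _ _ (Submodule.mem_span_singleton_self _)
  have h2 : (Matrix.single 0 1 (1 : k) : Mat k) ∈ Submodule.span k {(1 : Mat k)} := by
    apply h1
    rw [hs]
    exact Submodule.mem_top
  obtain ⟨c, hc⟩ := Submodule.mem_span_singleton.1 h2
  have h3 := congrFun (congrFun hc 0) 1
  simp at h3

theorem exists_nonscalar {ρ : G →* GL (Fin 2) ℤ_[p]} (hs : StrongIrr ρ) (U : Subgroup G)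
    (hU : IsOpen (U : Set G)) : ∃ g ∈ U, ¬ IsSc (mt ρ g) := by
  by_contra hcon
  push Not at hcon
  refine span_ne_top _ ?_ (hs U hU)
  rintro A ⟨g, hg, rfl⟩
  exact hcon g hg

theorem loc [IsTopologicalGroup G] (hTAN : S_TAN) (hNSC : S_NSC) (hAD : S_AD) (hGRS : S_GRS)
    (hEST : S_EST) {I : Type} [Fintype I] [DecidableEq I] (ρ : I → G →* GL (Fin 2) ℤ_[p])
    (hc : ∀ q, Continuous fun g => (ρ q g : Matrix (Fin 2) (Fin 2) ℤ_[p]))
    (hs : ∀ q, StrongIrr (ρ q)) (C : Finset I) (q₀ : I) (hq₀ : q₀ ∈ C)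
    (hC : ∀ q ∉ C, ¬ SimOn (ρ q) (ρ q₀)) (D : Set G) (hD : Dense D) (a b : ℕ) (ha : a ≠ 0)
    (Ω : Type) [NormedField Ω] [NormedAlgebra ℚ_[p] Ω] [IsUltrametricDist Ω]
    (h : ∀ g ∈ D, ∃ z : I → Ω, (∀ q, (z q + 1) ^ 2 * algebraMap ℚ_[p] Ω (mt (ρ q) g).det =
        algebraMap ℚ_[p] Ω (mt (ρ q) g).trace ^ 2 * z q) ∧
      z q₀ ^ a * ∏ q ∈ Finset.univ \ C, z q ^ b = 1) : False := by
  obtain ⟨W, hW, hWc⟩ := hTAN p G I ρ
  have hns : ∀ q : I, ∃ X ∈ W, ¬ IsSc (X q) := by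
    intro q
    obtain ⟨X, hX, hX'⟩ := hNSC p G I ρ hc q (exists_nonscalar (hs q))
    refine ⟨X, ?_, hX'⟩
    have : X ∈ (W : Set (I → Mat ℚ_[p])) := by rw [hW]; exact hX
    exact this
  obtain ⟨X, hX, hXC, hX₀⟩ := hGRS p G I ρ W hWc (fun q => hAD p G (ρ q) (hc q) (hs q)) hns C q₀
    hq₀ hC
  have hX' : X ∈ Tan ρ := by rw [← hW]; exact hX
  exact hEST p G I ρ hc C q₀ hq₀ X hX' hXC hX₀ D hD a b ha Ω h

theorem beta (hINTW : S_INTW) (hBETA1 : S_BETA1) (hBETA2 : S_BETA2) {Γ : Type} [Group Γ]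
    [TopologicalSpace Γ] [IsTopologicalGroup Γ] (N : Subgroup Γ) [hN : N.Normal]
    (e : ℕ) (he0 : e ≠ 0) (he : ∀ g : Γ, g ^ e ∈ N)
    (ρ : N →* GL (Fin 2) ℤ_[p]) (hc : Continuous fun g => (ρ g : Matrix (Fin 2) (Fin 2) ℤ_[p]))
    (hs : StrongIrr ρ) (x : Γ)
    (hsim : SimOn ρ (ρ.comp (MulAut.conjNormal x⁻¹ : MulAut N).toMonoidHom))
    (h : ∀ n : N, (mt ρ ⟨(x * n) ^ e, he _⟩).trace *
      ((mt ρ ⟨(x * n) ^ e, he _⟩).trace ^ 2 - 4 * (mt ρ ⟨(x * n) ^ e, he _⟩).det) = 0) : False := by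
  have hcc : ∀ y : Γ, Continuous fun n : N => (MulAut.conjNormal y n : N) := by
    intro y
    refine Continuous.subtype_mk (f := fun n : N => y * (n : Γ) * y⁻¹) ?_ _
    exact (continuous_const.mul continuous_subtype_val).mul continuous_const
  have hs' : StrongIrr (ρ.comp (MulAut.conjNormal x⁻¹ : MulAut N).toMonoidHom) := by
    intro U hU
    have h1 : IsOpen ((U.comap (MulAut.conjNormal x : MulAut N).toMonoidHom : Subgroup N) :
        Set N) := hU.preimage (hcc x)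
    rw [← hs _ h1]
    congr 1
    ext A
    constructor
    · rintro ⟨g, hg, rfl⟩
      refine ⟨MulAut.conjNormal x⁻¹ g, ?_, rfl⟩
      show (MulAut.conjNormal x) (MulAut.conjNormal x⁻¹ g) ∈ U
      have h2 : (MulAut.conjNormal x) (MulAut.conjNormal x⁻¹ g) = g := by
        apply Subtype.ext
        simp only [MulAut.conjNormal_apply]
        group
      rw [h2]
      exact hg
    · rintro ⟨g, hg, rfl⟩
      refine ⟨MulAut.conjNormal x g, hg, ?_⟩
      have h2 : (MulAut.conjNormal x⁻¹) (MulAut.conjNormal x g) = g := by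
        apply Subtype.ext
        simp only [MulAut.conjNormal_apply]
        group
      show mt ρ g = mt ρ ((MulAut.conjNormal x⁻¹) (MulAut.conjNormal x g))
      rw [h2]
  obtain ⟨U, ν, B, B', hU, hB, hν⟩ := hINTW p N ρ
    (ρ.comp (MulAut.conjNormal x⁻¹ : MulAut N).toMonoidHom) hc (hc.comp (hcc x⁻¹)) hs hs' hsim
  obtain ⟨U', hU', h'⟩ := hBETA1 p Γ N hN e he0 he ρ hc hs x U ν B B' hU hB
    (fun n hn => ⟨(hν n hn).1, (hν n hn).2⟩) h
  exact hBETA2 p N ρ hc hs e he0 B B' hB U' hU' h'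

end Pool.Agent.H858.RU
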