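import Pool.Agent.H858.RU.CaseA
import Pool.Graph.R_pool_sql_team_seeded_3dad9d7b.Results.MP_78e9a5_nt.PotentiallyAbelian

/-!
# Integral systems of rank two over all number fields: the dichotomy and the finiteness
-/

set_option autoImplicit false

namespace Pool.Agent.H858.RU

open Module NumberField Pool.Agent.Y800 Pool.Agent.R390.SF Pool.Agent.NH56.PA
open Pool.Agent.R390.SF.IntegralSystem

section top

theorem finrank_line {k : Type} [Field k] {U : Submodule k (Fin 2 → k)} (h1 : U ≠ ⊥)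
    (h2 : U ≠ ⊤) : finrank k U = 1 := by
  have h3 : finrank k (Fin 2 → k) = 2 := by simp
  have h4 : 0 < finrank k U := by
    rw [Nat.pos_iff_ne_zero]
    intro h
    exact h1 (Submodule.finrank_eq_zero.1 h)
  have h5 := Submodule.finrank_lt h2
  omega

variable {F : SubFld ℚ} [FiniteDimensional ℚ F] {n : ℕ}

omit [FiniteDimensional ℚ F] in
theorem isom_symm {Λ : Set ℕ} {T T' : IntegralSystem F n} (h : IsomorphicOn Λ T T') :
    IsomorphicOn Λ T' T := by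
  intro ℓ _ hℓ
  obtain ⟨A, hA⟩ := h ℓ hℓ
  refine ⟨A⁻¹, fun g => ?_⟩
  rw [hA g]
  group

omit [FiniteDimensional ℚ F] in
theorem isom_trans {Λ : Set ℕ} {T T' T'' : IntegralSystem F n} (h : IsomorphicOn Λ T T')
    (h' : IsomorphicOn Λ T' T'') : IsomorphicOn Λ T T'' := by
  intro ℓ _ hℓ
  obtain ⟨A, hA⟩ := h ℓ hℓ
  obtain ⟨B, hB⟩ := h' ℓ hℓ
  refine ⟨B * A, fun g => ?_⟩
  rw [hB g, hA g]
  group

omit [FiniteDimensional ℚ F] in
/-- Representatives can be chosen in the class. -/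
theorem reps_inside {Λ : Set ℕ} (C : IntegralSystem F n → Prop) {m : ℕ}
    (T : Fin m → IntegralSystem F n)
    (hT : ∀ T' : IntegralSystem F n, C T' → ∃ i, IsomorphicOn Λ (T i) T') :
    ∃ (m : ℕ) (T : Fin m → IntegralSystem F n), (∀ i, C (T i)) ∧
      ∀ T' : IntegralSystem F n, C T' → ∃ i, IsomorphicOn Λ (T i) T' := by
  classical
  let I := {i : Fin m // ∃ T' : IntegralSystem F n, C T' ∧ IsomorphicOn Λ (T i) T'}
  obtain ⟨k, ⟨e⟩⟩ := Finite.exists_equiv_fin I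
  refine ⟨k, fun j => (e.symm j).2.choose, fun j => (e.symm j).2.choose_spec.1, fun T' hC => ?_⟩
  obtain ⟨i, hi⟩ := hT T' hC
  refine ⟨e ⟨i, T', hC, hi⟩, ?_⟩
  have h1 := (e.symm (e ⟨i, T', hC, hi⟩)).2.choose_spec.2
  refine isom_trans (isom_symm h1) ?_
  rw [Equiv.symm_apply_apply]
  exact hi

end top

section main

variable {F : SubFld ℚ} [hF : FiniteDimensional ℚ F] {S : Finset ℕ} {w : ℕ}
  {T : IntegralSystem F 2}

/-- All the statements. -/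
structure All : Prop where
  DG : S_DG
  FP : S_FP
  SIM : S_SIM
  RG : S_RG
  NULL : S_NULL
  TAN : S_TAN
  NSC : S_NSC
  AD : S_AD
  GRS : S_GRS
  EST : S_EST
  INTW : S_INTW
  BETA1 : S_BETA1
  BETA2 : S_BETA2
  B1 : S_B1
  B2 : S_B2

theorem no_ratio' (H : All) (hT : T.GoodSystem S w) {ℓ' : ℕ} [Fact ℓ'.Prime]
    (hs : StrongIrr (T.rho ℓ')) {S' : Finset ℕ} (hS' : S ⊆ S')
    (h : ∀ N₀ : ℕ, ∃ (L : Type) (_ : Field L) (r : F.fixingSubgroup →* Lˣ),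
      Ratio F S' N₀ T ℓ' L r) : False :=
  no_ratio H.DG H.FP H.NULL H.TAN H.NSC H.AD H.GRS H.EST H.INTW H.BETA1 H.BETA2 hT hs hS' h

/-- `V_ℓ` is irreducible for all `ℓ`, if some `V_ℓ'` is strongly irreducible. -/
theorem rat_irr (H : All) (hT : T.PureSystem S w) {ℓ' : ℕ} [Fact ℓ'.Prime]
    (hs : StrongIrr (T.rho ℓ')) (ℓ : ℕ) [Fact ℓ.Prime] (U : Submodule ℚ_[ℓ] (Fin 2 → ℚ_[ℓ]))
    (hU : IsStable (T.rat ℓ) U) : U = ⊥ ∨ U = ⊤ := by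
  by_contra hcon
  rw [not_or] at hcon
  have h1 := finrank_line hcon.1 hcon.2
  have h2 := rat_wt hT U hU
  rw [h1] at h2
  refine no_ratio' H hT.toGoodSystem hs (Finset.subset_insert ℓ S) fun N₀ => ?_
  obtain ⟨r, hr⟩ := H.RG H.FP (H.SIM H.DG H.FP) F S w T hT.toGoodSystem ℓ ℚ_[ℓ]
    (algebraMap ℤ_[ℓ] ℚ_[ℓ]) U hU h1 h2 N₀ (fun M hM _ => by exact_mod_cast hM) (insert ℓ S)
    (Finset.subset_insert ℓ S) (Or.inl (Finset.mem_insert_self ℓ S)) ℓ'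
  exact ⟨ℚ_[ℓ], inferInstance, r, hr⟩

/-- `T_ℓ / ℓ` is irreducible for almost all `ℓ`, if some `V_ℓ'` is strongly irreducible. -/
theorem res_irr (H : All) (hT : T.PureSystem S w) {ℓ' : ℕ} [Fact ℓ'.Prime]
    (hs : StrongIrr (T.rho ℓ')) : ∃ N : ℕ, ∀ (ℓ : ℕ) [Fact ℓ.Prime], N < ℓ →
      ∀ U : Submodule (ZMod ℓ) (Fin 2 → ZMod ℓ), IsStable (T.res ℓ) U → U = ⊥ ∨ U = ⊤ := by
  by_contra hcon
  push Not at hcon
  obtain ⟨N₁, hN₁⟩ := res_wt hT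
  refine no_ratio' H hT.toGoodSystem hs (Finset.Subset.refl S) fun N₀ => ?_
  obtain ⟨ℓ, hℓ, hlt, U, hU, hb, ht⟩ := hcon (max N₁ N₀)
  have h1 := finrank_line hb ht
  have h2 := hN₁ ℓ (lt_of_le_of_lt (le_max_left _ _) hlt) U hU
  rw [h1] at h2
  have hN₀ : N₀ < ℓ := lt_of_le_of_lt (le_max_right _ _) hlt
  obtain ⟨r, hr⟩ := H.RG H.FP (H.SIM H.DG H.FP) F S w T hT.toGoodSystem ℓ (ZMod ℓ)
    (PadicInt.toZMod (p := ℓ)) U hU h1 h2 N₀
    (fun M hM hMN => ne_zero_mod hM (lt_of_le_of_lt hMN hN₀)) S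
    (Finset.Subset.refl S) (Or.inr hN₀) ℓ'
  exact ⟨ZMod ℓ, inferInstance, r, hr⟩

/-- the potentially abelian case -/
theorem potAbelian (H : All) (hT : T.GoodSystem S w) {Λ : Set ℕ} (hss : SemisimpleOn Λ T)
    (h : ∀ (ℓ : ℕ) [Fact ℓ.Prime], ℓ ∈ Λ → ¬ StrongIrr (T.rho ℓ)) : PotAbelian Λ T := by
  have hcomp : CompactSpace F.fixingSubgroup :=
    isCompact_iff_compactSpace.1 (Subgroup.isClosed_of_isOpen _ (isOpen_F F)).isCompact
  exact H.B2 F S w T hT Λ hss fun ℓ _ hℓ =>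
    H.B1 ℓ F.fixingSubgroup (T.rho ℓ) (hT.continuous ℓ) (h ℓ hℓ) (hss ℓ hℓ)

/-- **Finiteness.** -/
theorem finite_rank_two (H : All) (F : SubFld ℚ) [FiniteDimensional ℚ F] (w : ℕ)
    (S : Finset ℕ) (Λ : Set ℕ) :
    ∃ (m : ℕ) (T : Fin m → IntegralSystem F 2), (∀ i, (T i).PureSystem S w ∧ SemisimpleOn Λ (T i)) ∧
      ∀ T' : IntegralSystem F 2, T'.PureSystem S w ∧ SemisimpleOn Λ T' →
        ∃ i, IsomorphicOn Λ (T i) T' := by
  classical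
  obtain ⟨m₁, T₁, -, hT₁⟩ := Pool.Agent.R390.SF.finiteness (F := F) (n := 2) two_pos w S Λ
    (fun T => T.PureSystem S w ∧ T.IsIrreducible Λ) (fun T hT => hT.1.toGoodSystem)
    (fun T hT => hT.2)
  obtain ⟨m₂, T₂, -, hT₂⟩ := Pool.Agent.NH56.PA.finiteness (F := F) (n := 2) t_SS t_DIAG t_CHI t_ND1
    t_ND2 t_OPEN t_LAG t_RAD t_RET t_AVG t_RSS t_ISO two_pos w S Λ
  refine reps_inside (fun T => T.PureSystem S w ∧ SemisimpleOn Λ T) (Fin.append T₁ T₂) ?_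
  rintro T' ⟨hP, hss⟩
  by_cases hst : ∃ (ℓ : ℕ) (_ : Fact ℓ.Prime), StrongIrr (T'.rho ℓ)
  · obtain ⟨ℓ', _, hs⟩ := hst
    obtain ⟨N, hN⟩ := res_irr H hP hs
    have hirr : T'.IsIrreducible Λ := ⟨fun ℓ _ _ U hU => rat_irr H hP hs ℓ U hU,
      N, fun ℓ _ _ hNℓ U hU => hN ℓ hNℓ U hU⟩
    obtain ⟨i, hi⟩ := hT₁ T' ⟨hP, hirr⟩
    exact ⟨Fin.castAdd m₂ i, by rw [Fin.append_left]; exact hi⟩
  · have hab := potAbelian H hP.toGoodSystem hss fun ℓ hℓ _ hs => hst ⟨ℓ, hℓ, hs⟩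
    obtain ⟨i, hi⟩ := hT₂ T' ⟨hP.toGoodSystem, hab⟩
    exact ⟨Fin.natAdd m₁ i, by rw [Fin.append_right]; exact hi⟩

end main

end Pool.Agent.H858.RU
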