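import Pool.Agent.H858.RU.Def
import Pool.Graph.R_seed8.R390.SF.Main
import Pool.Graph.R_seed8.R390.SF.Inst
import Pool.Graph.R_pool_sql_team_seeded_3dad9d7b.NH56.PA.Def

/-!
# Integral systems of rank two over all number fields, without class field theory

Definitions and statements. `F` is a number field (a subfield of the algebraic closure of `ℚ`),
`G_F = F.fixingSubgroup`, a subgroup of `GQ`, and `N = (F.fixingSubgroup).normalCore`.
-/

set_option autoImplicit false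

namespace Pool.Agent.H858.RU

open Module NumberField Pool.Agent.Y800 Pool.Agent.R390.SF Pool.Agent.NH56.PA
open Pool.Agent.R390.SF.IntegralSystem
open Pool.Agent.Y126.SH (chi)

attribute [local instance] Subgroup.fintypeQuotientOfFiniteIndex

/-- `A` is a scalar matrix. -/
def IsSc {k : Type} [Field k] (A : Mat k) : Prop := ∃ c : k, A = c • (1 : Mat k)

section padic

variable {p : ℕ} [Fact p.Prime] {G : Type} [Group G]

/-- `tr² / det` is the same for `ρ` and `ρ'`. -/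
def SimOn (ρ ρ' : G →* GL (Fin 2) ℤ_[p]) : Prop :=
  ∀ g, (mt ρ g).trace ^ 2 * (mt ρ' g).det = (mt ρ' g).trace ^ 2 * (mt ρ g).det

/-- The tangent space: the limits of `p ^ (-n) * (ρ (g n) - 1)`. -/
def Tan {I : Type} (ρ : I → G →* GL (Fin 2) ℤ_[p]) : Set (I → Mat ℚ_[p]) :=
  {X | ∀ ε : ℝ, 0 < ε → ∃ n₀ : ℕ, ∀ n : ℕ, n₀ ≤ n → ∃ g : G, ∀ (q : I) (i j : Fin 2),
    ‖((p : ℚ_[p]) ^ n)⁻¹ * (mt (ρ q) g i j - (1 : Mat ℚ_[p]) i j) - X q i j‖ < ε}

end padic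

/-- Conjugation, `n ↦ x⁻¹ n x`. -/
noncomputable def cnj (F : SubFld ℚ) (x : GQ) :
    (F.fixingSubgroup).normalCore →* F.fixingSubgroup where
  toFun n := ⟨x⁻¹ * n * x, core_conj n.2 x⟩
  map_one' := by
    apply Subtype.ext
    show x⁻¹ * 1 * x = 1
    group
  map_mul' a b := by
    apply Subtype.ext
    show x⁻¹ * ((a : GQ) * (b : GQ)) * x = x⁻¹ * a * x * (x⁻¹ * b * x)
    group

/-- A character `r` of `G_F` with values in a field `L` (of characteristic `0` or `> N₀`), the ratio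
of the two eigenvalues in a reducible representation. -/
structure Ratio (F : SubFld ℚ) [FiniteDimensional ℚ F] (S : Finset ℕ) (N₀ : ℕ)
    (T : IntegralSystem F 2) (ℓ' : ℕ) [Fact ℓ'.Prime] (L : Type) [Field L]
    (r : F.fixingSubgroup →* Lˣ) : Prop where
  char : ∀ M : ℤ, M ≠ 0 → M.natAbs ≤ N₀ → (M : L) ≠ 0
  quad : ∀ p : ℕ, p.Prime → p ∉ S → p ≤ N₀ → ∀ P : Ideal ZBar, P.IsMaximal → (p : ZBar) ∈ P →
    ∀ (m : ℕ) (z : F.fixingSubgroup), IsGeomFrob (p ^ m) P z → ∀ t d : ℤ,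
      (∀ (ℓ : ℕ) [Fact ℓ.Prime], ℓ ≠ p →
        (T.rho ℓ z : Matrix (Fin 2) (Fin 2) ℤ_[ℓ]).trace = t ∧
        (T.rho ℓ z : Matrix (Fin 2) (Fin 2) ℤ_[ℓ]).det = d) →
      ((r z : L) + 1) ^ 2 * (d : L) = (t : L) ^ 2 * (r z : L)
  prod : ∀ p : ℕ, p.Prime → p ∉ S → p ≤ N₀ → ∀ P : Ideal ZBar, P.IsMaximal → (p : ZBar) ∈ P →
    ∀ σ : GQ, IsGeomFrob p P σ → ∏ q : GQ ⧸ F.fixingSubgroup, (r (zz σ q) : L) ^ 2 = 1
  sim : ∀ x y : GQ, SimOn ((T.rho ℓ').comp (cnj F x)) ((T.rho ℓ').comp (cnj F y)) →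
    ∀ n : (F.fixingSubgroup).normalCore, r (cnj F x n) = r (cnj F y n) ∨
      r (cnj F x n) * r (cnj F y n) = 1

/-! ## Statements: Frobenius elements and characters -/

/-- **S_DG.** The Frobenius elements are dense in the Galois group of `ℚ`. Proof: as `closed_univ'` in
`Pool/Graph/R_seed8/R390/SF/Fal.lean`, from `exists_frob` (with conjugates `cj`, `cj_frob`,
`cj_max`, `cj_nat`). -/
def S_DG : Prop := ∀ (C : Set GQ), IsClosed C → ∀ S : Finset ℕ,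
  (∀ p : ℕ, p.Prime → p ∉ S → ∀ P : Ideal ZBar, P.IsMaximal → (p : ZBar) ∈ P →
    ∀ σ : GQ, IsGeomFrob p P σ → σ ∈ C) → ∀ g, g ∈ C

/-- **S_FP.** Powers of Frobenius elements. Proof: let `f` be the residue degree, `resCard F P = p ^ f`
(`resCard_pow`), `s` in `G_F` a Frobenius element for `resCard F P` at `P` (see how `zz_eq` is used in
`Pool/Graph/R_seed8/R390/SF/*.lean`, Hodge.lean, or use `exists_frob`/`exists_geom`), `m = f * m'`
(`dvd_of_frob`), `z = s ^ m' * τ` with `τ` in the inertia group, in `G_F` (as in the proof of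
`zz_eq`; `m = 0` is the case of inertia). `GoodAt.unramified` gives `ρ τ = 1`, so
`ρ z = (ρ s) ^ m'`, with `charpoly (ρ s) = T.poly 𝔭 = X² - t₀ X + d₀`, `t₀ d₀` integers. By the theorem of
Cayley and Hamilton trace and determinant of the power are integers `t`, `d = d₀ ^ m'` which do not
depend on `ℓ` (recursion `t (j+2) = t₀ t (j+1) - d₀ t j`). Purity: `d₀` is the product of the two complex
roots, so `d₀ ^ 2 = (p ^ f) ^ (2 w)`. -/
def S_FP : Prop := ∀ (F : SubFld ℚ) [FiniteDimensional ℚ F] (S : Finset ℕ) (w : ℕ)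
  (T : IntegralSystem F 2), T.GoodSystem S w → ∀ p : ℕ, p.Prime → p ∉ S → ∀ P : Ideal ZBar,
    P.IsMaximal → (p : ZBar) ∈ P → ∀ (m : ℕ) (z : F.fixingSubgroup), IsGeomFrob (p ^ m) P z →
      ∃ t d : ℤ, d ^ 2 = ((p : ℤ) ^ m) ^ (2 * w) ∧ ∀ (ℓ : ℕ) [Fact ℓ.Prime], ℓ ≠ p →
        (T.rho ℓ z : Matrix (Fin 2) (Fin 2) ℤ_[ℓ]).trace = t ∧
        (T.rho ℓ z : Matrix (Fin 2) (Fin 2) ℤ_[ℓ]).det = d

/-- **S_SIM.** `SimOn` does not depend on `ℓ`. Proof: the closed set of all `g` in `GQ` such that, if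
`g` is in the (open) normal core, the equation holds for `ℓ'` and `g`, contains the Frobenius elements
`g` outside `S`, `ℓ`, `ℓ'`: apply S_FP (with `m = 1`) to `x⁻¹ g x` at `cj x P`
(`cj_frob`) and `y⁻¹ g y`; the integers satisfy the equation as `ℤ → ℚ_[ℓ]` is injective. Then
S_DG. -/
def S_SIM : Prop := S_DG → S_FP → ∀ (F : SubFld ℚ) [FiniteDimensional ℚ F] (S : Finset ℕ) (w : ℕ)
  (T : IntegralSystem F 2), T.GoodSystem S w → ∀ (ℓ ℓ' : ℕ) [Fact ℓ.Prime] [Fact ℓ'.Prime]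
    (x y : GQ), SimOn ((T.rho ℓ).comp (cnj F x)) ((T.rho ℓ).comp (cnj F y)) →
      SimOn ((T.rho ℓ').comp (cnj F x)) ((T.rho ℓ').comp (cnj F y))

/-- **S_RG.** The ratio character. Proof: `φ = detChar (rep ψ T) U hU` is the character on the line `U`,
`δ = det (rep ψ T)`, `r = φ ^ 2 * δ⁻¹`. `φ g` is a root of the characteristic polynomial of
`rep ψ T g`, so `tr = φ + δ / φ` and `(r + 1) ^ 2 * δ = tr ^ 2 * r`: this is `quad` (here
`ℓ ≠ p` because `ℓ ∈ S'` or `p ≤ N₀ < ℓ`). `prod`: `Wt` gives `∏ φ (zz σ q) = p ^ (e A)`,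
`2 A = w [F : ℚ]`, `e = expo`, and `δ (zz σ q) ^ 2 = p ^ (2 w e)` by S_FP (with `m = e`, at
`cj q.out P`, `cj_frob (geom_pow hσ _)`), and `card_quot`; so `∏ r ^ 2 = 1`. `sim`: by S_SIM the
equation holds for `ℓ`, over `ℤ_[ℓ]`, so over `k`; with `(r + 1) ^ 2 * δ = tr ^ 2 * r` for
`x⁻¹ n x` and `y⁻¹ n y` we get `(r_x + 1) ^ 2 r_y = (r_y + 1) ^ 2 r_x`, which is
`(r_x - r_y) (r_x r_y - 1) = 0`. -/
def S_RG : Prop := S_FP → (∀ (F : SubFld ℚ) [FiniteDimensional ℚ F] (S : Finset ℕ) (w : ℕ)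
  (T : IntegralSystem F 2), T.GoodSystem S w → ∀ (ℓ ℓ' : ℕ) [Fact ℓ.Prime] [Fact ℓ'.Prime]
    (x y : GQ), SimOn ((T.rho ℓ).comp (cnj F x)) ((T.rho ℓ).comp (cnj F y)) →
      SimOn ((T.rho ℓ').comp (cnj F x)) ((T.rho ℓ').comp (cnj F y))) →
  ∀ (F : SubFld ℚ) [FiniteDimensional ℚ F] (S : Finset ℕ) (w : ℕ)
  (T : IntegralSystem F 2), T.GoodSystem S w → ∀ (ℓ : ℕ) [Fact ℓ.Prime] (k : Type) [Field k]
    (ψ : ℤ_[ℓ] →+* k) (U : Submodule k (Fin 2 → k)) (hU : IsStable (rep ψ T) U),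
    finrank k U = 1 → Wt ψ w 1 (detChar (rep ψ T) U hU) → ∀ N₀ : ℕ,
    (∀ M : ℤ, M ≠ 0 → M.natAbs ≤ N₀ → (M : k) ≠ 0) → ∀ S' : Finset ℕ, S ⊆ S' → (ℓ ∈ S' ∨ N₀ < ℓ) →
    ∀ (ℓ' : ℕ) [Fact ℓ'.Prime], ∃ r : F.fixingSubgroup →* kˣ, Ratio F S' N₀ T ℓ' k r

/-- **S_NULL.** Proof: let `I` be the ideal of `MvPolynomial J ℚ` generated by (the images of) `G`. If
`1 ∈ I` then, clearing denominators, a nonzero integer `M` is in the ideal of `MvPolynomial J ℤ`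
generated by `G`, and `M = 0` in `L`, a contradiction for `N₀ = |M|`. So `I` is contained in a
maximal ideal, whose residue field is finite over `ℚ` (Zariski's lemma) and is embedded in `Ω`. -/
def S_NULL : Prop := ∀ (J : Type) [Finite J] (G : Set (MvPolynomial J ℤ)),
  (∀ N₀ : ℕ, ∃ (L : Type) (_ : Field L), (∀ M : ℤ, M ≠ 0 → M.natAbs ≤ N₀ → (M : L) ≠ 0) ∧
    ∃ x : J → L, ∀ g ∈ G, MvPolynomial.aeval x g = 0) →
  ∀ (Ω : Type) [Field Ω] [IsAlgClosed Ω] [CharZero Ω],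
    ∃ x : J → Ω, ∀ g ∈ G, MvPolynomial.aeval x g = 0

/-! ## Statements: the tangent space -/

/-- **S_TAN.** Proof. Sum: `p⁻ⁿ (g h - 1) = p⁻ⁿ (g - 1) + p⁻ⁿ (h - 1) + pⁿ (p⁻ⁿ (g - 1)) (p⁻ⁿ (h - 1))`.
The scalar `p⁻¹`: use the element `g` which belongs to `n - 1` for `n`; the scalar `p`: the element
which belongs to `n + 1`. Natural numbers: by sums. `ℤ_p`: the set is closed under limits, and the natural
numbers are dense in `ℤ_p`; every scalar is `p ^ k u`. Conjugation: `h g h⁻¹`. -/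
def S_TAN : Prop := ∀ (p : ℕ) [Fact p.Prime] (G : Type) [Group G] (I : Type) [Finite I]
  (ρ : I → G →* GL (Fin 2) ℤ_[p]), ∃ W : Submodule ℚ_[p] (I → Mat ℚ_[p]),
    (W : Set (I → Mat ℚ_[p])) = Tan ρ ∧
    ∀ h : G, ∀ X ∈ W, (fun q => mt (ρ q) h * X q * mt (ρ q) h⁻¹) ∈ W

/-- **S_NSC.** Proof. On an open subgroup all `ρ q g ≡ 1` modulo `p ^ 2`. Let `g` be in this subgroup,
`ρ q g` not scalar, and `X q' = lim p⁻ⁿ (ρ q' (g ^ (p ^ n)) - 1)`: the limit exists, with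
`B = ρ q' (g ^ (p ^ n)) - 1`, `‖B‖ ≤ p^(-n-2)`: the next term is `p^(-n-1) ((1 + B) ^ p - 1)`
and differs from `p⁻ⁿ B` by `p^(-n-1) ∑_{i ≥ 2} (p choose i) B ^ i`, of norm at most `p^(-n-3)`
(note `‖B ^ 2‖ ≤ p^(-2 n - 4)`), so the sequence is a Cauchy sequence.
`X q` is not scalar: the entries `a 0 1`, `a 1 0`, `a 0 0 - a 1 1` of `B ^ i` are those of `B`
times a number of norm at most `p^(-2 (i - 1))` (`B ^ 2 = tr B * B - det B`), so in each step the norm of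
the nonzero entry (the largest one of the three, `‖·‖ = c`) of `p⁻ⁿ (ρ q (g ^ (p ^ n)) - 1)` does not
change. -/
def S_NSC : Prop := ∀ (p : ℕ) [Fact p.Prime] (G : Type) [Group G] [TopologicalSpace G]
  [IsTopologicalGroup G] (I : Type) [Finite I] (ρ : I → G →* GL (Fin 2) ℤ_[p]),
  (∀ q, Continuous fun g => (ρ q g : Matrix (Fin 2) (Fin 2) ℤ_[p])) → ∀ q : I,
    (∀ U : Subgroup G, IsOpen (U : Set G) → ∃ g ∈ U, ¬ IsSc (mt (ρ q) g)) →
      ∃ X ∈ Tan ρ, ¬ IsSc (X q)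

/-- **S_AD.** Proof. The matrices are `k ⊕ sl₂`, `k = ℚ_p`. Let `W'` be the space of the traceless
matrices in `W + k`; it is stable and not zero. If `W' ≠ sl₂` then `W'` or its orthogonal space in
`sl₂` (for `tr (X Y)`) is a stable line `k Y`, `Y ≠ 0`, `tr Y = 0`. As
`det (m Y m⁻¹) = det Y`: if `det Y ≠ 0` then `m Y m⁻¹ = ± Y`, and the subgroup of the elements with
`m Y m⁻¹ = Y` is open (closed, of index at most two) and spans matrices which commute with `Y`, not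
all. If `det Y = 0` then `Y ^ 2 = 0` and the kernel of `Y` is a stable line, so that the group does
not span all matrices. -/
def S_AD : Prop := ∀ (p : ℕ) [Fact p.Prime] (G : Type) [Group G] [TopologicalSpace G]
  [IsTopologicalGroup G] (ρ : G →* GL (Fin 2) ℤ_[p]),
  (Continuous fun g => (ρ g : Matrix (Fin 2) (Fin 2) ℤ_[p])) → StrongIrr ρ →
  ∀ W : Submodule ℚ_[p] (Mat ℚ_[p]), (∀ g : G, ∀ X ∈ W, mt ρ g * X * mt ρ g⁻¹ ∈ W) →
    (∃ X ∈ W, ¬ IsSc X) → W ⊔ Submodule.span ℚ_[p] {(1 : Mat ℚ_[p])} = ⊤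

/-- **S_GRS.** Proof, by induction on a finite set `D` which is disjoint to `C`: there is `X` in `W`
with `X q` scalar for `q ∈ D` and `X q₀` not scalar. Step, `q₁ ∉ C`: let `W_D` be the space of the
`X ∈ W` with `X q` scalar for `q ∈ D`; it is stable, so by irreducibility its `q₀`-components and the
scalars span everything. If all `X ∈ W_D` with `X q₁` scalar had `X q₀` scalar, then `X q₁ ↦ X q₀`
would induce a linear map from a subspace of `Mat / k` onto `Mat / k`, so an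
isomorphism of `Mat / k` with itself, equivariant, and the traces of the conjugation with `ρ q₁ g` and
`ρ q₀ g` on `Mat / k`, `tr² / det - 1`, would be the same. At the end, apply irreducibility once more
to find `X` with the given `X q₀` modulo scalars. -/
def S_GRS : Prop := ∀ (p : ℕ) [Fact p.Prime] (G : Type) [Group G] (I : Type) [Fintype I]
  [DecidableEq I] (ρ : I → G →* GL (Fin 2) ℤ_[p]) (W : Submodule ℚ_[p] (I → Mat ℚ_[p])),
  (∀ h : G, ∀ X ∈ W, (fun q => mt (ρ q) h * X q * mt (ρ q) h⁻¹) ∈ W) →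
  (∀ (q : I) (V : Submodule ℚ_[p] (Mat ℚ_[p])), (∀ g : G, ∀ X ∈ V, mt (ρ q) g * X * mt (ρ q) g⁻¹ ∈ V) →
    (∃ X ∈ V, ¬ IsSc X) → V ⊔ Submodule.span ℚ_[p] {(1 : Mat ℚ_[p])} = ⊤) →
  (∀ q : I, ∃ X ∈ W, ¬ IsSc (X q)) → ∀ (C : Finset I) (q₀ : I), q₀ ∈ C →
  (∀ q ∉ C, ¬ SimOn (ρ q) (ρ q₀)) →
  ∃ X ∈ W, (∀ q ∉ C, IsSc (X q)) ∧ ∃ c : ℚ_[p], X q₀ = c • 1 + Matrix.diagonal ![1, -1]

/-- **S_EST.** Proof. Let `n` be large, `g'` an element with
`‖p⁻ⁿ (ρ q g' - 1) - X q‖ < ε`, all `q`, and (density, continuity) `g ∈ D` with `ρ q g` so close to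
`ρ q g'` that the same holds for `g`. The discriminant `tr² - 4 det` of
`ρ q g = 1 + pⁿ (X q + E)`, `‖E‖ < ε`, is `p^(2n)` times the discriminant of `X q + E`, so its norm is
at most `p^(-2n) ε²` for `q ∉ C` (the discriminant does not change if a scalar is added, and is a quadratic
form), and is `p^(-2n) ‖4‖` for `q₀`, if `ε` is small. The equation for `z = z q` is
`(z - 1) ^ 2 det = (tr ^ 2 - 4 det) z`, and `z ≠ 0`, `‖z‖ = 1` (as `z + z⁻¹ + 2 = tr ^ 2 / det` is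
integral), so `‖z - 1‖ ≤ p⁻ⁿ ε` for `q ∉ C`, and `‖z q₀ - 1‖ = p⁻ⁿ ‖2‖`. For large `n`
`‖z q₀ ^ a - 1‖ = ‖a‖ p⁻ⁿ ‖2‖`, but the product of the others is congruent to `1` with an error at
most `p⁻ⁿ ε`. Choose `ε < ‖2 a‖`. -/
def S_EST : Prop := ∀ (p : ℕ) [Fact p.Prime] (G : Type) [Group G] [TopologicalSpace G]
  [IsTopologicalGroup G] (I : Type) [Fintype I] [DecidableEq I] (ρ : I → G →* GL (Fin 2) ℤ_[p]),
  (∀ q, Continuous fun g => (ρ q g : Matrix (Fin 2) (Fin 2) ℤ_[p])) →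
  ∀ (C : Finset I) (q₀ : I), q₀ ∈ C → ∀ X ∈ Tan ρ, (∀ q ∉ C, IsSc (X q)) →
  (∃ c : ℚ_[p], X q₀ = c • 1 + Matrix.diagonal ![1, -1]) → ∀ D : Set G, Dense D →
  ∀ a b : ℕ, a ≠ 0 → ∀ (Ω : Type) [NormedField Ω] [NormedAlgebra ℚ_[p] Ω] [IsUltrametricDist Ω],
  (∀ g ∈ D, ∃ z : I → Ω, (∀ q, (z q + 1) ^ 2 * algebraMap ℚ_[p] Ω (mt (ρ q) g).det =
      algebraMap ℚ_[p] Ω (mt (ρ q) g).trace ^ 2 * z q) ∧
    z q₀ ^ a * ∏ q ∈ Finset.univ \ C, z q ^ b = 1) → False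

/-! ## Statements: the case of an extension of the projective representation -/

/-- **S_INTW.** Proof. Let `U` be the open subgroup of the elements with `ρ g`, `ρ' g ≡ 1` modulo
`p ^ 3`. There `tr ≡ 2`, so `‖tr‖ = ‖2‖`; put `ν = tr ρ' / tr ρ`. Then `ν ^ 2 = det ρ' / det ρ` is
multiplicative, and `‖ν - 1‖ < ‖2‖`, so `ν` is multiplicative on `U` (`ν (g h) = ± ν g ν h`, and
`‖-1 - 1‖ = ‖2‖`). `ν ρ` and `ρ'` are irreducible on `U` with the same trace, so isomorphic (the theorem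
`bn` in `Pool/Graph/R_seed8/Y126/SH`, used in `Pool/Graph/R_seed8/R390/SF/Main.lean`, `exists_B`). -/
def S_INTW : Prop := ∀ (p : ℕ) [Fact p.Prime] (G : Type) [Group G] [TopologicalSpace G]
  [IsTopologicalGroup G] (ρ ρ' : G →* GL (Fin 2) ℤ_[p]),
  (Continuous fun g => (ρ g : Matrix (Fin 2) (Fin 2) ℤ_[p])) →
  (Continuous fun g => (ρ' g : Matrix (Fin 2) (Fin 2) ℤ_[p])) → StrongIrr ρ → StrongIrr ρ' →
  SimOn ρ ρ' → ∃ (U : Subgroup G) (ν : G → ℚ_[p]) (B B' : Mat ℚ_[p]), IsOpen (U : Set G) ∧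
    B * B' = 1 ∧ ∀ g ∈ U, ‖ν g - 1‖ < ‖(2 : ℚ_[p])‖ ∧ mt ρ' g = ν g • (B' * mt ρ g * B)

/-- **S_BETA1.** Proof. Let `U'` be the open subgroup of the `n` with `x^(-i) n x^i ∈ U` for
`i ≤ e`. For these `ρ (x^(-i) n x^i) = μ_i B^(-i) (ρ n) B^i`, `μ_i` a product of values of `ν`,
`‖μ_i - 1‖ < ‖2‖`. Let `A₀ = ρ (x^e)`. For `i = e`: `A₀⁻¹ (ρ n) A₀ = μ_e B^(-e) (ρ n) B^e`, so
`μ_e ^ 2 = 1` (determinants), `μ_e = 1`, and `B^e A₀⁻¹` commutes with the `ρ n`, `n ∈ U'`, which span, so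
`A₀ = z B^e` with a scalar `z ≠ 0`. As
`(x n)^e = x^e (x^(-(e-1)) n x^(e-1)) ⋯ (x⁻¹ n x) n` we get
`ρ ((x n)^e) = z' (B ρ n)^e` with a scalar `z' ≠ 0`, and `tr (tr² - 4 det)` is homogeneous. -/
def S_BETA1 : Prop := ∀ (p : ℕ) [Fact p.Prime] (Γ : Type) [Group Γ] [TopologicalSpace Γ]
  [IsTopologicalGroup Γ] (N : Subgroup Γ) (hN : N.Normal) (e : ℕ), e ≠ 0 →
  ∀ (he : ∀ g : Γ, g ^ e ∈ N) (ρ : N →* GL (Fin 2) ℤ_[p]),
  (Continuous fun g => (ρ g : Matrix (Fin 2) (Fin 2) ℤ_[p])) → StrongIrr ρ → ∀ (x : Γ)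
  (U : Subgroup N) (ν : N → ℚ_[p]) (B B' : Mat ℚ_[p]), IsOpen (U : Set N) → B * B' = 1 →
  (∀ n ∈ U, ‖ν n - 1‖ < ‖(2 : ℚ_[p])‖ ∧
    mt ρ (MulAut.conjNormal x⁻¹ n) = ν n • (B' * mt ρ n * B)) →
  (∀ n : N, (mt ρ ⟨(x * n) ^ e, he _⟩).trace *
    ((mt ρ ⟨(x * n) ^ e, he _⟩).trace ^ 2 - 4 * (mt ρ ⟨(x * n) ^ e, he _⟩).det) = 0) →
  ∃ U' : Subgroup N, IsOpen (U' : Set N) ∧ ∀ n ∈ U', ((B * mt ρ n) ^ e).trace *
    (((B * mt ρ n) ^ e).trace ^ 2 - 4 * ((B * mt ρ n) ^ e).det) = 0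

/-- **S_BETA2.** Proof. Let `z` be the ratio of the eigenvalues of `B ρ n` (in an algebraic closure). The
hypothesis says `z^e = 1` or `z^e = -1`, so `z` is a root of unity of order dividing `2 e`, and
`f n = tr (B ρ n)² / det (B ρ n) = z + z⁻¹ + 2` takes finitely many values. On the subgroup `V` of the
`n ∈ U'` with `ρ n ≡ 1` modulo a large power of `p`, `f n` is close to `f 1`, so `f n = f 1`. If
`f 1 = 0` then `tr (B ρ n) = 0` for all `n ∈ V`, which span, so `B = 0`. Otherwise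
`s n = tr (B ρ n) / tr B` has `s n ^ 2 = det (ρ n)`, and `‖s n - 1‖ < ‖2‖` (smaller `V`), so
`s (n n') = s n s n'` (equal up to sign). Hence `tr (ρ n (ρ n' B - s n' B)) = 0` for all `n ∈ V`, and
`ρ n' = s n'` is a scalar for all `n' ∈ V`, a contradiction to `StrongIrr`. -/
def S_BETA2 : Prop := ∀ (p : ℕ) [Fact p.Prime] (G : Type) [Group G] [TopologicalSpace G]
  [IsTopologicalGroup G] (ρ : G →* GL (Fin 2) ℤ_[p]),
  (Continuous fun g => (ρ g : Matrix (Fin 2) (Fin 2) ℤ_[p])) → StrongIrr ρ →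
  ∀ (e : ℕ), e ≠ 0 → ∀ (B B' : Mat ℚ_[p]), B * B' = 1 → ∀ U' : Subgroup G, IsOpen (U' : Set G) →
  (∀ n ∈ U', ((B * mt ρ n) ^ e).trace *
    (((B * mt ρ n) ^ e).trace ^ 2 - 4 * ((B * mt ρ n) ^ e).det) = 0) → False

/-! ## Statements: the potentially abelian case -/

/-- **S_B1.** Proof. `k = ℚ_p`. If there is a stable line, with a stable complement, then all `mt ρ g` are in
`k + k Y` with `Y` the difference of the two projections, `U = ⊤`. Otherwise `V` is irreducible. Let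
`U₀` be an open subgroup which does not span and `U₁` its normal core (open, as `G` is compact), `R` the
span of `U₁`, stable under conjugation by `G`, `1 ∈ R ≠ ⊤`. If `R` consists of scalars: the first case.
Otherwise the traceless part of `R` or its orthogonal space is a stable line `k Y` (see S_AD);
`det Y = 0` would give a stable line `ker Y`. So `m Y m⁻¹ = ± Y` for all `m = mt ρ g`; let
`U` be the subgroup of the elements which commute with `Y`, open; then `m ∈ k + k Y`; for `g ∉ U`,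
`m Y = - Y m` and so `tr m = 0`. -/
def S_B1 : Prop := ∀ (p : ℕ) [Fact p.Prime] (G : Type) [Group G] [TopologicalSpace G]
  [IsTopologicalGroup G] [CompactSpace G] (ρ : G →* GL (Fin 2) ℤ_[p]),
  (Continuous fun g => (ρ g : Matrix (Fin 2) (Fin 2) ℤ_[p])) → ¬ StrongIrr ρ →
  (∀ U : Submodule ℚ_[p] (Fin 2 → ℚ_[p]),
    IsStable ((Matrix.GeneralLinearGroup.map (algebraMap ℤ_[p] ℚ_[p])).comp ρ) U →
    ∃ U' : Submodule ℚ_[p] (Fin 2 → ℚ_[p]),
      IsStable ((Matrix.GeneralLinearGroup.map (algebraMap ℤ_[p] ℚ_[p])).comp ρ) U' ∧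
        IsCompl U U') →
  (∃ U : Subgroup G, IsOpen (U : Set G) ∧ ∀ g ∈ U, IsSc (mt ρ g)) ∨
  ∃ (U : Subgroup G) (Y : Mat ℚ_[p]), IsOpen (U : Set G) ∧ Y.trace = 0 ∧ Y.det ≠ 0 ∧
    (∀ g ∈ U, ∃ a b : ℚ_[p], mt ρ g = a • 1 + b • Y) ∧ ∀ g ∉ U, (mt ρ g).trace = 0

/-- **S_B2.** Proof. Call the two cases (i) and (ii). If (i) holds for all `ℓ ∈ Λ`: take one `ℓ₁ ∈ Λ` (if
there is none, `⊤`) and let `U` be the open subgroup of the `g` with `mt (T.rho ℓ₁) g` scalar. For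
`ℓ ∈ Λ` the Frobenius elements in `U` of degree one have `tr² = 4 det`, the same integers for `ℓ₁` and
`ℓ` (`GoodAt.frobenius`, or `charpoly_frob_rat`), so `tr² = 4 det` for `T.rho ℓ` on
`U` by `closed_univ'` (`U` is open and closed). A power `g ^ m`, `m ≥ 1`, is scalar by (i), so
`mt (T.rho ℓ) g`, with two equal eigenvalues, is scalar. If (i) does not hold for `ℓ₁`, let `U₁`, `Y₁` be as
in (ii), and `ℓ ∈ Λ`. (i) does not hold for `ℓ`: else on an open subgroup `tr² = 4 det` for `ℓ`, so for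
`ℓ₁`, and `(2 a)² = 4 (a² + b² det Y₁)` gives `b = 0`. So (ii) holds for `ℓ`, with `U₂`, `Y₂`. If
`g₀ ∈ U₁`, `g₀ ∉ U₂`: on the open set `U₁ \ U₂` the trace is zero for `ℓ`, so for the Frobenius elements,
so for `ℓ₁`; `mt g₀ = b Y₁`, `mt (g₀ v) = b' Y₁` for `v ∈ U₁ ∩ U₂` (as `a = 0`), and
`mt v` is scalar, so (i) for `ℓ₁`. So `U₁ ≤ U₂` and `U = U₁` works: the matrices in `k + k Y₂`
commute. -/
def S_B2 : Prop := ∀ (F : SubFld ℚ) [FiniteDimensional ℚ F] (S : Finset ℕ) (w : ℕ)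
  (T : IntegralSystem F 2), T.GoodSystem S w → ∀ Λ : Set ℕ, SemisimpleOn Λ T →
  (∀ (ℓ : ℕ) [Fact ℓ.Prime], ℓ ∈ Λ →
    (∃ U : Subgroup F.fixingSubgroup, IsOpen (U : Set F.fixingSubgroup) ∧
      ∀ g ∈ U, IsSc (mt (T.rho ℓ) g)) ∨
    ∃ (U : Subgroup F.fixingSubgroup) (Y : Mat ℚ_[ℓ]), IsOpen (U : Set F.fixingSubgroup) ∧
      Y.trace = 0 ∧ Y.det ≠ 0 ∧ (∀ g ∈ U, ∃ a b : ℚ_[ℓ], mt (T.rho ℓ) g = a • 1 + b • Y) ∧
      ∀ g ∉ U, (mt (T.rho ℓ) g).trace = 0) →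
  PotAbelian Λ T

end Pool.Agent.H858.RU
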